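import Pool.Agent.N86.S7.TorusB

/-!
# A torus acting on the points of a Steiner system: the abstract argument
-/

set_option autoImplicit false

namespace Pool.Agent.N86.S7

open Finset Pool.Agent.N86.S6 Pool.Agent.N86.S4 Pool.Agent.N86.S46

variable {X F : Type*} [DecidableEq X] [Fintype X] [Field F] [DecidableEq F] [Fintype F]

/-- The points outside of `E` are the images `φ u` of the nonzero elements of `F`, two elements
having the same image if they differ by a factor in `S`; and the group `G` contains the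
rotations `φ u ↦ φ (w u)` for the `w` with `P w` and the reflections `φ u ↦ φ (c / u)` for the
`c` with `R c`. -/
structure Act (G : Subgroup (Equiv.Perm X)) (φ : F → X) (E : Finset X) (S : Finset F)
    (P R : F → Prop) : Prop where
  S0 : (0 : F) ∉ S
  phiE : ∀ u, u ≠ 0 → φ u ∉ E
  surj : ∀ x, x ∉ E → ∃ u, u ≠ 0 ∧ φ u = x
  fib : ∀ u v, u ≠ 0 → v ≠ 0 → (φ u = φ v ↔ u / v ∈ S)
  mul : ∀ w, w ≠ 0 → P w → ∃ g ∈ G, (∀ x ∈ E, g x = x) ∧ ∀ u, u ≠ 0 → g (φ u) = φ (w * u)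
  refl : ∀ c, c ≠ 0 → R c → ∃ g ∈ G, (∀ x ∈ E, g x ∈ E) ∧ ∀ u, u ≠ 0 → g (φ u) = φ (c / u)

/-- a finite group of nonzero elements -/
structure IsGrp (W : Finset F) : Prop where
  W0 : (0 : F) ∉ W
  W1 : (1 : F) ∈ W
  Wm : ∀ x ∈ W, ∀ y ∈ W, x * y ∈ W

omit [Fintype F] [DecidableEq F] in
lemma IsGrp.inv {W : Finset F} (h : IsGrp W) {x : F} (hx : x ∈ W) : x⁻¹ ∈ W := by
  refine mem_of_pow W h.W0 ⟨1, h.W1⟩ h.Wm ?_
  rw [inv_pow, pow_card_eq_one W h.W0 h.Wm x hx, inv_one]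

/-- the elements of `F` above a set of points -/
noncomputable def cone (φ : F → X) (B : Finset X) : Finset F :=
  Finset.univ.filter (fun u => u ≠ 0 ∧ φ u ∈ B)

omit [Fintype X] in
lemma mem_cone {φ : F → X} {B : Finset X} {u : F} : u ∈ cone φ B ↔ u ≠ 0 ∧ φ u ∈ B := by
  unfold cone
  rw [Finset.mem_filter]
  exact ⟨fun h => h.2, fun h => ⟨Finset.mem_univ _, h⟩⟩

/-- two orbits and, possibly, the fixed points -/
noncomputable def two (φ : F → X) (E' : Finset X) (W : Finset F) (x y : F) : Finset X :=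
  E' ∪ (W.image (fun w => φ (w * x)) ∪ W.image (fun w => φ (w * y)))

section act
variable {G : Subgroup (Equiv.Perm X)} {φ : F → X} {E : Finset X} {S : Finset F} {P R : F → Prop}
  (hA : Act G φ E S P R)
include hA

omit [Fintype X] [Fintype F] in
/-- the number of points below a union of fibres -/
lemma Act.card_below (A : Finset F) (hA0 : (0 : F) ∉ A)
    (hAS : ∀ u ∈ A, ∀ v, v ≠ 0 → φ v = φ u → v ∈ A) : (A.image φ).card * S.card = A.card := by
  rw [Finset.card_eq_sum_card_image φ A, ← smul_eq_mul, ← Finset.sum_const]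
  refine Finset.sum_congr rfl fun x hx => ?_
  rw [Finset.mem_image] at hx
  obtain ⟨u, hu, rfl⟩ := hx
  have hu0 : u ≠ 0 := fun e => hA0 (e ▸ hu)
  have h1 : A.filter (fun v => φ v = φ u) = S.image (fun s => s * u) := by
    ext v
    rw [Finset.mem_filter, Finset.mem_image]
    constructor
    · rintro ⟨hv, h⟩
      have hv0 : v ≠ 0 := fun e => hA0 (e ▸ hv)
      exact ⟨v / u, (hA.fib v u hv0 hu0).1 h, by field_simp⟩
    · rintro ⟨s, hs, rfl⟩
      have hs0 : s ≠ 0 := fun e => hA.S0 (e ▸ hs)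
      have h2 : φ (s * u) = φ u := (hA.fib _ _ (mul_ne_zero hs0 hu0) hu0).2 (by
        rwa [mul_div_cancel_right₀ _ hu0])
      exact ⟨hAS u hu _ (mul_ne_zero hs0 hu0) h2, h2⟩
  rw [h1, Finset.card_image_of_injective _ (mul_left_injective₀ hu0)]

omit [Fintype X] in
lemma Act.card_cone (B : Finset X) : (cone φ B).card = (B \ E).card * S.card := by
  rw [← hA.card_below (cone φ B) (fun e => (mem_cone.1 e).1 rfl) (by
    intro u hu v hv0 h
    rw [mem_cone] at hu ⊢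
    rw [h]
    exact ⟨hv0, hu.2⟩)]
  congr 2
  ext x
  rw [Finset.mem_image, Finset.mem_sdiff]
  constructor
  · rintro ⟨u, hu, rfl⟩
    rw [mem_cone] at hu
    exact ⟨hu.2, hA.phiE u hu.1⟩
  · rintro ⟨hx, hxE⟩
    obtain ⟨u, hu0, rfl⟩ := hA.surj x hxE
    exact ⟨u, mem_cone.2 ⟨hu0, hx⟩, rfl⟩

omit [Fintype F] [Fintype X] [DecidableEq X] [DecidableEq F] in
lemma Act.S_ne : S.Nonempty := ⟨1, (by
  have := (hA.fib 1 1 one_ne_zero one_ne_zero).1 rfl
  rwa [div_one] at this)⟩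

variable {W : Finset F} (hW : IsGrp W) (hSW : S ⊆ W) {r : ℕ} (hWr : W.card = r * S.card)
  {E' : Finset X} (hE' : E' ⊆ E)
include hW hSW

omit [Fintype X] [DecidableEq X] [Fintype F] in
lemma Act.closed (x : F) (hx : x ≠ 0) : ∀ u ∈ W.image (fun w => w * x), ∀ v, v ≠ 0 →
    φ v = φ u → v ∈ W.image (fun w => w * x) := by
  intro u hu v hv h
  rw [Finset.mem_image] at hu ⊢
  obtain ⟨w, hw, rfl⟩ := hu
  have hw0 : w ≠ 0 := fun e => hW.W0 (e ▸ hw)
  have h1 := (hA.fib v (w * x) hv (mul_ne_zero hw0 hx)).1 h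
  refine ⟨v / (w * x) * w, hW.Wm _ (hSW h1) _ hw, ?_⟩
  field_simp

include hWr

omit [Fintype X] in
lemma Act.card_orbit (x : F) (hx : x ≠ 0) : (W.image (fun w => φ (w * x))).card = r := by
  have h1 := hA.card_below (W.image (fun w => w * x)) (by
    intro e
    rw [Finset.mem_image] at e
    obtain ⟨w, hw, e⟩ := e
    exact mul_ne_zero (fun e => hW.W0 (e ▸ hw)) hx e) (hA.closed hW hSW x hx)
  rw [Finset.card_image_of_injective _ (mul_left_injective₀ hx), hWr, Finset.image_image] at h1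
  exact Nat.eq_of_mul_eq_mul_right (Finset.card_pos.2 hA.S_ne) h1

include hE'

omit [Fintype X] in
lemma Act.card_two {x y : F} (hx : x ≠ 0) (hy : y ≠ 0) (hxy : y / x ∉ W) :
    (two φ E' W x y).card = E'.card + 2 * r := by
  unfold two
  have hne : ∀ w ∈ W, w ≠ 0 := fun w hw e => hW.W0 (e ▸ hw)
  rw [Finset.card_union_of_disjoint, Finset.card_union_of_disjoint,
    hA.card_orbit hW hSW hWr x hx, hA.card_orbit hW hSW hWr y hy]
  · ring
  · rw [Finset.disjoint_left]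
    intro p hp hp'
    rw [Finset.mem_image] at hp hp'
    obtain ⟨w, hw, rfl⟩ := hp
    obtain ⟨w', hw', h⟩ := hp'
    have h1 := (hA.fib _ _ (mul_ne_zero (hne w' hw') hy) (mul_ne_zero (hne w hw) hx)).1 h
    refine hxy ?_
    have h2 := hW.Wm _ (hW.Wm _ (hSW h1) _ hw) _ (hW.inv hw')
    have h3 : w' * y / (w * x) * w * w'⁻¹ = y / x := by
      have := hne w hw
      have := hne w' hw'
      field_simp
    rwa [h3] at h2
  · rw [Finset.disjoint_left]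
    intro p hp hp'
    rw [Finset.mem_union, Finset.mem_image, Finset.mem_image] at hp'
    rcases hp' with ⟨w, hw, rfl⟩ | ⟨w, hw, rfl⟩
    · exact hA.phiE _ (mul_ne_zero (hne w hw) hx) (hE' hp)
    · exact hA.phiE _ (mul_ne_zero (hne w hw) hy) (hE' hp)

end act

/-- if `t` points of the block `B` go to points of the block `B'`, then `B` goes to `B'` -/
lemma image_perm {t k : ℕ} {𝓑 : Finset (Finset X)} (hD : IsDesign t k 1 𝓑) (g : Equiv.Perm X)
    (hg : ∀ B ∈ 𝓑, B.image g ∈ 𝓑) {B B' : Finset X} (hB : B ∈ 𝓑) (hB' : B' ∈ 𝓑)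
    (T : Finset X) (hT : T.card = t) (hTB : T ⊆ B) (h : ∀ x ∈ T, g x ∈ B') :
    ∀ y ∈ B, g y ∈ B' := by
  have h1 : B.image g = B' := by
    refine block_unique hD (hg B hB) hB' (S := T.image g) ?_ ?_ ?_
    · rw [Finset.card_image_of_injective _ g.injective, hT]
    · exact Finset.image_subset_image hTB
    · rw [Finset.image_subset_iff]; exact h
  intro y hy
  rw [← h1]
  exact Finset.mem_image_of_mem _ hy

/-- a block through two orbits of `W` is `W`-invariant -/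
lemma inv_block {t k : ℕ} {𝓑 : Finset (Finset X)} (hD : IsDesign t k 1 𝓑)
    {G : Subgroup (Equiv.Perm X)} (hG : ∀ g ∈ G, ∀ B ∈ 𝓑, B.image g ∈ 𝓑)
    {φ : F → X} {E : Finset X} {S : Finset F} {P R : F → Prop} (hA : Act G φ E S P R)
    {W : Finset F} (hW : IsGrp W) (hWP : ∀ w ∈ W, P w) {E' : Finset X} (hE' : E' ⊆ E)
    {B : Finset X} (hB : B ∈ 𝓑) {x y : F} (hx : x ≠ 0) (hy : y ≠ 0)
    (htwo : (two φ E' W x y).card = t) (hsub : two φ E' W x y ⊆ B) :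
    ∀ w ∈ W, ∀ u ∈ cone φ B, w * u ∈ cone φ B := by
  have hne : ∀ w ∈ W, w ≠ 0 := fun w hw e => hW.W0 (e ▸ hw)
  intro w hw u hu
  obtain ⟨g, hg, hgE1, hgu⟩ := hA.mul w (hne w hw) (hWP w hw)
  rw [mem_cone] at hu ⊢
  have h1 := image_perm hD g (hG g hg) hB hB (two φ E' W x y) htwo hsub (by
    intro p hp
    refine hsub ?_
    unfold two at hp ⊢
    rw [Finset.mem_union, Finset.mem_union, Finset.mem_image, Finset.mem_image] at hp
    rcases hp with hp | ⟨v, hv, rfl⟩ | ⟨v, hv, rfl⟩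
    · rw [hgE1 p (hE' hp)]
      exact Finset.mem_union_left _ hp
    · rw [hgu _ (mul_ne_zero (hne v hv) hx), ← mul_assoc]
      exact Finset.mem_union_right _ (Finset.mem_union_left _
        (Finset.mem_image.2 ⟨w * v, hW.Wm w hw v hv, rfl⟩))
    · rw [hgu _ (mul_ne_zero (hne v hv) hy), ← mul_assoc]
      exact Finset.mem_union_right _ (Finset.mem_union_right _
        (Finset.mem_image.2 ⟨w * v, hW.Wm w hw v hv, rfl⟩))) _ hu.2
  rw [hgu u hu.1] at h1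
  exact ⟨mul_ne_zero (hne w hw) hu.1, h1⟩

/-- a block through two orbits of `W` is invariant under the reflection which exchanges them -/
lemma refl_block {t k : ℕ} {𝓑 : Finset (Finset X)} (hD : IsDesign t k 1 𝓑)
    {φ : F → X} {W : Finset F} (hW : IsGrp W) {E' : Finset X}
    (g : Equiv.Perm X) (hG : ∀ B ∈ 𝓑, B.image g ∈ 𝓑)
    {B : Finset X} (hB : B ∈ 𝓑) (hgE : ∀ x ∈ E', g x ∈ B) {x y : F} (hx : x ≠ 0) (hy : y ≠ 0)
    (hgu : ∀ u, u ≠ 0 → g (φ u) = φ (x * y / u))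
    (htwo : (two φ E' W x y).card = t) (hsub : two φ E' W x y ⊆ B) :
    ∀ p ∈ B, g p ∈ B := by
  have hne : ∀ w ∈ W, w ≠ 0 := fun w hw e => hW.W0 (e ▸ hw)
  refine image_perm hD g hG hB hB (two φ E' W x y) htwo hsub ?_
  intro p hp
  unfold two at hp hsub
  rw [Finset.mem_union, Finset.mem_union, Finset.mem_image, Finset.mem_image] at hp
  rcases hp with hp | ⟨v, hv, rfl⟩ | ⟨v, hv, rfl⟩
  · exact hgE p hp
  · have hv0 := hne v hv
    rw [hgu _ (mul_ne_zero hv0 hx), show x * y / (v * x) = v⁻¹ * y by field_simp]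
    exact hsub (Finset.mem_union_right _ (Finset.mem_union_right _
      (Finset.mem_image.2 ⟨v⁻¹, hW.inv hv, rfl⟩)))
  · have hv0 := hne v hv
    rw [hgu _ (mul_ne_zero hv0 hy), show x * y / (v * y) = v⁻¹ * x by field_simp]
    exact hsub (Finset.mem_union_right _ (Finset.mem_union_left _
      (Finset.mem_image.2 ⟨v⁻¹, hW.inv hv, rfl⟩)))

/-- the three kinds of groups -/
def Kind (W : Finset F) (P R : F → Prop) : Prop :=
  (∀ c, c ≠ 0 → R c) ∨ (IsClass W P ∧ ∀ c, c ≠ 0 → ¬ P c → R c) ∨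
    (IsClass W P ∧ ∀ c, c ≠ 0 → P c → R c)

/-- the unions of fibres above the `W`-invariant blocks through `E'` -/
def fam (𝓑 : Finset (Finset X)) (φ : F → X) (W : Finset F) (E' : Finset X) : Set (Finset F) :=
  {D | ∃ B ∈ 𝓑, E' ⊆ B ∧ (∀ w ∈ W, ∀ u ∈ cone φ B, w * u ∈ cone φ B) ∧ D = cone φ B}

omit [Fintype X] in
lemma two_subset {φ : F → X} {W : Finset F} {E' B : Finset X} (hEB : E' ⊆ B)
    (hcl : ∀ w ∈ W, ∀ u ∈ cone φ B, w * u ∈ cone φ B) {x y : F} (hx : x ∈ cone φ B)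
    (hy : y ∈ cone φ B) : two φ E' W x y ⊆ B := by
  intro p hp
  unfold two at hp
  rw [Finset.mem_union, Finset.mem_union, Finset.mem_image, Finset.mem_image] at hp
  rcases hp with hp | ⟨v, hv, rfl⟩ | ⟨v, hv, rfl⟩
  · exact hEB hp
  · exact (mem_cone.1 (hcl v hv x hx)).2
  · exact (mem_cone.1 (hcl v hv y hy)).2

/-- the Steiner system on the orbits of `W` -/
theorem torus_fam {t k : ℕ} {𝓑 : Finset (Finset X)} (hD : IsDesign t k 1 𝓑)
    {G : Subgroup (Equiv.Perm X)} (hG : ∀ g ∈ G, ∀ B ∈ 𝓑, B.image g ∈ 𝓑)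
    {φ : F → X} {E : Finset X} {S : Finset F} {P R : F → Prop} (hA : Act G φ E S P R)
    {W : Finset F} (hW : IsGrp W) (hSW : S ⊆ W) {r : ℕ} (hWr : W.card = r * S.card)
    (hWP : ∀ w ∈ W, P w) {E' : Finset X} (hE'E : E' ⊆ E) (ht : t = E'.card + 2 * r)
    {n₀ : ℕ}
    (hcard : ∀ B ∈ 𝓑, E' ⊆ B → (∀ w ∈ W, ∀ u ∈ cone φ B, w * u ∈ cone φ B) →
      (B \ E).card = n₀) : Torus W (fam 𝓑 φ W E') (n₀ * S.card) := by
  have htwo : ∀ x y : F, x ≠ 0 → y ≠ 0 → y / x ∉ W → (two φ E' W x y).card = t := by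
    intro x y hx hy hxy
    rw [hA.card_two hW hSW hWr hE'E hx hy hxy, ht]
  have hmem : ∀ (x y : F), φ x ∈ two φ E' W x y ∧ φ y ∈ two φ E' W x y := by
    intro x y
    unfold two
    exact ⟨Finset.mem_union_right _ (Finset.mem_union_left _
      (Finset.mem_image.2 ⟨1, hW.W1, by rw [one_mul]⟩)), Finset.mem_union_right _
      (Finset.mem_union_right _ (Finset.mem_image.2 ⟨1, hW.W1, by rw [one_mul]⟩))⟩
  refine ⟨hW.W0, hW.W1, hW.Wm, ?_, ?_, ?_, ?_, ?_⟩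
  · rintro D ⟨B, -, -, -, rfl⟩ h
    exact (mem_cone.1 h).1 rfl
  · rintro D ⟨B, hB, hEB, hcl, rfl⟩
    rw [hA.card_cone, hcard B hB hEB hcl]
  · rintro D ⟨B, hB, hEB, hcl, rfl⟩ w hw x hx
    exact hcl w hw x hx
  · intro x y hx hy hxy
    obtain ⟨B, hB, hS⟩ := block_exists hD (htwo x y hx hy hxy)
    have hEB : E' ⊆ B := fun p hp => hS (by unfold two; exact Finset.mem_union_left _ hp)
    exact ⟨cone φ B, ⟨B, hB, hEB,
      inv_block hD hG hA hW hWP hE'E hB hx hy (htwo x y hx hy hxy) hS, rfl⟩,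
      mem_cone.2 ⟨hx, hS (hmem x y).1⟩, mem_cone.2 ⟨hy, hS (hmem x y).2⟩⟩
  · rintro D ⟨B, hB, hEB, hcl, rfl⟩ D' ⟨B', hB', hEB', hcl', rfl⟩ x y hx hy hx' hy' hxy
    have : B = B' := block_unique hD hB hB' (S := two φ E' W x y)
      (by rw [htwo x y (mem_cone.1 hx).1 (mem_cone.1 hy).1 hxy])
      (two_subset hEB hcl hx hy) (two_subset hEB' hcl' hx' hy')
    rw [this]

/-- **the abstract argument** -/
theorem abs_gen {t k : ℕ} {𝓑 : Finset (Finset X)} (hD : IsDesign t k 1 𝓑)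
    {G : Subgroup (Equiv.Perm X)} (hG : ∀ g ∈ G, ∀ B ∈ 𝓑, B.image g ∈ 𝓑)
    {φ : F → X} {E : Finset X} {S : Finset F} {P R : F → Prop} (hA : Act G φ E S P R)
    {W : Finset F} (hW : IsGrp W) (hSW : S ⊆ W) {r : ℕ} (hWr : W.card = r * S.card)
    (hWP : ∀ w ∈ W, P w) {E' : Finset X} (hE'E : E' ⊆ E) (ht : t = E'.card + 2 * r)
    (hgE : ∀ B ∈ 𝓑, E' ⊆ B → (∀ w ∈ W, ∀ u ∈ cone φ B, w * u ∈ cone φ B) →
      ∀ g : Equiv.Perm X, (∀ x ∈ E, g x ∈ E) → ∀ x ∈ E', g x ∈ B)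
    {n₀ : ℕ} (hn : 2 * r < n₀)
    (hcard : ∀ B ∈ 𝓑, E' ⊆ B → (∀ w ∈ W, ∀ u ∈ cone φ B, w * u ∈ cone φ B) →
      (B \ E).card = n₀)
    (ha : ∃ a : F, a ≠ 0 ∧ a ∉ W) (hK : Kind W P R) :
    (∃ B ∈ 𝓑, E' ⊆ B ∧ (∀ w ∈ W, ∀ u ∈ cone φ B, w * u ∈ cone φ B) ∧ ∀ x, x ∉ E → x ∈ B) ∨
      (n₀ = 4 * r ∧ Fintype.card F - 1 ≤ 16 * W.card) := by
  have hne : ∀ w ∈ W, w ≠ 0 := fun w hw e => hW.W0 (e ▸ hw)
  have hSpos : 0 < S.card := Finset.card_pos.2 hA.S_ne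
  have hWpos : 0 < W.card := Finset.card_pos.2 ⟨1, hW.W1⟩
  have htwo : ∀ x y : F, x ≠ 0 → y ≠ 0 → y / x ∉ W → (two φ E' W x y).card = t := by
    intro x y hx hy hxy
    rw [hA.card_two hW hSW hWr hE'E hx hy hxy, ht]
  set 𝓓 : Set (Finset F) := fam 𝓑 φ W E' with h𝓓
  have hT : Torus W 𝓓 (n₀ * S.card) := torus_fam hD hG hA hW hSW hWr hWP hE'E ht hcard
  -- the reflections
  have href : ∀ D ∈ 𝓓, ∀ x ∈ D, ∀ y ∈ D, y / x ∉ W → R (x * y) → ∀ z ∈ D, x * y / z ∈ D := by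
    rintro D ⟨B, hB, hEB, hcl, rfl⟩ x hx y hy hxy hRc z hz
    have hx0 := (mem_cone.1 hx).1
    have hy0 := (mem_cone.1 hy).1
    have hc : x * y ≠ 0 := mul_ne_zero hx0 hy0
    obtain ⟨g, hg, hgE1, hgu⟩ := hA.refl (x * y) hc hRc
    have hsub := two_subset hEB hcl hx hy
    have h1 := refl_block hD hW g (hG g hg) hB (hgE B hB hEB hcl g hgE1) hx0 hy0 hgu
      (htwo x y hx0 hy0 hxy) hsub _ (mem_cone.1 hz).2
    rw [hgu z (mem_cone.1 hz).1] at h1
    exact mem_cone.2 ⟨div_ne_zero hc (mem_cone.1 hz).1, h1⟩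
  have hend : (∃ D ∈ 𝓓, ∀ x : F, x ≠ 0 → x ∈ D) →
      ∃ B ∈ 𝓑, E' ⊆ B ∧ (∀ w ∈ W, ∀ u ∈ cone φ B, w * u ∈ cone φ B) ∧ ∀ x, x ∉ E → x ∈ B := by
    rintro ⟨D, ⟨B, hB, hEB, hcl, rfl⟩, hall⟩
    refine ⟨B, hB, hEB, hcl, fun x hx => ?_⟩
    obtain ⟨u, hu0, rfl⟩ := hA.surj x hx
    exact (mem_cone.1 (hall u hu0)).2
  have hbig : 2 * W.card < n₀ * S.card := by
    rw [hWr, ← mul_assoc]
    exact Nat.mul_lt_mul_of_pos_right hn hSpos
  rcases hK with hR | ⟨hP, hR⟩ | ⟨hP, hR⟩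
  · exact Or.inl (hend (full_one hT ha hbig (fun D hD x hx y hy hxy =>
      href D hD x hx y hy hxy (hR _ (mul_ne_zero (fun e => hT.D0 D hD (e ▸ hx))
        (fun e => hT.D0 D hD (e ▸ hy)))))))
  · refine Or.inl (hend (full_two hT hP hbig ?_))
    intro D hD x hx y hy hPx hPy
    have hx0 : x ≠ 0 := fun e => hT.D0 D hD (e ▸ hx)
    have hy0 : y ≠ 0 := fun e => hT.D0 D hD (e ▸ hy)
    refine href D hD x hx y hy ?_ (hR _ (mul_ne_zero hx0 hy0) (hP.mul'' x y hx0 hy0 hPx hPy))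
    intro e
    have e2 := hP.mul _ _ hx0 (div_ne_zero hy0 hx0) hPx (hP.W _ e)
    rw [mul_div_cancel₀ _ hx0] at e2
    exact hPy e2
  · -- `r` divides `n₀`
    obtain ⟨D, hD, -, -⟩ := hT.ex 1 ha.choose one_ne_zero ha.choose_spec.1
      (by rw [div_one]; exact ha.choose_spec.2)
    obtain ⟨κ, hκ⟩ := W_dvd W D hT.W0 hT.W1 hT.Wm (hT.D0 D hD) (hT.DW D hD)
    rw [hT.Dc D hD, hWr, mul_assoc, mul_comm S.card κ, ← mul_assoc] at hκ
    have hκ' : n₀ = r * κ := Nat.eq_of_mul_eq_mul_right hSpos hκ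
    have h3 : 3 ≤ κ := by
      by_contra hcon
      have : κ ≤ 2 := by omega
      have := Nat.mul_le_mul_left r this
      omega
    have hT' : Torus W 𝓓 (κ * W.card) := by
      have : κ * W.card = n₀ * S.card := by rw [hWr, hκ']; ring
      rw [this]; exact hT
    rcases torus_three hWpos hT' hP h3 (fun D hD x hx y hy hxy hPP => by
      have hx0 : x ≠ 0 := fun e => hT.D0 D hD (e ▸ hx)
      have hy0 : y ≠ 0 := fun e => hT.D0 D hD (e ▸ hy)
      refine href D hD x hx y hy hxy (hR _ (mul_ne_zero hx0 hy0) ?_)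
      by_cases h : P x
      · exact hP.mul _ _ hx0 hy0 h (hPP.1 h)
      · exact hP.mul' _ _ hx0 hy0 h (fun e => h (hPP.2 e))) with h | ⟨h4, h5⟩
    · exact Or.inl (hend h)
    · right
      refine ⟨?_, h5⟩
      rw [hκ', h4, mul_comm]

/-- the abstract argument, for all or none of the fixed points -/
theorem abs_main {t k : ℕ} {𝓑 : Finset (Finset X)} (hD : IsDesign t k 1 𝓑)
    {G : Subgroup (Equiv.Perm X)} (hG : ∀ g ∈ G, ∀ B ∈ 𝓑, B.image g ∈ 𝓑)
    {φ : F → X} {E : Finset X} {S : Finset F} {P R : F → Prop} (hA : Act G φ E S P R)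
    {W : Finset F} (hW : IsGrp W) (hSW : S ⊆ W) {r : ℕ} (hWr : W.card = r * S.card)
    (hWP : ∀ w ∈ W, P w) {E' : Finset X} (hE' : E' = E ∨ E' = ∅) (ht : t = E'.card + 2 * r)
    {n₀ : ℕ} (hn : 2 * r < n₀)
    (hcard : ∀ B ∈ 𝓑, E' ⊆ B → (∀ w ∈ W, ∀ u ∈ cone φ B, w * u ∈ cone φ B) →
      (B \ E).card = n₀)
    (ha : ∃ a : F, a ≠ 0 ∧ a ∉ W) (hK : Kind W P R) :
    (∃ B ∈ 𝓑, E' ⊆ B ∧ ∀ x, x ∉ E → x ∈ B) ∨
      (n₀ = 4 * r ∧ Fintype.card F - 1 ≤ 16 * W.card) := by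
  have hE'E : E' ⊆ E := by
    rcases hE' with h | h
    · rw [h]
    · rw [h]; exact Finset.empty_subset _
  rcases abs_gen hD hG hA hW hSW hWr hWP hE'E ht (by
    intro B _ hEB _ g hg x hx
    rcases hE' with h | h
    · rw [h] at hx hEB; exact hEB (hg x hx)
    · rw [h] at hx; exact absurd hx (Finset.notMem_empty _)) hn hcard ha hK with
    ⟨B, hB, h1, -, h2⟩ | h
  · exact Or.inl ⟨B, hB, h1, h2⟩
  · exact Or.inr h

end Pool.Agent.N86.S7
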