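import Pool.Agent.N86.S7.One

/-!
# Steiner systems `S(5, k, q + 1)` on the projective line: the block size is odd
-/

set_option autoImplicit false

namespace Pool.Agent.N86.S7

open Finset Matrix Pool.Agent.N86.S6 Pool.Agent.N86.S4 Pool.Agent.N86.S46

universe u

section designs
variable {K : Type u} [Field K] [DecidableEq K] [Fintype K] {k : ℕ}
  {𝓑 : Finset (Finset (OnePoint K))}

section one
variable (hD : IsDesign 5 k 1 𝓑) (G : Subgroup (Equiv.Perm (OnePoint K)))
  (hG : ∀ g ∈ G, ∀ B ∈ 𝓑, B.image g ∈ 𝓑)
  (hν : ∃ g ∈ G, g OnePoint.infty = OnePoint.infty ∧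
      ∀ z : K, g (z : OnePoint K) = ((-z : K) : OnePoint K))
  (hσ : ∀ x : K, x ≠ 0 → ∃ g ∈ G, g OnePoint.infty = ((0 : K) : OnePoint K) ∧
      g ((0 : K) : OnePoint K) = OnePoint.infty ∧
      ∀ z : K, z ≠ 0 → g (z : OnePoint K) = ((x * x / z : K) : OnePoint K))
  (h2 : (2 : K) ≠ 0)

include hD hG hν h2 in
lemma five_inv' {B : Finset (OnePoint K)} (hB : B ∈ 𝓑) {x y : K} (hx : x ≠ 0) (hy : y ≠ 0)
    (hxy : x ≠ y) (hxy' : x ≠ -y) (hsub : fiveA x y ⊆ B) : ∀ z ∈ core B, -z ∈ core B := by
  obtain ⟨ν, hνG, hνi, hνc⟩ := hν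
  intro z hz
  have h1 := S7.image_perm hD ν (hG ν hνG) hB hB (fiveA x y)
    (fiveA_card h2 hx hy hxy hxy') hsub (by
      intro w hw
      simp only [fiveA, Finset.mem_insert, Finset.mem_singleton] at hw
      refine hsub ?_
      rcases hw with rfl | rfl | rfl | rfl | rfl
      · rw [hνc]; simp [fiveA]
      · rw [hνc]; simp [fiveA]
      · rw [hνc]; simp [fiveA]
      · rw [hνc]; simp [fiveA]
      · rw [hνc]; simp [fiveA]) z (mem_core.1 hz).2
  rw [hνc] at h1
  exact mem_core.2 ⟨neg_ne_zero.2 (mem_core.1 hz).1, h1⟩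

include hD hG hν hσ h2 in
/-- the block size is odd -/
theorem five_even (hk : 5 < k) (hkev : Even k) (hkq : k < Fintype.card K + 1) : False := by
  have hsubset : ∀ B : Finset (OnePoint K), ((0 : K) : OnePoint K) ∈ B →
      (∀ z ∈ core B, -z ∈ core B) → ∀ x ∈ core B, ∀ y ∈ core B, fiveA x y ⊆ B := by
    intro B h0 hneg x hx y hy w hw
    simp only [fiveA, Finset.mem_insert, Finset.mem_singleton] at hw
    rcases hw with rfl | rfl | rfl | rfl | rfl
    · exact h0
    · exact (mem_core.1 hx).2
    · exact (mem_core.1 (hneg x hx)).2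
    · exact (mem_core.1 hy).2
    · exact (mem_core.1 (hneg y hy)).2
  have h11 : (1 : K) ≠ -1 := fun e => h2 (by linear_combination e)
  have hWne : ∀ x y : K, x ≠ 0 → y ≠ 0 → y / x ∉ ({1, -1} : Finset K) → x ≠ y ∧ x ≠ -y := by
    intro x y hx hy h
    simp only [Finset.mem_insert, Finset.mem_singleton, not_or] at h
    refine ⟨fun e => h.1 (by rw [e, div_self hy]), fun e => h.2 ?_⟩
    rw [div_eq_iff hx, e]; ring
  have hinf : ∀ B ∈ 𝓑, ((0 : K) : OnePoint K) ∈ B → (∀ z ∈ core B, -z ∈ core B) →
      OnePoint.infty ∈ B := by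
    intro B hB h0 hneg
    by_contra hi
    have e1 := card_core' hi h0
    rw [hD.1 B hB] at e1
    have e2 := even_of_neg h2 (core B) (zero_notMem_core B) hneg
    rw [← e1, Nat.even_add_one] at hkev
    exact hkev e2
  let 𝓓 : Set (Finset K) := {D | ∃ B ∈ 𝓑, OnePoint.infty ∈ B ∧ ((0 : K) : OnePoint K) ∈ B ∧
    (∀ z ∈ core B, -z ∈ core B) ∧ D = core B}
  have hT : Torus ({1, -1} : Finset K) 𝓓 (k - 2) := by
    refine ⟨?_, by simp, ?_, ?_, ?_, ?_, ?_, ?_⟩
    · simp
    · intro x hx y hy
      simp only [Finset.mem_insert, Finset.mem_singleton] at hx hy ⊢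
      rcases hx with rfl | rfl <;> rcases hy with rfl | rfl <;> simp
    · rintro D ⟨B, -, -, -, -, rfl⟩
      exact zero_notMem_core B
    · rintro D ⟨B, hB, hi, h0, -, rfl⟩
      have := card_core hi h0
      rw [hD.1 B hB] at this
      omega
    · rintro D ⟨B, hB, hi, h0, hneg, rfl⟩ w hw x hx
      simp only [Finset.mem_insert, Finset.mem_singleton] at hw
      rcases hw with rfl | rfl
      · rwa [one_mul]
      · rw [neg_one_mul]; exact hneg x hx
    · intro x y hx hy hxy
      obtain ⟨h3, h4⟩ := hWne x y hx hy hxy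
      obtain ⟨B, hB, hS⟩ := block_exists hD (fiveA_card h2 hx hy h3 h4)
      have h0 : ((0 : K) : OnePoint K) ∈ B := hS (by simp [fiveA])
      have hneg := five_inv' hD G hG hν h2 hB hx hy h3 h4 hS
      refine ⟨core B, ⟨B, hB, hinf B hB h0 hneg, h0, hneg, rfl⟩, ?_, ?_⟩
      · exact mem_core.2 ⟨hx, hS (by simp [fiveA])⟩
      · exact mem_core.2 ⟨hy, hS (by simp [fiveA])⟩
    · rintro D ⟨B, hB, hi, h0, hneg, rfl⟩ D' ⟨B', hB', hi', h0', hneg', rfl⟩ x y hx hy hx' hy' hxy
      obtain ⟨h3, h4⟩ := hWne x y (mem_core.1 hx).1 (mem_core.1 hy).1 hxy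
      have : B = B' := block_unique hD hB hB' (S := fiveA x y)
        (by rw [fiveA_card h2 (mem_core.1 hx).1 (mem_core.1 hy).1 h3 h4])
        (hsubset B h0 hneg x hx y hy) (hsubset B' h0' hneg' x hx' y hy')
      rw [this]
  obtain ⟨D, ⟨B, hB, hi, h0, -, rfl⟩, hall⟩ := full_mul hT (by
    obtain ⟨a, -, ha⟩ : ∃ a ∈ (univ : Finset K), a ∉ ({0, 1, -1} : Finset K) := by
      refine Finset.exists_mem_notMem_of_card_lt_card (lt_of_le_of_lt Finset.card_le_three ?_)
      rw [Finset.card_univ]
      omega
    rw [Finset.mem_insert, not_or] at ha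
    exact ⟨a, ha⟩) (by
    rintro D ⟨B, hB, hi, h0, hneg, rfl⟩ h1
    refine closure_sq (core B) (zero_notMem_core B) h1 ?_
    intro x hx z hz
    have hx0 := (mem_core.1 hx).1
    have hz0 := (mem_core.1 hz).1
    by_cases hzx : z = x
    · rw [hzx, mul_div_cancel_right₀ _ hx0]; exact hx
    by_cases hzx' : z = -x
    · rw [hzx', show x * x / -x = -x by field_simp]; exact hneg x hx
    -- the reflection `σ : w ↦ x ^ 2 / w`
    obtain ⟨σ, hσG, hσi, hσ0, hσc⟩ := hσ x hx0
    have hσσ : ∀ p, σ (σ p) = p := by
      intro p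
      induction p using OnePoint.rec with
      | infty => rw [hσi, hσ0]
      | coe w =>
        by_cases hw : w = 0
        · rw [hw, hσ0, hσi]
        · rw [hσc w hw, hσc _ (div_ne_zero (mul_ne_zero hx0 hx0) hw)]
          congr 1
          field_simp
    have hw0 : x * x / z ≠ 0 := div_ne_zero (mul_ne_zero hx0 hx0) hz0
    have hwz : x * x / z ≠ z := by
      intro e
      rw [div_eq_iff hz0] at e
      have : (z - x) * (z + x) = 0 := by linear_combination -e
      rcases mul_eq_zero.1 this with e1 | e1
      · exact hzx (sub_eq_zero.1 e1)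
      · exact hzx' (by linear_combination e1)
    have hwx : x * x / z ≠ x := by
      intro e
      rw [div_eq_iff hz0] at e
      exact hzx (mul_left_cancel₀ hx0 e.symm)
    let T : Finset (OnePoint K) := {OnePoint.infty, ((0 : K) : OnePoint K), (x : OnePoint K),
      (z : OnePoint K), ((x * x / z : K) : OnePoint K)}
    have hTc : T.card = 5 := by
      rw [Finset.card_insert_of_notMem, Finset.card_insert_of_notMem,
        Finset.card_insert_of_notMem, Finset.card_insert_of_notMem, Finset.card_singleton]
      · rw [Finset.mem_singleton, OnePoint.coe_eq_coe]; exact hwz.symm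
      · simp only [Finset.mem_insert, Finset.mem_singleton, OnePoint.coe_eq_coe, not_or]
        exact ⟨fun e => hzx e.symm, hwx.symm⟩
      · simp only [Finset.mem_insert, Finset.mem_singleton, OnePoint.coe_eq_coe, not_or]
        exact ⟨hx0.symm, hz0.symm, hw0.symm⟩
      · simp
    obtain ⟨B', hB', hTB⟩ := block_exists hD hTc
    have hTm : ∀ w ∈ T, w ∈ B' := hTB
    have hinv : ∀ p ∈ B', σ p ∈ B' := by
      refine S7.image_perm hD σ (hG σ hσG) hB' hB' T hTc hTB ?_
      intro w hw
      simp only [T, Finset.mem_insert, Finset.mem_singleton] at hw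
      refine hTm _ ?_
      rcases hw with rfl | rfl | rfl | rfl | rfl
      · rw [hσi]; simp [T]
      · rw [hσ0]; simp [T]
      · rw [hσc x hx0, mul_div_cancel_right₀ _ hx0]; simp [T]
      · rw [hσc z hz0]; simp [T]
      · rw [hσc _ hw0, show x * x / (x * x / z) = z by field_simp]; simp [T]
    -- the fixed points
    have hnx : ((-x : K) : OnePoint K) ∈ B' := by
      by_contra hnx
      have e1 := odd_fixed B' σ hinv (fun p _ => hσσ p)
      rw [hD.1 B' hB'] at e1
      have e2 : B'.filter (fun p => σ p = p) = {(x : OnePoint K)} := by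
        ext p
        rw [Finset.mem_filter, Finset.mem_singleton]
        constructor
        · rintro ⟨hp, hpp⟩
          induction p using OnePoint.rec with
          | infty => rw [hσi] at hpp; exact absurd hpp (OnePoint.coe_ne_infty _)
          | coe w =>
            by_cases hw : w = 0
            · rw [hw, hσ0] at hpp; exact absurd hpp (OnePoint.infty_ne_coe _)
            · rw [hσc w hw, OnePoint.coe_eq_coe, div_eq_iff hw] at hpp
              have : (w - x) * (w + x) = 0 := by linear_combination -hpp
              rcases mul_eq_zero.1 this with e3 | e3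
              · rw [sub_eq_zero.1 e3]
              · exfalso
                have e4 : w = -x := by linear_combination e3
                rw [e4] at hp
                exact hnx hp
        · rintro rfl
          exact ⟨hTm _ (by simp [T]), by rw [hσc x hx0, mul_div_cancel_right₀ _ hx0]⟩
      rw [e2, Finset.card_singleton] at e1
      exact (Nat.not_odd_iff_even.2 hkev) (e1.2 odd_one)
    -- the two blocks are equal
    let T' : Finset (OnePoint K) := {OnePoint.infty, ((0 : K) : OnePoint K), (x : OnePoint K),
      ((-x : K) : OnePoint K), (z : OnePoint K)}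
    have hTc' : T'.card = 5 := by
      rw [Finset.card_insert_of_notMem, Finset.card_insert_of_notMem,
        Finset.card_insert_of_notMem, Finset.card_insert_of_notMem, Finset.card_singleton]
      · rw [Finset.mem_singleton, OnePoint.coe_eq_coe]; exact fun e => hzx' e.symm
      · simp only [Finset.mem_insert, Finset.mem_singleton, OnePoint.coe_eq_coe, not_or]
        exact ⟨fun e => (mul_ne_zero h2 hx0) (by linear_combination e), fun e => hzx e.symm⟩
      · simp only [Finset.mem_insert, Finset.mem_singleton, OnePoint.coe_eq_coe, not_or]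
        exact ⟨hx0.symm, (neg_ne_zero.2 hx0).symm, hz0.symm⟩
      · simp
    have hBB : B' = B := by
      refine block_unique hD hB' hB (S := T') (by rw [hTc']) ?_ ?_
      · intro w hw
        simp only [T', Finset.mem_insert, Finset.mem_singleton] at hw
        rcases hw with rfl | rfl | rfl | rfl | rfl
        · exact hTm _ (by simp [T])
        · exact hTm _ (by simp [T])
        · exact hTm _ (by simp [T])
        · exact hnx
        · exact hTm _ (by simp [T])
      · intro w hw
        simp only [T', Finset.mem_insert, Finset.mem_singleton] at hw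
        rcases hw with rfl | rfl | rfl | rfl | rfl
        · exact hi
        · exact h0
        · exact (mem_core.1 hx).2
        · exact (mem_core.1 (hneg x hx)).2
        · exact (mem_core.1 hz).2
    rw [← hBB]
    exact mem_core.2 ⟨hw0, hTm _ (by simp [T])⟩)
  have h1 : B = Finset.univ := by
    ext x
    refine ⟨fun _ => Finset.mem_univ _, fun _ => ?_⟩
    induction x using OnePoint.rec with
    | infty => exact hi
    | coe x =>
      by_cases hx : x = 0
      · rw [hx]; exact h0
      · exact (mem_core.1 (hall x hx)).2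
  have h3 := hD.1 B hB
  rw [h1, Finset.card_univ, show Fintype.card (OnePoint K) = Fintype.card K + 1 from
    Fintype.card_option] at h3
  omega

end one

end designs

end Pool.Agent.N86.S7
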