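import Pool.Agent.N86.S7.Nonsplit

/-!
# Steiner systems of any strength on the projective line
-/

set_option autoImplicit false

namespace Pool.Agent.N86.S7

open Finset Matrix Pool.Agent.N86.S6 Pool.Agent.N86.S4 Pool.Agent.N86.S46

section abs
variable {X F : Type*} [DecidableEq X] [Fintype X] [Field F] [DecidableEq F] [Fintype F]

/-- there are unions of any number of cosets -/
lemma exists_closed {W : Finset F} (hW : IsGrp W) (m : ℕ) (hm : m * W.card ≤ Fintype.card F - 1) :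
    ∃ A : Finset F, (0 : F) ∉ A ∧ (∀ w ∈ W, ∀ u ∈ A, w * u ∈ A) ∧ A.card = m * W.card := by
  have hne : ∀ w ∈ W, w ≠ 0 := fun w hw e => hW.W0 (e ▸ hw)
  have hpos : 0 < W.card := Finset.card_pos.2 ⟨1, hW.W1⟩
  induction m with
  | zero =>
    refine ⟨∅, Finset.notMem_empty _, fun w _ u hu => absurd hu (Finset.notMem_empty _), ?_⟩
    rw [Finset.card_empty, zero_mul]
  | succ m ih =>
    rw [Nat.succ_mul] at hm
    obtain ⟨A, h0, hcl, hc⟩ := ih (by omega)
    obtain ⟨a, ha0, ha⟩ := exists_notMem A (by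
      rw [hc]
      have := Fintype.one_lt_card (α := F)
      omega)
    refine ⟨A ∪ W.image (fun w => w * a), ?_, ?_, ?_⟩
    · rw [Finset.mem_union, Finset.mem_image]
      rintro (h | ⟨w, hw, h⟩)
      · exact h0 h
      · exact mul_ne_zero (hne w hw) ha0 h
    · intro w hw u hu
      rw [Finset.mem_union, Finset.mem_image] at hu ⊢
      rcases hu with hu | ⟨v, hv, rfl⟩
      · exact Or.inl (hcl w hw u hu)
      · exact Or.inr ⟨w * v, hW.Wm w hw v hv, by ring⟩
    · rw [Finset.card_union_of_disjoint, hc, Finset.card_image_of_injective _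
        (mul_left_injective₀ ha0), Nat.succ_mul]
      rw [Finset.disjoint_left]
      intro u hu hu'
      rw [Finset.mem_image] at hu'
      obtain ⟨w, hw, rfl⟩ := hu'
      refine ha ?_
      have := hcl _ (hW.inv hw) _ hu
      rwa [inv_mul_cancel_left₀ (hne w hw)] at this

/-- the invariant blocks -/
theorem orbits_dvd {t k : ℕ} {𝓑 : Finset (Finset X)} (hD : IsDesign t k 1 𝓑)
    {G : Subgroup (Equiv.Perm X)} (hG : ∀ g ∈ G, ∀ B ∈ 𝓑, B.image g ∈ 𝓑)
    {φ : F → X} {E : Finset X} {S : Finset F} {P R : F → Prop} (hA : Act G φ E S P R)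
    {W : Finset F} (hW : IsGrp W) (hSW : S ⊆ W) {r : ℕ} (hWr : W.card = r * S.card)
    (hWP : ∀ w ∈ W, P w) (m : ℕ) (ht : t = E.card + m * r)
    (hm : m * W.card ≤ Fintype.card F - 1) : ∃ B ∈ 𝓑, E ⊆ B ∧ r ∣ (B \ E).card := by
  have hne : ∀ w ∈ W, w ≠ 0 := fun w hw e => hW.W0 (e ▸ hw)
  have hSpos : 0 < S.card := Finset.card_pos.2 hA.S_ne
  obtain ⟨A, h0, hcl, hc⟩ := exists_closed hW m hm
  have hAne : ∀ u ∈ A, u ≠ 0 := fun u hu e => h0 (e ▸ hu)
  have hTc : (E ∪ A.image φ).card = t := by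
    rw [Finset.card_union_of_disjoint, ht]
    · have h1 := hA.card_below A h0 (by
        intro u hu v hv h
        have h2 := (hA.fib v u hv (hAne u hu)).1 h
        have h3 := hcl _ (hSW h2) u hu
        rwa [div_mul_cancel₀ _ (hAne u hu)] at h3)
      rw [hc, hWr, ← mul_assoc] at h1
      rw [Nat.eq_of_mul_eq_mul_right hSpos h1]
    · rw [Finset.disjoint_left]
      intro x hx hx'
      rw [Finset.mem_image] at hx'
      obtain ⟨u, hu, rfl⟩ := hx'
      exact hA.phiE u (hAne u hu) hx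
  obtain ⟨B, hB, hS⟩ := block_exists hD hTc
  refine ⟨B, hB, fun x hx => hS (Finset.mem_union_left _ hx), ?_⟩
  have hinv : ∀ w ∈ W, ∀ u ∈ cone φ B, w * u ∈ cone φ B := by
    intro w hw u hu
    obtain ⟨g, hg, hgE1, hgu⟩ := hA.mul w (hne w hw) (hWP w hw)
    rw [mem_cone] at hu ⊢
    have h1 := image_perm hD g (hG g hg) hB hB _ hTc hS (by
      intro p hp
      refine hS ?_
      rw [Finset.mem_union, Finset.mem_image] at hp ⊢
      rcases hp with hp | ⟨v, hv, rfl⟩
      · exact Or.inl (by rw [hgE1 p hp]; exact hp)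
      · rw [hgu v (hAne v hv)]
        exact Or.inr ⟨w * v, hcl w hw v hv, rfl⟩) _ hu.2
    rw [hgu u hu.1] at h1
    exact ⟨mul_ne_zero (hne w hw) hu.1, h1⟩
  have h1 := W_dvd W (cone φ B) hW.W0 hW.W1 hW.Wm (fun e => (mem_cone.1 e).1 rfl) hinv
  rw [hA.card_cone, hWr] at h1
  exact Nat.dvd_of_mul_dvd_mul_right hSpos h1

end abs

section line

universe u

variable {K : Type u} [Field K] [DecidableEq K] [Fintype K] {k : ℕ}
  {𝓑 : Finset (Finset (OnePoint K))}

/-- an element of order `r` with two fixed points -/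
theorem split_dvd {t r : ℕ} (hr : 0 < r) (hD : IsDesign t k 1 𝓑)
    (G : Subgroup (Equiv.Perm (OnePoint K))) (hG : ∀ g ∈ G, ∀ B ∈ 𝓑, B.image g ∈ 𝓑)
    {Pd : K → Prop} (hGc : Contains G Pd) (hd : r ∣ Fintype.card K - 1)
    (hWP : ∀ w ∈ rou K r, Pd w) (ht : 2 ≤ t) (htq : t < Fintype.card K + 1)
    (hrt : r ∣ t - 2) : r ∣ k - 2 := by
  have hW := grp_rou (F := K) (n := r) hr
  have hWc := card_rou (F := K) (n := r) hr hd
  obtain ⟨m, hm⟩ := hrt
  obtain ⟨B, hB, hE, h⟩ := orbits_dvd hD hG (act_split G Pd hGc) hW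
    (by rw [Finset.singleton_subset_iff]; exact hW.W1) (r := r)
    (by rw [hWc, Finset.card_singleton, mul_one]) hWP m
    (by rw [card_EE, mul_comm m, ← hm]; omega) (by rw [hWc, mul_comm m, ← hm]; omega)
  rwa [Finset.card_sdiff_of_subset hE, hD.1 B hB, card_EE] at h

/-- the data of the nonsplit torus -/
lemma nonsplit_data {r : ℕ} (hr : 0 < r) {a b : K} {L : Type u} [Field L] [Fintype L]
    [DecidableEq L] (Q : Quad2 K L a b) {Pd : K → Prop} (hK : KindD Pd)
    (hd : r ∣ Fintype.card K + 1)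
    (hdsq : (∀ c : K, c ≠ 0 → Pd c) ∨
      r ∣ (Fintype.card K + 1) / Nat.gcd 2 (Fintype.card K - 1)) :
    IsGrp (rou L ((Fintype.card K - 1) * r)) ∧
      (rou L ((Fintype.card K - 1) * r)).card = (Fintype.card K - 1) * r ∧
      Q.SK ⊆ rou L ((Fintype.card K - 1) * r) ∧
      (∀ w ∈ rou L ((Fintype.card K - 1) * r), Pd (Q.norm w)) ∧
      Fintype.card L - 1 = (Fintype.card K - 1) * (Fintype.card K + 1) := by
  have hq1 : 1 < Fintype.card K := Fintype.one_lt_card
  have hcL := Q.card_L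
  have hN : Fintype.card L - 1 = (Fintype.card K - 1) * (Fintype.card K + 1) := by
    rw [hcL]
    obtain ⟨m, hm⟩ : ∃ m, Fintype.card K = m + 1 := ⟨Fintype.card K - 1, by omega⟩
    rw [hm, Nat.add_sub_cancel]
    have : (m + 1) ^ 2 = m * (m + 1 + 1) + 1 := by ring
    omega
  have hpos : 0 < (Fintype.card K - 1) * r := Nat.mul_pos (by omega) (by omega)
  have hW := grp_rou (F := L) (n := (Fintype.card K - 1) * r) hpos
  have hWc := card_rou (F := L) (n := (Fintype.card K - 1) * r) hpos (by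
    rw [hN]; exact Nat.mul_dvd_mul_left _ hd)
  refine ⟨hW, hWc, ?_, ?_, hN⟩
  · intro u hu
    rw [Q.mem_SK] at hu
    obtain ⟨c, hc, rfl⟩ := hu
    rw [mem_rou, ← map_pow, pow_mul, FiniteField.pow_card_sub_one_eq_one c hc, one_pow, map_one]
  · intro w hw
    have hw0 : w ≠ 0 := fun e => hW.W0 (e ▸ hw)
    rcases hdsq with h | h
    · exact h _ (Q.norm_ne hw0)
    · have hsq : IsSquare w := by
        refine rou_square hpos ?_ w hw
        rw [hN]
        rcases Nat.even_or_odd (Fintype.card K) with ⟨m, hm⟩ | ⟨m, hm⟩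
        · have e0 : ∀ n : ℕ, n % 2 = 1 → Nat.gcd 2 n = 1 := fun n hn => by
            rw [← Nat.coprime_iff_gcd_eq_one, Nat.coprime_two_left, Nat.odd_iff]
            exact hn
          have e1 : Nat.gcd 2 (Fintype.card K - 1) = 1 := e0 _ (by omega)
          have e2 : Nat.gcd 2 ((Fintype.card K - 1) * (Fintype.card K + 1)) = 1 := by
            refine e0 _ ?_
            rw [Nat.mul_mod, show (Fintype.card K - 1) % 2 = 1 by omega,
              show (Fintype.card K + 1) % 2 = 1 by omega]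
          rw [e1, Nat.div_one] at h
          rw [e2, Nat.div_one]
          exact Nat.mul_dvd_mul_left _ h
        · have e1 : Nat.gcd 2 (Fintype.card K - 1) = 2 := Nat.gcd_eq_left (by omega)
          have e2 : Nat.gcd 2 ((Fintype.card K - 1) * (Fintype.card K + 1)) = 2 :=
            Nat.gcd_eq_left (Dvd.dvd.mul_left (by omega) _)
          rw [e1] at h
          rw [e2, Nat.mul_div_assoc _ (by omega)]
          exact Nat.mul_dvd_mul_left _ h
      obtain ⟨v, hv⟩ := hsq
      cases hK with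
      | all h => exact h _ (Q.norm_ne hw0)
      | sq h hp hns h2 =>
        rw [h, hv, Q.norm_mul]
        exact ⟨_, rfl⟩

/-- an element of order `r` without fixed points -/
theorem nonsplit_dvd {t r : ℕ} (hr : 0 < r) (hD : IsDesign t k 1 𝓑)
    (G : Subgroup (Equiv.Perm (OnePoint K))) (hG : ∀ g ∈ G, ∀ B ∈ 𝓑, B.image g ∈ 𝓑)
    {Pd : K → Prop} (hGc : Contains G Pd) (hK : KindD Pd) (hd : r ∣ Fintype.card K + 1)
    (hdsq : (∀ c : K, c ≠ 0 → Pd c) ∨
      r ∣ (Fintype.card K + 1) / Nat.gcd 2 (Fintype.card K - 1))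
    (htq : t < Fintype.card K + 1) (hrt : r ∣ t) : r ∣ k := by
  classical
  obtain ⟨a, b, L, hL, hLf, Q, -⟩ := exists_ext (K := K)
  obtain ⟨hW, hWc, hSW, hWP, hN⟩ := nonsplit_data hr Q hK hd hdsq
  obtain ⟨m, hm⟩ := hrt
  obtain ⟨B, hB, -, h⟩ := orbits_dvd hD hG (Q.act G Pd hGc) hW hSW (r := r)
    (by rw [hWc, Q.card_SK, mul_comm]) hWP m
    (by rw [Finset.card_empty, zero_add, mul_comm m, ← hm]) (by
      rw [hWc, hN, ← mul_assoc, mul_comm m, mul_assoc, mul_comm m, ← hm]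
      exact Nat.mul_le_mul_left _ htq.le)
  rwa [Finset.sdiff_empty, hD.1 B hB] at h

/-- **Steiner systems of any strength on the projective line** -/
theorem general {t : ℕ} (hD : IsDesign t k 1 𝓑)
    (G : Subgroup (Equiv.Perm (OnePoint K))) (hG : ∀ g ∈ G, ∀ B ∈ 𝓑, B.image g ∈ 𝓑)
    (hSL : ∀ A : SpecialLinearGroup (Fin 2) K, slPerm A ∈ G) (ht : 4 ≤ t) (hk : t < k)
    (hkq : k < Fintype.card K + 1) (d r : ℕ)
    (hd : d = Nat.gcd 2 (Fintype.card K - 1) ∨ (d = 1 ∧ ∀ A : GL (Fin 2) K, glPerm A ∈ G)) :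
    (r ∣ (Fintype.card K + 1) / d → r ∣ t → r ∣ k ∧ t ≠ 2 * r) ∧
      (r ∣ (Fintype.card K - 1) / d → r ∣ t - 2 → r ∣ k - 2 ∧ t ≠ 2 * r + 2) ∧
      (r ∣ (Fintype.card K - 1) / d → t = 2 * r → 6 ≤ t → k = t + 2) := by
  have hSL' : ∀ A : SpecialLinearGroup (Fin 2) K, ∀ B ∈ 𝓑, B.image (slPerm A) ∈ 𝓑 :=
    fun A B hB => hG _ (hSL A) B hB
  -- the predicate
  obtain ⟨Pd, hGc, hK, hsq⟩ : ∃ Pd : K → Prop, Contains G Pd ∧ KindD Pd ∧
      ((∀ c : K, c ≠ 0 → Pd c) ∨ (d = Nat.gcd 2 (Fintype.card K - 1) ∧ ∀ c : K, Pd c ↔ IsSquare c))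
      := by
    rcases hd with hd | ⟨hd, hGL⟩
    · by_cases hF : ringChar K = 2
      · exact ⟨fun x => IsSquare x, contains_SL G hSL,
          KindD.all (fun c _ => FiniteField.isSquare_of_char_two hF c),
          Or.inr ⟨hd, fun c => Iff.rfl⟩⟩
      · refine ⟨fun x => IsSquare x, contains_SL G hSL, KindD.sq (fun c => Iff.rfl) ?_
          (FiniteField.exists_nonsquare hF) (Ring.two_ne_zero hF), Or.inr ⟨hd, fun c => Iff.rfl⟩⟩
        intro a b ha hb
        have e1 : quadraticChar K a = -1 := quadraticChar_neg_one_iff_not_isSquare.2 ha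
        have e2 : quadraticChar K b = -1 := quadraticChar_neg_one_iff_not_isSquare.2 hb
        have ha0 : a ≠ 0 := fun e => ha (by rw [e]; exact ⟨0, by ring⟩)
        have hb0 : b ≠ 0 := fun e => hb (by rw [e]; exact ⟨0, by ring⟩)
        refine (quadraticChar_one_iff_isSquare (mul_ne_zero ha0 hb0)).1 ?_
        rw [map_mul, e1, e2]
        norm_num
    · exact ⟨fun _ => True, fun A _ => hGL A, KindD.all (fun _ _ => trivial),
        Or.inl (fun _ _ => trivial)⟩
  have hdd : ∀ n, (n = Fintype.card K + 1 ∨ n = Fintype.card K - 1) → r ∣ n / d → r ∣ n := by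
    intro n hn h
    have h1 : d ∣ n := by
      rcases hd with hd | ⟨hd, -⟩
      · rw [hd]
        have h2 := Nat.gcd_dvd_right 2 (Fintype.card K - 1)
        rcases hn with rfl | rfl
        · have h3 := Nat.gcd_dvd_left 2 (Fintype.card K - 1)
          have h4 : Fintype.card K + 1 = (Fintype.card K - 1) + 2 := by
            have := Fintype.one_lt_card (α := K)
            omega
          rw [h4]
          exact Nat.dvd_add h2 h3
        · exact h2
      · rw [hd]; exact one_dvd _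
    obtain ⟨m, hm⟩ := h1
    have hd0 : 0 < d := by
      rcases hd with hd | ⟨hd, -⟩
      · rw [hd]; exact Nat.gcd_pos_of_pos_left _ (by norm_num)
      · omega
    rw [hm, Nat.mul_div_cancel_left _ hd0] at h
    rw [hm]
    exact Dvd.dvd.mul_left h d
  have hWPs : r ∣ (Fintype.card K - 1) / d → 0 < r → ∀ w ∈ rou K r, Pd w := by
    intro h hr w hw
    have hw0 : w ≠ 0 := fun e => (grp_rou (F := K) hr).W0 (e ▸ hw)
    rcases hsq with h1 | ⟨h1, h2⟩
    · exact h1 w hw0
    · rw [h2]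
      exact rou_square hr (by rw [← h1]; exact h) w hw
  refine ⟨fun h1 h2 => ?_, fun h1 h2 => ?_, fun h1 h2 h3 => ?_⟩
  · have hr : 0 < r := Nat.pos_of_dvd_of_pos h2 (by omega)
    have hdsq : (∀ c : K, c ≠ 0 → Pd c) ∨
        r ∣ (Fintype.card K + 1) / Nat.gcd 2 (Fintype.card K - 1) := by
      rcases hsq with h3 | ⟨h3, -⟩
      · exact Or.inl h3
      · right; rw [← h3]; exact h1
    refine ⟨nonsplit_dvd hr hD G hG hGc hK (hdd _ (Or.inl rfl) h1) hdsq (by omega) h2, ?_⟩
    rintro rfl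
    exact nonsplit (by omega) hD G hG hGc hK (hdd _ (Or.inl rfl) h1) hdsq hk hkq
  · have hr : 0 < r := Nat.pos_of_dvd_of_pos h2 (by omega)
    refine ⟨split_dvd hr hD G hG hGc (hdd _ (Or.inr rfl) h1) (hWPs h1 hr) (by omega) (by omega) h2,
      ?_⟩
    rintro rfl
    rcases Nat.lt_or_ge 1 r with hr2 | hr2
    · exact split_two hr2 hD G hG hGc hK (hdd _ (Or.inr rfl) h1) (hWPs h1 hr) hk hkq
    · have hr1 : r = 1 := by omega
      subst hr1
      exact no_four hD hSL' hk hkq
  · subst h2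
    exact split_zero (by omega) hD G hG hGc hK (hdd _ (Or.inr rfl) h1) (hWPs h1 (by omega)) hk hkq

end line

end Pool.Agent.N86.S7
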