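import Pool.Agent.N86.S7.Five2

/-!
# Steiner systems of any strength on the projective line: summary
-/

set_option autoImplicit false

namespace Pool.Agent.N86.S7

open Finset Matrix Pool.Agent.N86.S6 Pool.Agent.N86.S4 Pool.Agent.N86.S46

universe u

variable {K : Type u} [Field K] [DecidableEq K] [Fintype K] {t k : ℕ}
  {𝓑 : Finset (Finset (OnePoint K))}

/-- the predicate on determinants -/
lemma exists_pred (G : Subgroup (Equiv.Perm (OnePoint K)))
    (hSL : ∀ A : SpecialLinearGroup (Fin 2) K, slPerm A ∈ G) (d : ℕ)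
    (hd : d = Nat.gcd 2 (Fintype.card K - 1) ∨ (d = 1 ∧ ∀ A : GL (Fin 2) K, glPerm A ∈ G)) :
    ∃ Pd : K → Prop, Contains G Pd ∧ KindD Pd ∧
      ((∀ c : K, c ≠ 0 → Pd c) ∨
        (d = Nat.gcd 2 (Fintype.card K - 1) ∧ ∀ c : K, Pd c ↔ IsSquare c)) := by
  rcases hd with hd | ⟨hd, hGL⟩
  · by_cases hF : ringChar K = 2
    · exact ⟨fun x => IsSquare x, contains_SL G hSL,
        KindD.all (fun c _ => FiniteField.isSquare_of_char_two hF c),
        Or.inr ⟨hd, fun c => Iff.rfl⟩⟩
    · refine ⟨fun x => IsSquare x, contains_SL G hSL, KindD.sq (fun c => Iff.rfl) ?_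
        (FiniteField.exists_nonsquare hF) (Ring.two_ne_zero hF), Or.inr ⟨hd, fun c => Iff.rfl⟩⟩
      intro a b ha hb
      have e1 : quadraticChar K a = -1 := quadraticChar_neg_one_iff_not_isSquare.2 ha
      have e2 : quadraticChar K b = -1 := quadraticChar_neg_one_iff_not_isSquare.2 hb
      have ha0 : a ≠ 0 := fun e => ha (by rw [e]; exact ⟨0, by ring⟩)
      have hb0 : b ≠ 0 := fun e => hb (by rw [e]; exact ⟨0, by ring⟩)
      refine (quadraticChar_one_iff_isSquare (mul_ne_zero ha0 hb0)).1 ?_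
      rw [map_mul, e1, e2]
      norm_num
  · exact ⟨fun _ => True, fun A _ => hGL A, KindD.all (fun _ _ => trivial),
      Or.inl (fun _ _ => trivial)⟩

lemma dvd_d (d r n : ℕ) (hn : n = Fintype.card K + 1 ∨ n = Fintype.card K - 1)
    (hd : d = Nat.gcd 2 (Fintype.card K - 1) ∨ d = 1) (h : r ∣ n / d) : r ∣ n ∧ 0 < n / d := by
  have hq := Fintype.one_lt_card (α := K)
  have h1 : d ∣ n := by
    rcases hd with hd | hd
    · rw [hd]
      have h2 := Nat.gcd_dvd_right 2 (Fintype.card K - 1)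
      rcases hn with rfl | rfl
      · have h3 := Nat.gcd_dvd_left 2 (Fintype.card K - 1)
        have h4 : Fintype.card K + 1 = (Fintype.card K - 1) + 2 := by omega
        rw [h4]
        exact Nat.dvd_add h2 h3
      · exact h2
    · rw [hd]; exact one_dvd _
  obtain ⟨m, hm⟩ := h1
  have hd0 : 0 < d := by
    rcases hd with hd | hd
    · rw [hd]; exact Nat.gcd_pos_of_pos_left _ (by norm_num)
    · omega
  rw [hm, Nat.mul_div_cancel_left _ hd0] at h ⊢
  refine ⟨Dvd.dvd.mul_left h d, ?_⟩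
  by_contra hcon
  have : m = 0 := by omega
  rw [this, mul_zero] at hm
  omega

/-- **Steiner systems of any strength on the projective line** -/
theorem general_all {p e : ℕ} (hp : p.Prime) (hq : Fintype.card K = p ^ e)
    (hD : IsDesign t k 1 𝓑)
    (G : Subgroup (Equiv.Perm (OnePoint K))) (hG : ∀ g ∈ G, ∀ B ∈ 𝓑, B.image g ∈ 𝓑)
    (hSL : ∀ A : SpecialLinearGroup (Fin 2) K, slPerm A ∈ G) (ht : 4 ≤ t) (hk : t < k)
    (hkq : k < Fintype.card K + 1) (d r f : ℕ)
    (hd : d = Nat.gcd 2 (Fintype.card K - 1) ∨ (d = 1 ∧ ∀ A : GL (Fin 2) K, glPerm A ∈ G))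
    (hf : (f = 0 ∧ r ∣ (Fintype.card K + 1) / d) ∨ (f = 1 ∧ r ∣ Fintype.card K) ∨
      (f = 2 ∧ r ∣ (Fintype.card K - 1) / d)) :
    (r ∣ t - f → r ∣ k - f) ∧
      (t = r + f → k - f ∣ Fintype.card K + 1 - f) ∧
      (t = 2 * r + f → f = 1 ∧ k - 1 - r ∣ Fintype.card K - r ∧
        ((Fintype.card K % 4 = 3 → d = 1) → k - 1 ∣ Fintype.card K)) ∧
      (t = 2 * r + 1 → f = 2 → k = t + 1 ∨ (r ∣ k - 1 ∧ k - 1 - r ∣ Fintype.card K - 1 - r)) ∧
      (t = 2 * r → f = 2 → t = 4 ∨ k = t + 2) ∧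
      (t = 2 * r → f = 1 → k % r ≤ 1 ∧ k - k % r - r ∣ Fintype.card K - r) := by
  have hSL' : ∀ A : SpecialLinearGroup (Fin 2) K, ∀ B ∈ 𝓑, B.image (slPerm A) ∈ 𝓑 :=
    fun A B hB => hG _ (hSL A) B hB
  obtain ⟨Pd, hGc, hK, hsq⟩ := exists_pred G hSL d hd
  have hd' : d = Nat.gcd 2 (Fintype.card K - 1) ∨ d = 1 := by
    rcases hd with h | h
    · exact Or.inl h
    · exact Or.inr h.1
  have hq1 := Fintype.one_lt_card (α := K)
  rcases hf with ⟨rfl, hr⟩ | ⟨rfl, hr⟩ | ⟨rfl, hr⟩
  · -- no fixed points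
    obtain ⟨hr1, hr2⟩ := dvd_d d r _ (Or.inl rfl) hd' hr
    have hr0 : 0 < r := Nat.pos_of_dvd_of_pos hr hr2
    have hdsq : (∀ c : K, c ≠ 0 → Pd c) ∨
        r ∣ (Fintype.card K + 1) / Nat.gcd 2 (Fintype.card K - 1) := by
      rcases hsq with h3 | ⟨h3, -⟩
      · exact Or.inl h3
      · right; rw [← h3]; exact hr
    refine ⟨fun h => ?_, fun h => ?_, fun h => ?_, fun _ h => ?_, fun _ h => ?_, fun _ h => ?_⟩
    · exact nonsplit_dvd hr0 hD G hG hGc hK hr1 hdsq (by omega) h
    · rw [add_zero] at h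
      subst h
      exact nonsplit_one hr0 hD G hG hGc hK hr1 hdsq
    · rw [add_zero] at h
      subst h
      exact (nonsplit (by omega) hD G hG hGc hK hr1 hdsq hk hkq).elim
    · omega
    · omega
    · omega
  · -- one fixed point
    obtain ⟨j, hj, rfl⟩ := (Nat.dvd_prime_pow hp).1 (hq ▸ hr)
    refine ⟨fun h => ?_, fun h => ?_, fun h => ?_, fun _ h => ?_, fun _ h => ?_, fun h _ => ?_⟩
    · exact unip_dvd hp hq hj hD G hG hSL (by omega) (by omega) h
    · subst h
      rw [Nat.add_sub_cancel]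
      exact unip_orbit hp hq hj hD G hG hSL
    · subst h
      obtain ⟨h1, h2⟩ := unip_one hp hq hj hD G hG hSL hk hkq
      refine ⟨rfl, h1, fun h3 => ?_⟩
      have hP : Pd (-1) := by
        cases hK with
        | all h => exact h _ (neg_ne_zero.2 one_ne_zero)
        | sq h hp' hns h22 =>
          rw [h]
          rw [FiniteField.isSquare_neg_one_iff]
          intro h4
          have h5 := h3 h4
          rcases hsq with h6 | ⟨h6, -⟩
          · obtain ⟨a, ha⟩ := hns
            exact ha ((h a).1 (h6 a (fun e => ha (by rw [e]; exact ⟨0, by ring⟩))))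
          · have h7 : Nat.gcd 2 (Fintype.card K - 1) = 2 := Nat.gcd_eq_left (by omega)
            omega
      obtain ⟨m, hm, -, -⟩ := h2 Pd hGc hP
      -- `p ^ m ≤ p ^ e`
      have h8 : p ^ m < p ^ e + 1 := by omega
      have h9 : m ≤ e := by
        by_contra hcon
        have h10 : e + 1 ≤ m := by omega
        have h11 := Nat.pow_le_pow_right hp.pos h10
        rw [pow_succ] at h11
        have h12 := hp.two_le
        have h13 : 0 < p ^ e := Nat.pow_pos hp.pos
        nlinarith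
      rw [hm, Nat.add_sub_cancel, hq]
      exact pow_dvd_pow p h9
    · omega
    · omega
    · subst h
      have hj1 : 1 ≤ j := by
        by_contra hcon
        have : j = 0 := by omega
        rw [this, pow_zero] at ht
        omega
      obtain ⟨h1, h2, -⟩ := unip_zero hp hq hj hj1 hD G hG hSL hk hkq
      exact ⟨h1, h2⟩
  · -- two fixed points
    obtain ⟨hr1, hr2⟩ := dvd_d d r _ (Or.inr rfl) hd' hr
    have hr0 : 0 < r := Nat.pos_of_dvd_of_pos hr hr2
    have hWP : ∀ w ∈ rou K r, Pd w := by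
      intro w hw
      have hw0 : w ≠ 0 := fun e => (grp_rou (F := K) hr0).W0 (e ▸ hw)
      rcases hsq with h1 | ⟨h1, h2⟩
      · exact h1 w hw0
      · rw [h2]
        exact rou_square hr0 (by rw [← h1]; exact hr) w hw
    refine ⟨fun h => ?_, fun h => ?_, fun h => ?_, fun h _ => ?_, fun h _ => ?_, fun _ h => ?_⟩
    · exact split_dvd hr0 hD G hG hGc hr1 hWP (by omega) (by omega) h
    · subst h
      have := split_one hr0 hD G hG hGc hr1 hWP
      rwa [show Fintype.card K + 1 - 2 = Fintype.card K - 1 by omega]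
    · subst h
      exfalso
      rcases Nat.lt_or_ge 1 r with hr2 | hr2
      · exact split_two hr2 hD G hG hGc hK hr1 hWP hk hkq
      · have hr1 : r = 1 := by omega
        subst hr1
        exact no_four hD hSL' hk hkq
    · subst h
      rcases split_odd (by omega) hD G hG hGc hK hr1 hWP hk hkq with h | h
      · exact Or.inr h
      · exact Or.inl h
    · subst h
      rcases Nat.lt_or_ge 2 r with hr3 | hr3
      · exact Or.inr (split_zero hr3 hD G hG hGc hK hr1 hWP hk hkq)
      · left; omega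
    · omega

/-- strength five -/
theorem five_all {p e : ℕ} (hp : p.Prime) (hq : Fintype.card K = p ^ e)
    (hD : IsDesign 5 k 1 𝓑)
    (G : Subgroup (Equiv.Perm (OnePoint K))) (hG : ∀ g ∈ G, ∀ B ∈ 𝓑, B.image g ∈ 𝓑)
    (hSL : ∀ A : SpecialLinearGroup (Fin 2) K, slPerm A ∈ G) (hk : 5 < k)
    (hkq : k < Fintype.card K + 1) (hodd : Fintype.card K % 2 = 1)
    (hcase : Fintype.card K % 4 = 1 ∨ ∀ A : GL (Fin 2) K, glPerm A ∈ G) :
    Odd k ∧ (k - 3) * (k - 4) ∣ Fintype.card K - 3 ∧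
      (Fintype.card K % 4 = 1 → k % 4 = 1 ∧ 17 ≤ k) := by
  have hSL' : ∀ A : SpecialLinearGroup (Fin 2) K, ∀ B ∈ 𝓑, B.image (slPerm A) ∈ 𝓑 :=
    fun A B hB => hG _ (hSL A) B hB
  have hF : ringChar K ≠ 2 := by
    intro h
    have := FiniteField.even_card_iff_char_two.1 h
    omega
  have h2 : (2 : K) ≠ 0 := Ring.two_ne_zero hF
  obtain ⟨Pd, hGc, hneg, hsqP⟩ : ∃ Pd : K → Prop, Contains G Pd ∧ Pd (-1) ∧
      ∀ x : K, IsSquare x → Pd (-x) := by
    rcases hcase with h | h
    · have hm1 : IsSquare (-1 : K) := by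
        rw [FiniteField.isSquare_neg_one_iff]; omega
      exact ⟨fun x => IsSquare x, contains_SL G hSL, hm1, fun x hx => by
        show IsSquare (-x)
        rw [neg_eq_neg_one_mul]; exact hm1.mul hx⟩
    · exact ⟨fun _ => True, fun A _ => h A, trivial, fun _ _ => trivial⟩
  have hkodd : Odd k := by
    rw [← Nat.not_even_iff_odd]
    intro hkev
    refine five_even hD G hG ?_ ?_ h2 hk hkev hkq
    · obtain ⟨g, hg, h1, h3⟩ := neg_mem G hGc hneg 0
      exact ⟨g, hg, h1, fun z => by rw [h3, zero_sub]⟩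
    · intro x hx
      exact refl_split G Pd hGc (mul_ne_zero hx hx) (hsqP _ ⟨x, rfl⟩)
  refine ⟨hkodd, ?_, fun h4 => ?_⟩
  · have h3 : k - 3 ∣ Fintype.card K - 3 := by
      have h5 : ∃ d, (d = Nat.gcd 2 (Fintype.card K - 1) ∨
          (d = 1 ∧ ∀ A : GL (Fin 2) K, glPerm A ∈ G)) ∧ 2 ∣ (Fintype.card K - 1) / d := by
        rcases hcase with h | h
        · refine ⟨2, Or.inl (Nat.gcd_eq_left (by omega)).symm, by omega⟩
        · refine ⟨1, Or.inr ⟨rfl, h⟩, by omega⟩
      obtain ⟨d, hd, h6⟩ := h5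
      have h7 := (general_all hp hq hD G hG hSL (by norm_num) hk hkq d 2 2 hd
        (Or.inr (Or.inr ⟨rfl, h6⟩))).2.2.2.1 rfl rfl
      rcases h7 with h7 | ⟨-, h7⟩
      · exfalso
        obtain ⟨m, hm⟩ := hkodd
        omega
      · have e1 : k - 1 - 2 = k - 3 := by omega
        have e2 : Fintype.card K - 1 - 2 = Fintype.card K - 3 := by omega
        rwa [e1, e2] at h7
    have h4 := divisibility hD 4 (by norm_num) (by rw [card_line]; omega)
    rw [card_line, show 5 - 4 = 1 by norm_num, Nat.choose_one_right, Nat.choose_one_right] at h4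
    have h5 : Fintype.card K + 1 - 4 = Fintype.card K - 3 := by omega
    rw [h5] at h4
    refine Nat.Coprime.mul_dvd_of_dvd_of_dvd ?_ h3 h4
    rw [show k - 3 = (k - 4) + 1 by omega]
    exact Nat.coprime_self_add_left.2 (Nat.coprime_one_left _)
  · rcases five_main hD hSL' hk hkq hp hq with h | ⟨-, h⟩ | ⟨h, -⟩
    · omega
    · exact h
    · exfalso
      subst h
      rw [hq] at hodd
      rcases Nat.eq_zero_or_pos e with he | he
      · rw [he] at hq
        have := Fintype.one_lt_card (α := K)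
        omega
      · obtain ⟨m, rfl⟩ : ∃ m, e = m + 1 := ⟨e - 1, by omega⟩
        rw [pow_succ] at hodd
        omega

end Pool.Agent.N86.S7
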