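import Pool.Agent.N86.S7.Quad2

/-!
# The nonsplit torus
-/

set_option autoImplicit false

namespace Pool.Agent.N86.S7

open Finset Matrix Polynomial Pool.Agent.N86.S6 Pool.Agent.N86.S4 Pool.Agent.N86.S46

universe u

variable {K : Type u} [Field K] [DecidableEq K] [Fintype K] {k : ℕ}
  {𝓑 : Finset (Finset (OnePoint K))}

/-- there is a quadratic extension, with a norm which is not a square if `q` is odd -/
lemma exists_ext : ∃ (a b : K) (L : Type u) (_ : Field L) (_ : Fintype L) (Q : Quad2 K L a b),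
    (∃ x : K, ¬ IsSquare x) → ∃ u : L, u ≠ 0 ∧ ¬ IsSquare (Q.norm u) := by
  by_cases hF : ringChar K = 2
  · -- `x ^ 2 + x` is not surjective
    have h2 : (2 : K) = 0 := by
      have := (ringChar.spec K 2).2 (by rw [hF])
      exact_mod_cast this
    obtain ⟨a, ha⟩ : ∃ a : K, ∀ x : K, x ^ 2 - x ≠ a := by
      by_contra hcon
      push Not at hcon
      have hsurj : Function.Surjective (fun x : K => x ^ 2 - x) := hcon
      have hinj := Finite.injective_iff_surjective.2 hsurj
      have := @hinj 0 1 (by simp)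
      exact zero_ne_one this
    obtain ⟨L, hL, hLf, ⟨Q⟩⟩ := exists_quad2 a 1 (fun x h => ha x (by linear_combination h))
    exact ⟨a, 1, L, hL, hLf, Q, fun ⟨x, hx⟩ => absurd (FiniteField.isSquare_of_char_two hF x) hx⟩
  · obtain ⟨a, ha⟩ := FiniteField.exists_nonsquare hF
    have h2 : (2 : K) ≠ 0 := Ring.two_ne_zero hF
    obtain ⟨L, hL, hLf, ⟨Q⟩⟩ := exists_quad2 a 0 (fun x h => ha ⟨x, by linear_combination -h⟩)
    refine ⟨a, 0, L, hL, hLf, Q, fun _ => ?_⟩
    have ha0 : a ≠ 0 := fun e => ha (by rw [e]; exact ⟨0, by ring⟩)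
    have hf : degree (X ^ 2 - C a : K[X]) = 2 := by compute_degree!
    have hg : degree (C (-a) * X ^ 2 : K[X]) = 2 := by
      compute_degree!
    obtain ⟨x, y, hxy⟩ := FiniteField.exists_root_sum_quadratic hf hg
      (FiniteField.odd_card_of_char_ne_two hF)
    simp only [eval_pow, eval_X, eval_sub, eval_mul, eval_C] at hxy
    have hn : Q.norm (Q.i x + Q.i y * Q.θ) = a := by
      obtain ⟨h4, h5⟩ := Q.coords (x := x) (y := y) (u := Q.i x + Q.i y * Q.θ) rfl
      unfold Quad2.norm
      rw [h4, h5]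
      linear_combination hxy
    refine ⟨_, ?_, by rw [hn]; exact ha⟩
    intro h
    rw [h] at hn
    have h6 : Q.norm (0 : L) = 0 := by
      obtain ⟨h4, h5⟩ := Q.coords (x := 0) (y := 0) (u := (0 : L)) (by simp)
      unfold Quad2.norm
      rw [h4, h5]; ring
    rw [h6] at hn
    exact ha0 hn.symm

/-- two orbits of the nonsplit torus: `t = 2 r` -/
theorem nonsplit {r : ℕ} (hr : 2 ≤ r) (hD : IsDesign (2 * r) k 1 𝓑)
    (G : Subgroup (Equiv.Perm (OnePoint K))) (hG : ∀ g ∈ G, ∀ B ∈ 𝓑, B.image g ∈ 𝓑)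
    {Pd : K → Prop} (hGc : Contains G Pd) (hK : KindD Pd) (hd : r ∣ Fintype.card K + 1)
    (hdsq : (∀ c : K, c ≠ 0 → Pd c) ∨ r ∣ (Fintype.card K + 1) / Nat.gcd 2 (Fintype.card K - 1))
    (hk : 2 * r < k) (hkq : k < Fintype.card K + 1) : False := by
  classical
  obtain ⟨a, b, L, hL, hLf, Q, hQ⟩ := exists_ext (K := K)
  have hq1 : 1 < Fintype.card K := Fintype.one_lt_card
  have hcL := Q.card_L
  have hN : Fintype.card L - 1 = (Fintype.card K - 1) * (Fintype.card K + 1) := by
    rw [hcL]
    obtain ⟨m, hm⟩ : ∃ m, Fintype.card K = m + 1 := ⟨Fintype.card K - 1, by omega⟩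
    rw [hm, Nat.add_sub_cancel]
    have : (m + 1) ^ 2 = m * (m + 1 + 1) + 1 := by ring
    omega
  have hpos : 0 < (Fintype.card K - 1) * r := Nat.mul_pos (by omega) (by omega)
  have hW := grp_rou (F := L) (n := (Fintype.card K - 1) * r) hpos
  have hWc := card_rou (F := L) (n := (Fintype.card K - 1) * r) hpos (by
    rw [hN]; exact Nat.mul_dvd_mul_left _ hd)
  have hSW : Q.SK ⊆ rou L ((Fintype.card K - 1) * r) := by
    intro u hu
    rw [Q.mem_SK] at hu
    obtain ⟨c, hc, rfl⟩ := hu
    rw [mem_rou, ← map_pow, pow_mul, FiniteField.pow_card_sub_one_eq_one c hc, one_pow, map_one]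
  have hWP : ∀ w ∈ rou L ((Fintype.card K - 1) * r), Pd (Q.norm w) := by
    intro w hw
    have hw0 : w ≠ 0 := fun e => hW.W0 (e ▸ hw)
    rcases hdsq with h | h
    · exact h _ (Q.norm_ne hw0)
    · have hsq : IsSquare w := by
        refine rou_square hpos ?_ w hw
        rw [hN]
        rcases Nat.even_or_odd (Fintype.card K) with ⟨m, hm⟩ | ⟨m, hm⟩
        · have e0 : ∀ n : ℕ, n % 2 = 1 → Nat.gcd 2 n = 1 := fun n hn => by
            rw [← Nat.coprime_iff_gcd_eq_one, Nat.coprime_two_left, Nat.odd_iff]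
            exact hn
          have e1 : Nat.gcd 2 (Fintype.card K - 1) = 1 := e0 _ (by omega)
          have e2 : Nat.gcd 2 ((Fintype.card K - 1) * (Fintype.card K + 1)) = 1 := by
            refine e0 _ ?_
            rw [Nat.mul_mod, show (Fintype.card K - 1) % 2 = 1 by omega,
              show (Fintype.card K + 1) % 2 = 1 by omega]
          rw [e1, Nat.div_one] at h
          rw [e2, Nat.div_one]
          exact Nat.mul_dvd_mul_left _ h
        · have e1 : Nat.gcd 2 (Fintype.card K - 1) = 2 := Nat.gcd_eq_left (by omega)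
          have e2 : Nat.gcd 2 ((Fintype.card K - 1) * (Fintype.card K + 1)) = 2 :=
            Nat.gcd_eq_left (Dvd.dvd.mul_left (by omega) _)
          rw [e1] at h
          rw [e2, Nat.mul_div_assoc _ (by omega)]
          exact Nat.mul_dvd_mul_left _ h
      obtain ⟨v, hv⟩ := hsq
      cases hK with
      | all h => exact h _ (Q.norm_ne hw0)
      | sq h hp hns h2 =>
        rw [h, hv, Q.norm_mul]
        exact ⟨_, rfl⟩
  have hKind : Kind (rou L ((Fintype.card K - 1) * r)) (fun u => Pd (Q.norm u))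
      (fun c => Pd (-Q.norm c)) := by
    cases hK with
    | all h => exact Or.inl (fun c hc => h _ (neg_ne_zero.2 (Q.norm_ne hc)))
    | sq h hp hns h2 =>
      have hPd : Pd = fun x => IsSquare x := funext fun x => propext (h x)
      subst hPd
      have hC : IsClass (rou L ((Fintype.card K - 1) * r)) (fun u : L => IsSquare (Q.norm u)) := {
        one := by rw [Q.norm_one]; exact IsSquare.one
        mul := fun _ _ _ _ hx hy => by rw [Q.norm_mul]; exact hx.mul hy
        mul' := fun _ _ _ _ hx hy => by rw [Q.norm_mul]; exact hp _ _ hx hy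
        mul'' := fun _ _ hx0 _ hx hy => by
          rw [Q.norm_mul]; exact not_square_mul hx (Q.norm_ne hx0) hy
        W := fun w hw => hWP w hw
        ex := hQ hns }
      right
      by_cases hm1 : IsSquare (-1 : K)
      · right
        refine ⟨hC, fun c _ hc => ?_⟩
        show IsSquare (-Q.norm c)
        rw [neg_eq_neg_one_mul]
        exact hm1.mul hc
      · left
        refine ⟨hC, fun c _ hc => ?_⟩
        show IsSquare (-Q.norm c)
        rw [neg_eq_neg_one_mul]
        exact hp _ _ hm1 hc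
  obtain ⟨s, hs⟩ : ∃ s, 2 * r = s + 2 := ⟨2 * r - 2, by omega⟩
  have hcam : (k - s) * (k - (s + 1)) + (s + 1) ≤ Fintype.card K + 1 := by
    have := cameron_gen (s := s) (by rw [← hs]; exact hD) (by omega) (by rw [card_line]; omega)
    rwa [card_line] at this
  have hex : ∃ u : L, u ≠ 0 ∧ u ∉ rou L ((Fintype.card K - 1) * r) := by
    refine exists_notMem _ ?_
    rw [hWc]
    have h1 : (Fintype.card K - 1) * r < (Fintype.card K - 1) * (Fintype.card K + 1) :=
      Nat.mul_lt_mul_of_pos_left (by omega) (by omega)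
    omega
  rcases abs_main hD hG (Q.act G Pd hGc) hW hSW (r := r) (by rw [hWc, Q.card_SK, mul_comm]) hWP
    (E' := ∅) (Or.inl rfl) (by rw [Finset.card_empty, zero_add]) (n₀ := k) hk
    (fun B hB _ _ => by rw [Finset.sdiff_empty, hD.1 B hB]) hex hKind with
    ⟨B, hB, -, hall⟩ | ⟨h1, h2⟩
  · have h3 : B = Finset.univ := by
      ext x
      exact ⟨fun _ => Finset.mem_univ _, fun _ => hall x (Finset.notMem_empty _)⟩
    have h4 := hD.1 B hB
    rw [h3, Finset.card_univ, card_line] at h4
    omega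
  · rw [hWc, hN] at h2
    have h3 : Fintype.card K + 1 ≤ 16 * r := by
      have : (Fintype.card K - 1) * (Fintype.card K + 1) ≤ (Fintype.card K - 1) * (16 * r) := by
        calc _ ≤ _ := h2
          _ = _ := by ring
      exact Nat.le_of_mul_le_mul_left this (by omega)
    rw [h1, show 4 * r - s = 2 * r + 2 by omega, show 4 * r - (s + 1) = 2 * r + 1 by omega] at hcam
    nlinarith

end Pool.Agent.N86.S7
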