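import Pool.Agent.N86.S7.Gen

/-!
# Steiner systems of odd strength on the projective line: one of the two fixed points
-/

set_option autoImplicit false

namespace Pool.Agent.N86.S7

open Finset Matrix Pool.Agent.N86.S6 Pool.Agent.N86.S4 Pool.Agent.N86.S46

lemma torus_div {F : Type*} [Field F] [Fintype F] [DecidableEq F] {W : Finset F}
    {𝓓 : Set (Finset F)} {κ : ℕ} (h : Torus W 𝓓 κ) :
    κ - W.card ∣ Fintype.card F - 1 - W.card := by
  classical
  have h1 := torus_count h (fun _ => True)
  have e1 : univ.filter (fun u : F => u ≠ 0 ∧ u ∉ W ∧ True) = univ.erase 0 \ W := by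
    ext u
    simp only [Finset.mem_filter, Finset.mem_univ, true_and, Finset.mem_sdiff, Finset.mem_erase,
      and_true]
  have e2 : W ⊆ univ.erase (0 : F) := fun w hw =>
    Finset.mem_erase.2 ⟨fun e => h.W0 (e ▸ hw), Finset.mem_univ _⟩
  rw [e1, Finset.card_sdiff_of_subset e2, Finset.card_erase_of_mem (Finset.mem_univ _),
    Finset.card_univ] at h1
  rw [h1]
  refine Finset.dvd_sum ?_
  intro D hD
  rw [Finset.mem_filter] at hD
  have e3 : D.filter (fun u => u ∉ W ∧ True) = D \ W := by
    ext u
    simp only [Finset.mem_filter, Finset.mem_sdiff, and_true]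
  have e4 : W ⊆ D := by
    intro w hw
    have := h.DW D hD.2.1 w hw 1 hD.2.2
    rwa [mul_one] at this
  rw [e3, Finset.card_sdiff_of_subset e4, h.Dc D hD.2.1]

universe u

variable {K : Type u} [Field K] [DecidableEq K] [Fintype K] {k : ℕ}
  {𝓑 : Finset (Finset (OnePoint K))}

/-- two orbits in a split torus and one fixed point: `t = 2 r + 1` -/
theorem split_odd {r : ℕ} (hr : 2 ≤ r) (hD : IsDesign (2 * r + 1) k 1 𝓑)
    (G : Subgroup (Equiv.Perm (OnePoint K))) (hG : ∀ g ∈ G, ∀ B ∈ 𝓑, B.image g ∈ 𝓑)
    {Pd : K → Prop} (hGc : Contains G Pd) (hK : KindD Pd) (hd : r ∣ Fintype.card K - 1)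
    (hWP : ∀ w ∈ rou K r, Pd w) (hk : 2 * r + 1 < k) (hkq : k < Fintype.card K + 1) :
    (r ∣ k - 1 ∧ k - 1 - r ∣ Fintype.card K - 1 - r) ∨ k = 2 * r + 2 := by
  have hW := grp_rou (F := K) (n := r) (by omega)
  have hWc := card_rou (F := K) (n := r) (by omega) hd
  have hA := act_split G Pd hGc
  set E' : Finset (OnePoint K) := {((0 : K) : OnePoint K)} with hE'
  have hE'E : E' ⊆ EE K := by
    rw [hE', Finset.singleton_subset_iff]
    simp [EE]
  have hS : ({1} : Finset K) ⊆ rou K r := by rw [Finset.singleton_subset_iff]; exact hW.W1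
  have hWr : (rou K r).card = r * ({1} : Finset K).card := by
    rw [hWc, Finset.card_singleton, mul_one]
  have hcl : ∀ B ∈ 𝓑, E' ⊆ B → (∀ w ∈ rou K r, ∀ u ∈ cone (fun u : K => (u : OnePoint K)) B,
      w * u ∈ cone (fun u : K => (u : OnePoint K)) B) → r ∣ (B \ EE K).card ∧
        ((B \ EE K).card = k - 1 ∨ (B \ EE K).card = k - 2 ∧ EE K ⊆ B) := by
    intro B hB hEB h
    have h1 := W_dvd (rou K r) (cone (fun u : K => (u : OnePoint K)) B) hW.W0 hW.W1 hW.Wm
      (fun e => (mem_cone.1 e).1 rfl) h
    rw [hA.card_cone, Finset.card_singleton, mul_one, hWc] at h1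
    refine ⟨h1, ?_⟩
    have h2 := Finset.card_inter_add_card_sdiff B (EE K)
    rw [hD.1 B hB] at h2
    have h3 : E' ⊆ B ∩ EE K := Finset.subset_inter hEB hE'E
    have h4 := Finset.card_le_card h3
    have h5 : (B ∩ EE K).card ≤ 2 := by
      rw [← card_EE (K := K)]
      exact Finset.card_le_card Finset.inter_subset_right
    rw [hE', Finset.card_singleton] at h4
    by_cases h6 : (B ∩ EE K).card = 1
    · left; omega
    · right
      refine ⟨by omega, ?_⟩
      have h7 : B ∩ EE K = EE K :=
        Finset.eq_of_subset_of_card_le Finset.inter_subset_right (by rw [card_EE]; omega)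
      rw [← h7]
      exact Finset.inter_subset_left
  by_cases hr1 : r ∣ k - 1
  · left
    refine ⟨hr1, ?_⟩
    have hT := torus_fam hD hG hA hW hS hWr hWP hE'E
      (by rw [hE', Finset.card_singleton]; ring) (n₀ := k - 1) (by
      intro B hB hEB h
      obtain ⟨h1, h2 | ⟨h2, -⟩⟩ := hcl B hB hEB h
      · exact h2
      · exfalso
        rw [h2] at h1
        have h3 := (Nat.dvd_sub hr1 h1)
        rw [show k - 1 - (k - 2) = 1 by omega, Nat.dvd_one] at h3
        omega)
    have := torus_div hT
    rwa [Finset.card_singleton, mul_one, hWc] at this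
  · right
    have hcl' : ∀ B ∈ 𝓑, E' ⊆ B → (∀ w ∈ rou K r, ∀ u ∈ cone (fun u : K => (u : OnePoint K)) B,
        w * u ∈ cone (fun u : K => (u : OnePoint K)) B) → (B \ EE K).card = k - 2 ∧ EE K ⊆ B := by
      intro B hB hEB h
      obtain ⟨h1, h2 | h2⟩ := hcl B hB hEB h
      · rw [h2] at h1
        exact absurd h1 hr1
      · exact h2
    rcases Nat.lt_or_ge (2 * r) (k - 2) with hn | hn
    · exfalso
      rcases abs_gen hD hG hA hW hS hWr hWP hE'E (by rw [hE', Finset.card_singleton]; ring)
        (by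
          intro B hB hEB h g hg x hx
          exact (hcl' B hB hEB h).2 (hg x (hE'E hx))) hn
        (fun B hB hEB h => (hcl' B hB hEB h).1) (exists_notMem _ (by rw [hWc]; omega))
        (kind_split hW.W0 hK hWP) with ⟨B, hB, hEB, hcl2, hall⟩ | ⟨h1, h2⟩
      · have h2 := (hcl' B hB hEB hcl2).2
        have h3 : B = Finset.univ := by
          ext x
          refine ⟨fun _ => Finset.mem_univ _, fun _ => ?_⟩
          by_cases hx : x ∈ EE K
          · exact h2 hx
          · exact hall x hx
        have h4 := hD.1 B hB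
        rw [h3, Finset.card_univ, card_line] at h4
        omega
      · rw [hWc] at h2
        obtain ⟨s, hs⟩ : ∃ s, 2 * r + 1 = s + 2 := ⟨2 * r - 1, by omega⟩
        have h5 := cameron_gen (s := s) (by rw [← hs]; exact hD) (by omega)
          (by rw [card_line]; omega)
        rw [card_line] at h5
        have h6 : k = 4 * r + 2 := by omega
        rw [h6, show 4 * r + 2 - s = 2 * r + 3 by omega,
          show 4 * r + 2 - (s + 1) = 2 * r + 2 by omega] at h5
        have h7 : Fintype.card K + 1 ≤ 16 * r + 2 := by omega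
        nlinarith
    · omega

end Pool.Agent.N86.S7
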