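import Pool.Agent.N86.S7.Unip

/-!
# Steiner systems on the projective line: blocks through one orbit and the fixed points
-/

set_option autoImplicit false

namespace Pool.Agent.N86.S7

open Finset Matrix Pool.Agent.N86.S6 Pool.Agent.N86.S4 Pool.Agent.N86.S46

universe u

section abs
variable {X F : Type*} [DecidableEq X] [Fintype X] [Field F] [DecidableEq F] [Fintype F]

/-- the blocks through the fixed points and one orbit partition the other points -/
theorem one_orbit {t k : ℕ} {𝓑 : Finset (Finset X)} (hD : IsDesign t k 1 𝓑)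
    {G : Subgroup (Equiv.Perm X)} (hG : ∀ g ∈ G, ∀ B ∈ 𝓑, B.image g ∈ 𝓑)
    {φ : F → X} {E : Finset X} {S : Finset F} {P R : F → Prop} (hA : Act G φ E S P R)
    {W : Finset F} (hW : IsGrp W) (hSW : S ⊆ W) {r : ℕ} (hWr : W.card = r * S.card)
    (hWP : ∀ w ∈ W, P w) (ht : t = E.card + r) :
    (k - E.card) * S.card ∣ Fintype.card F - 1 := by
  have hne : ∀ w ∈ W, w ≠ 0 := fun w hw e => hW.W0 (e ▸ hw)
  have hTc : ∀ x : F, x ≠ 0 → (E ∪ W.image (fun w => φ (w * x))).card = t := by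
    intro x hx
    rw [Finset.card_union_of_disjoint, hA.card_orbit hW hSW hWr x hx, ht]
    rw [Finset.disjoint_left]
    intro y hy hy'
    rw [Finset.mem_image] at hy'
    obtain ⟨w, hw, rfl⟩ := hy'
    exact hA.phiE _ (mul_ne_zero (hne w hw) hx) hy
  have hex : ∀ x : F, ∃ B, x ≠ 0 → (B ∈ 𝓑 ∧ E ∪ W.image (fun w => φ (w * x)) ⊆ B) := by
    intro x
    by_cases hx : x = 0
    · exact ⟨∅, fun h => absurd hx h⟩
    · obtain ⟨B, hB, hS⟩ := block_exists hD (hTc x hx)
      exact ⟨B, fun _ => ⟨hB, hS⟩⟩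
  choose f hf using hex
  have hinv : ∀ x : F, x ≠ 0 → ∀ w ∈ W, ∀ u ∈ cone φ (f x), w * u ∈ cone φ (f x) := by
    intro x hx w hw u hu
    obtain ⟨hB, hS⟩ := hf x hx
    obtain ⟨g, hg, hgE1, hgu⟩ := hA.mul w (hne w hw) (hWP w hw)
    rw [mem_cone] at hu ⊢
    have h1 := image_perm hD g (hG g hg) hB hB _ (hTc x hx) hS (by
      intro p hp
      refine hS ?_
      rw [Finset.mem_union, Finset.mem_image] at hp ⊢
      rcases hp with hp | ⟨v, hv, rfl⟩
      · exact Or.inl (by rw [hgE1 p hp]; exact hp)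
      · rw [hgu _ (mul_ne_zero (hne v hv) hx), ← mul_assoc]
        exact Or.inr ⟨w * v, hW.Wm w hw v hv, rfl⟩) _ hu.2
    rw [hgu u hu.1] at h1
    exact ⟨mul_ne_zero (hne w hw) hu.1, h1⟩
  have hself : ∀ x : F, x ≠ 0 → x ∈ cone φ (f x) := by
    intro x hx
    refine mem_cone.2 ⟨hx, (hf x hx).2 (Finset.mem_union_right _ ?_)⟩
    exact Finset.mem_image.2 ⟨1, hW.W1, by rw [one_mul]⟩
  have h1 : (univ.erase (0 : F)).card = Fintype.card F - 1 := by
    rw [Finset.card_erase_of_mem (Finset.mem_univ _), Finset.card_univ]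
  rw [← h1]
  refine dvd_of_fibres (univ.erase (0 : F)) f _ ?_
  intro y hy
  have hy0 : y ≠ 0 := (Finset.mem_erase.1 hy).1
  obtain ⟨hB, hS⟩ := hf y hy0
  have h2 : (univ.erase (0 : F)).filter (fun z => f z = f y) = cone φ (f y) := by
    ext z
    rw [Finset.mem_filter, Finset.mem_erase]
    constructor
    · rintro ⟨⟨hz, -⟩, h⟩
      rw [← h]
      exact hself z hz
    · intro hz
      have hz0 := (mem_cone.1 hz).1
      refine ⟨⟨hz0, Finset.mem_univ _⟩, ?_⟩
      refine block_unique hD (hf z hz0).1 hB (S := E ∪ W.image (fun w => φ (w * z)))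
        (by rw [hTc z hz0]) (hf z hz0).2 ?_
      intro p hp
      rw [Finset.mem_union, Finset.mem_image] at hp
      rcases hp with hp | ⟨w, hw, rfl⟩
      · exact hS (Finset.mem_union_left _ hp)
      · exact (mem_cone.1 (hinv y hy0 w hw z hz)).2
  rw [h2, hA.card_cone, Finset.card_sdiff_of_subset (fun x hx => hS (Finset.mem_union_left _ hx)),
    hD.1 _ hB]

end abs

section line

variable {K : Type u} [Field K] [DecidableEq K] [Fintype K] {t k : ℕ}
  {𝓑 : Finset (Finset (OnePoint K))}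

/-- `t = r + 2`, two fixed points -/
theorem split_one {r : ℕ} (hr : 0 < r) (hD : IsDesign (r + 2) k 1 𝓑)
    (G : Subgroup (Equiv.Perm (OnePoint K))) (hG : ∀ g ∈ G, ∀ B ∈ 𝓑, B.image g ∈ 𝓑)
    {Pd : K → Prop} (hGc : Contains G Pd) (hd : r ∣ Fintype.card K - 1)
    (hWP : ∀ w ∈ rou K r, Pd w) : k - 2 ∣ Fintype.card K - 1 := by
  have hW := grp_rou (F := K) (n := r) hr
  have hWc := card_rou (F := K) (n := r) hr hd
  have h := one_orbit hD hG (act_split G Pd hGc) hW
    (by rw [Finset.singleton_subset_iff]; exact hW.W1) (r := r)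
    (by rw [hWc, Finset.card_singleton, mul_one]) hWP (by rw [card_EE]; ring)
  rwa [card_EE, Finset.card_singleton, mul_one] at h

/-- `t = r`, no fixed points -/
theorem nonsplit_one {r : ℕ} (hr : 0 < r) (hD : IsDesign r k 1 𝓑)
    (G : Subgroup (Equiv.Perm (OnePoint K))) (hG : ∀ g ∈ G, ∀ B ∈ 𝓑, B.image g ∈ 𝓑)
    {Pd : K → Prop} (hGc : Contains G Pd) (hK : KindD Pd) (hd : r ∣ Fintype.card K + 1)
    (hdsq : (∀ c : K, c ≠ 0 → Pd c) ∨
      r ∣ (Fintype.card K + 1) / Nat.gcd 2 (Fintype.card K - 1)) :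
    k ∣ Fintype.card K + 1 := by
  classical
  obtain ⟨a, b, L, hL, hLf, Q, -⟩ := exists_ext (K := K)
  obtain ⟨hW, hWc, hSW, hWP, hN⟩ := nonsplit_data hr Q hK hd hdsq
  have h := one_orbit hD hG (Q.act G Pd hGc) hW hSW (r := r)
    (by rw [hWc, Q.card_SK, mul_comm]) hWP (by rw [Finset.card_empty, zero_add])
  rw [Finset.card_empty, Nat.sub_zero, Q.card_SK, hN, mul_comm] at h
  exact Nat.dvd_of_mul_dvd_mul_left (by
    have := Fintype.one_lt_card (α := K)
    omega) h

/-- `t = p ^ j + 1`, one fixed point -/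
theorem unip_orbit {p e j : ℕ} (hp : p.Prime) (hq : Fintype.card K = p ^ e) (hj : j ≤ e)
    (hD : IsDesign (p ^ j + 1) k 1 𝓑) (G : Subgroup (Equiv.Perm (OnePoint K)))
    (hG : ∀ g ∈ G, ∀ B ∈ 𝓑, B.image g ∈ 𝓑)
    (hSL : ∀ A : SpecialLinearGroup (Fin 2) K, slPerm A ∈ G) : k - 1 ∣ Fintype.card K := by
  obtain ⟨U, hU⟩ := exists_sub hp hq j hj
  have hcl : ∀ x : K, ∀ u ∈ U, ∀ z ∈ (elts U).image (fun u => x + u),
      z + u ∈ (elts U).image (fun u => x + u) := by
    intro x u hu z hz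
    rw [Finset.mem_image] at hz ⊢
    obtain ⟨v, hv, rfl⟩ := hz
    exact ⟨v + u, mem_elts.2 (U.add_mem (mem_elts.1 hv) hu), by ring⟩
  have hTc : ∀ x : K, (cov {OnePoint.infty} ((elts U).image (fun u => x + u))).card =
      p ^ j + 1 := by
    intro x
    rw [card_cov (Finset.Subset.refl _), Finset.card_singleton,
      Finset.card_image_of_injective _ (add_right_injective x), hU, add_comm]
  have hex : ∀ x : K, ∃ B, B ∈ 𝓑 ∧ cov {OnePoint.infty} ((elts U).image (fun u => x + u)) ⊆ B :=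
    fun x => block_exists hD (hTc x)
  choose f hf hfS using hex
  have hinv : ∀ x : K, ∀ u ∈ U, ∀ z ∈ fin (f x), z + u ∈ fin (f x) := fun x =>
    inv_cov hD G hG hSL (Finset.Subset.refl _) (hcl x) (hTc x) (hf x) (hfS x)
  have hself : ∀ x : K, x ∈ fin (f x) := by
    intro x
    refine mem_fin.2 (hfS x ?_)
    unfold cov
    exact Finset.mem_union_right _ (Finset.mem_image.2 ⟨x, Finset.mem_image.2
      ⟨0, mem_elts.2 U.zero_mem, add_zero _⟩, rfl⟩)
  rw [← Finset.card_univ]
  refine dvd_of_fibres (univ : Finset K) f _ ?_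
  intro y _
  have h2 : (univ : Finset K).filter (fun z => f z = f y) = fin (f y) := by
    ext z
    rw [Finset.mem_filter]
    constructor
    · rintro ⟨-, h⟩
      rw [← h]
      exact hself z
    · intro hz
      refine ⟨Finset.mem_univ _, ?_⟩
      refine block_unique hD (hf z) (hf y)
        (S := cov {OnePoint.infty} ((elts U).image (fun u => z + u))) (by rw [hTc z]) (hfS z) ?_
      intro p hp
      unfold cov at hp
      rw [Finset.mem_union, Finset.mem_image] at hp
      rcases hp with hp | ⟨w, hw, rfl⟩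
      · exact hfS y (by unfold cov; exact Finset.mem_union_left _ hp)
      · rw [Finset.mem_image] at hw
        obtain ⟨u, hu, rfl⟩ := hw
        exact mem_fin.1 (hinv y u (mem_elts.1 hu) z hz)
  have h3 := card_fin (B := f y) (hfS y (by unfold cov; simp))
  rw [hD.1 _ (hf y)] at h3
  rw [h2]
  omega

end line

end Pool.Agent.N86.S7
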