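import Pool.Agent.N86.S7.Split

/-!
# The projective line and a quadratic extension
-/

set_option autoImplicit false

namespace Pool.Agent.N86.S7

open Finset Matrix Polynomial Pool.Agent.N86.S6 Pool.Agent.N86.S4 Pool.Agent.N86.S46

/-- `L` is the field `K(θ)`, with `θ ^ 2 = a + b θ` -/
structure Quad2 (K L : Type*) [Field K] [Field L] (a b : K) where
  i : K →+* L
  θ : L
  hθ : θ ^ 2 = i a + i b * θ
  re : L → K
  im : L → K
  eq : ∀ u, u = i (re u) + i (im u) * θ
  ind : ∀ x y : K, i x + i y * θ = 0 → x = 0 ∧ y = 0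

variable {K L : Type*} [Field K] [DecidableEq K] [Field L] {a b : K} (Q : Quad2 K L a b)

lemma pt_gl (A : GL (Fin 2) K) (x y : K) (h : ¬ (x = 0 ∧ y = 0)) :
    glPerm A (pt x y) = pt (A 0 0 * x + A 0 1 * y) (A 1 0 * x + A 1 1 * y) := by
  unfold pt
  by_cases hy : y = 0
  · have hx : x ≠ 0 := fun e => h ⟨e, hy⟩
    rw [if_pos hy, hy, glPerm_infty]
    simp only [mul_zero, add_zero]
    by_cases hR : A 1 0 = 0
    · rw [if_pos hR, if_pos (by rw [hR, zero_mul])]
    · rw [if_neg hR, if_neg (mul_ne_zero hR hx)]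
      congr 1
      field_simp
  · rw [if_neg hy, glPerm_coe]
    have e : A 1 0 * x + A 1 1 * y = y * (A 1 0 * (x / y) + A 1 1) := by field_simp
    by_cases hx : A 1 0 * (x / y) + A 1 1 = 0
    · rw [if_pos hx, if_pos (by rw [e, hx, mul_zero])]
    · rw [if_neg hx, if_neg (by rw [e]; exact mul_ne_zero hy hx)]
      congr 1
      rw [div_eq_div_iff hx (by rw [e]; exact mul_ne_zero hy hx)]
      field_simp

namespace Quad2

/-- the point of the projective line given by an element of `L` -/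
def phi (u : L) : OnePoint K := pt (Q.re u) (Q.im u)

/-- the norm -/
def norm (u : L) : K := Q.re u ^ 2 + b * Q.re u * Q.im u - a * Q.im u ^ 2

omit [DecidableEq K] in
lemma coords {x y : K} {u : L} (h : u = Q.i x + Q.i y * Q.θ) : Q.re u = x ∧ Q.im u = y := by
  have h1 := Q.eq u
  have h2 := Q.ind (Q.re u - x) (Q.im u - y) (by
    rw [map_sub, map_sub]
    linear_combination h - h1)
  exact ⟨sub_eq_zero.1 h2.1, sub_eq_zero.1 h2.2⟩

omit [DecidableEq K] in
lemma re_im_ne {u : L} (hu : u ≠ 0) : ¬ (Q.re u = 0 ∧ Q.im u = 0) := by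
  rintro ⟨h1, h2⟩
  refine hu ?_
  rw [Q.eq u, h1, h2, map_zero, zero_mul, add_zero]

omit [DecidableEq K] in
lemma re_mul (u v : L) : Q.re (u * v) = Q.re u * Q.re v + a * Q.im u * Q.im v ∧
    Q.im (u * v) = Q.re u * Q.im v + Q.im u * Q.re v + b * Q.im u * Q.im v := by
  refine Q.coords ?_
  have h1 := Q.eq u
  have h2 := Q.eq v
  have h3 : u * v = (Q.i (Q.re u) + Q.i (Q.im u) * Q.θ) * (Q.i (Q.re v) + Q.i (Q.im v) * Q.θ) := by
    rw [← h1, ← h2]
  rw [h3]
  simp only [map_add, map_mul]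
  linear_combination (Q.i (Q.im u) * Q.i (Q.im v)) * Q.hθ

omit [DecidableEq K] in
lemma norm_mul (u v : L) : Q.norm (u * v) = Q.norm u * Q.norm v := by
  unfold norm
  obtain ⟨h1, h2⟩ := Q.re_mul u v
  rw [h1, h2]
  ring

omit [DecidableEq K] in
lemma norm_one : Q.norm 1 = 1 := by
  obtain ⟨h1, h2⟩ := Q.coords (x := 1) (y := 0) (u := 1) (by simp)
  unfold norm
  rw [h1, h2]; ring

omit [DecidableEq K] in
lemma norm_ne {u : L} (hu : u ≠ 0) : Q.norm u ≠ 0 := by
  intro h
  have h1 := Q.norm_mul u u⁻¹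
  rw [mul_inv_cancel₀ hu, h, zero_mul, Q.norm_one] at h1
  exact one_ne_zero h1

lemma phi_smul {c : K} (hc : c ≠ 0) (u : L) : Q.phi (Q.i c * u) = Q.phi u := by
  unfold phi
  obtain ⟨h1, h2⟩ := Q.coords (x := c * Q.re u) (y := c * Q.im u) (u := Q.i c * u) (by
    rw [map_mul, map_mul]
    conv_lhs => rw [Q.eq u]
    ring)
  rw [h1, h2, pt_smul hc]

/-- the standard representative -/
noncomputable def rep (p : OnePoint K) : L :=
  OnePoint.elim p (1 : L) (fun x => Q.i x + Q.θ)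

omit [DecidableEq K] in
@[simp] lemma rep_infty : Q.rep (OnePoint.infty : OnePoint K) = 1 := rfl

omit [DecidableEq K] in
@[simp] lemma rep_coe (x : K) : Q.rep (x : OnePoint K) = Q.i x + Q.θ := rfl

omit [DecidableEq K] in
lemma rep_ne (p : OnePoint K) : Q.rep p ≠ 0 := by
  induction p using OnePoint.rec with
  | infty => rw [rep_infty]; exact one_ne_zero
  | coe x =>
    rw [rep_coe]
    intro h
    have := Q.ind x 1 (by rw [map_one, one_mul]; exact h)
    exact one_ne_zero this.2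

lemma phi_rep (p : OnePoint K) : Q.phi (Q.rep p) = p := by
  unfold phi
  induction p using OnePoint.rec with
  | infty =>
    obtain ⟨h1, h2⟩ := Q.coords (x := 1) (y := 0) (u := (1 : L)) (by simp)
    rw [rep_infty, h1, h2]
    unfold pt
    rw [if_pos rfl]
  | coe x =>
    obtain ⟨h1, h2⟩ := Q.coords (x := x) (y := 1) (u := Q.i x + Q.θ) (by simp)
    rw [rep_coe, h1, h2]
    unfold pt
    rw [if_neg one_ne_zero, div_one]

lemma eq_rep {u : L} (hu : u ≠ 0) : ∃ c : K, c ≠ 0 ∧ u = Q.i c * Q.rep (Q.phi u) := by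
  unfold phi pt
  by_cases hb : Q.im u = 0
  · refine ⟨Q.re u, fun e => Q.re_im_ne hu ⟨e, hb⟩, ?_⟩
    rw [if_pos hb, rep_infty, mul_one]
    conv_lhs => rw [Q.eq u, hb]
    rw [map_zero, zero_mul, add_zero]
  · refine ⟨Q.im u, hb, ?_⟩
    rw [if_neg hb, rep_coe]
    conv_lhs => rw [Q.eq u]
    have : Q.i (Q.re u) = Q.i (Q.im u) * Q.i (Q.re u / Q.im u) := by
      rw [← map_mul, mul_div_cancel₀ _ hb]
    rw [this]
    ring

lemma phi_eq {u v : L} (hu : u ≠ 0) (hv : v ≠ 0) (h : Q.phi u = Q.phi v) :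
    ∃ c : K, c ≠ 0 ∧ u = Q.i c * v := by
  obtain ⟨x, hx, hux⟩ := Q.eq_rep hu
  obtain ⟨y, hy, hvy⟩ := Q.eq_rep hv
  refine ⟨x / y, div_ne_zero hx hy, ?_⟩
  rw [hux, h]
  conv_rhs => rw [hvy]
  rw [← mul_assoc, ← map_mul, div_mul_cancel₀ _ hy]

/-- multiplication by `c` -/
lemma mul_mem (G : Subgroup (Equiv.Perm (OnePoint K))) (Pd : K → Prop) (hG : Contains G Pd)
    {c : L} (hc : c ≠ 0) (hP : Pd (Q.norm c)) :
    ∃ g ∈ G, ∀ u : L, u ≠ 0 → g (Q.phi u) = Q.phi (c * u) := by
  have hdet0 : Matrix.det !![Q.re c, a * Q.im c; Q.im c, Q.re c + b * Q.im c] = Q.norm c := by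
    rw [Matrix.det_fin_two_of]
    unfold norm
    ring
  let A : GL (Fin 2) K := Matrix.GeneralLinearGroup.mkOfDetNeZero
    !![Q.re c, a * Q.im c; Q.im c, Q.re c + b * Q.im c] (by rw [hdet0]; exact Q.norm_ne hc)
  have h00 : A 0 0 = Q.re c := rfl
  have h01 : A 0 1 = a * Q.im c := rfl
  have h10 : A 1 0 = Q.im c := rfl
  have h11 : A 1 1 = Q.re c + b * Q.im c := rfl
  refine ⟨glPerm A, hG A ?_, fun u hu => ?_⟩
  · have hdet : (A.det : K) = Q.norm c := hdet0
    rw [hdet]; exact hP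
  · unfold phi
    rw [pt_gl _ _ _ (Q.re_im_ne hu), h00, h01, h10, h11]
    obtain ⟨h1, h2⟩ := Q.re_mul c u
    rw [h1, h2]
    congr 1; ring

/-- the reflection `u ↦ c / u` -/
lemma refl_mem (G : Subgroup (Equiv.Perm (OnePoint K))) (Pd : K → Prop) (hG : Contains G Pd)
    {c : L} (hc : c ≠ 0) (hP : Pd (-Q.norm c)) :
    ∃ g ∈ G, ∀ u : L, u ≠ 0 → g (Q.phi u) = Q.phi (c / u) := by
  have hdet0 : Matrix.det !![Q.re c, b * Q.re c - a * Q.im c; Q.im c, -Q.re c] =
      -Q.norm c := by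
    rw [Matrix.det_fin_two_of]
    unfold norm
    ring
  let A : GL (Fin 2) K := Matrix.GeneralLinearGroup.mkOfDetNeZero
    !![Q.re c, b * Q.re c - a * Q.im c; Q.im c, -Q.re c] (by
      rw [hdet0]; exact neg_ne_zero.2 (Q.norm_ne hc))
  have h00 : A 0 0 = Q.re c := rfl
  have h01 : A 0 1 = b * Q.re c - a * Q.im c := rfl
  have h10 : A 1 0 = Q.im c := rfl
  have h11 : A 1 1 = -Q.re c := rfl
  refine ⟨glPerm A, hG A ?_, fun u hu => ?_⟩
  · have hdet : (A.det : K) = -Q.norm c := hdet0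
    rw [hdet]; exact hP
  · have h0 : Q.phi (c / u) = Q.phi (Q.i (Q.norm u) * (c / u)) :=
      (Q.phi_smul (Q.norm_ne hu) _).symm
    rw [h0]
    unfold phi
    rw [pt_gl _ _ _ (Q.re_im_ne hu), h00, h01, h10, h11]
    obtain ⟨h1, h2⟩ := Q.coords (x := Q.re c * Q.re u + (b * Q.re c - a * Q.im c) * Q.im u)
      (y := Q.im c * Q.re u + -Q.re c * Q.im u) (u := Q.i (Q.norm u) * (c / u)) (by
      have e1 := Q.eq u
      have e2 := Q.eq c
      have e3 : Q.i (Q.norm u) =
          u * (Q.i (Q.re u + b * Q.im u) - Q.i (Q.im u) * Q.θ) := by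
        unfold norm
        simp only [map_add, map_sub, map_mul, map_pow]
        linear_combination (Q.i (Q.im u)) ^ 2 * Q.hθ -
          (Q.i (Q.re u) + Q.i b * Q.i (Q.im u) - Q.i (Q.im u) * Q.θ) * e1
      have e4 : Q.i (Q.norm u) * (c / u) =
          c * (Q.i (Q.re u + b * Q.im u) - Q.i (Q.im u) * Q.θ) := by
        rw [e3]
        field_simp
      rw [e4]
      conv_lhs => rw [e2]
      simp only [map_add, map_sub, map_mul, map_neg]
      linear_combination -(Q.i (Q.im c) * Q.i (Q.im u)) * Q.hθ)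
    rw [h1, h2]

section fin
variable [Fintype K] [Fintype L] [DecidableEq L]

/-- the nonzero elements of `K` -/
noncomputable def SK : Finset L := (univ.erase (0 : K)).image Q.i

lemma mem_SK {u : L} : u ∈ Q.SK ↔ ∃ c : K, c ≠ 0 ∧ u = Q.i c := by
  unfold SK
  rw [Finset.mem_image]
  constructor
  · rintro ⟨c, hc, rfl⟩
    exact ⟨c, (Finset.mem_erase.1 hc).1, rfl⟩
  · rintro ⟨c, hc, rfl⟩
    exact ⟨c, Finset.mem_erase.2 ⟨hc, Finset.mem_univ _⟩, rfl⟩

lemma card_SK : Q.SK.card = Fintype.card K - 1 := by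
  unfold SK
  rw [Finset.card_image_of_injective _ Q.i.injective, Finset.card_erase_of_mem (Finset.mem_univ _),
    Finset.card_univ]

lemma act (G : Subgroup (Equiv.Perm (OnePoint K))) (Pd : K → Prop) (hG : Contains G Pd) :
    Act G Q.phi ∅ Q.SK (fun u => Pd (Q.norm u)) (fun c => Pd (-Q.norm c)) where
  S0 := by
    rw [Q.mem_SK]
    rintro ⟨c, hc, h⟩
    exact hc ((map_eq_zero Q.i).1 h.symm)
  phiE := fun u _ => Finset.notMem_empty _
  surj := fun x _ => ⟨Q.rep x, Q.rep_ne x, Q.phi_rep x⟩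
  fib := by
    intro u v hu hv
    rw [Q.mem_SK]
    constructor
    · intro h
      obtain ⟨c, hc, h1⟩ := Q.phi_eq hu hv h
      exact ⟨c, hc, by rw [h1, mul_div_cancel_right₀ _ hv]⟩
    · rintro ⟨c, hc, h⟩
      rw [div_eq_iff hv] at h
      rw [h, Q.phi_smul hc]
  mul := by
    intro w hw hP
    obtain ⟨g, hg, h⟩ := Q.mul_mem G Pd hG hw hP
    exact ⟨g, hg, fun x hx => absurd hx (Finset.notMem_empty _), h⟩
  refl := by
    intro c hc hP
    obtain ⟨g, hg, h⟩ := Q.refl_mem G Pd hG hc hP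
    exact ⟨g, hg, fun x hx => absurd hx (Finset.notMem_empty _), h⟩

include Q in
lemma card_L : Fintype.card L = Fintype.card K ^ 2 := by
  rw [sq, ← Fintype.card_prod]
  symm
  refine Fintype.card_of_bijective (f := fun p : K × K => Q.i p.1 + Q.i p.2 * Q.θ) ⟨?_, ?_⟩
  · rintro ⟨x, y⟩ ⟨x', y'⟩ h
    have h : Q.i x + Q.i y * Q.θ = Q.i x' + Q.i y' * Q.θ := h
    obtain ⟨h1, h2⟩ := Q.coords (x := x) (y := y) rfl
    obtain ⟨h3, h4⟩ := Q.coords h
    exact Prod.ext (h1.symm.trans h3) (h2.symm.trans h4)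
  · intro u
    exact ⟨(Q.re u, Q.im u), (Q.eq u).symm⟩

end fin

end Quad2

section construction

universe u
variable {K : Type u} [Field K]

/-- the quadratic extension -/
lemma exists_quad2 [Fintype K] (a b : K) (hno : ∀ x : K, x ^ 2 ≠ a + b * x) :
    ∃ (L : Type u) (_ : Field L) (_ : Fintype L), Nonempty (Quad2 K L a b) := by
  classical
  have hdeg : (X ^ 2 - (C b * X + C a) : K[X]).natDegree = 2 := by compute_degree!
  have hirr : Irreducible (X ^ 2 - (C b * X + C a) : K[X]) := by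
    refine irreducible_of_degree_le_three_of_not_isRoot ?_ ?_
    · rw [hdeg, Finset.mem_Icc]; norm_num
    · intro x hx
      refine hno x ?_
      rw [IsRoot.def] at hx
      simp only [eval_sub, eval_pow, eval_X, eval_add, eval_mul, eval_C] at hx
      linear_combination hx
  have : Fact (Irreducible (X ^ 2 - (C b * X + C a) : K[X])) := ⟨hirr⟩
  let L := AdjoinRoot (X ^ 2 - (C b * X + C a) : K[X])
  have hmonic : (X ^ 2 - (C b * X + C a) : K[X]).Monic := by monicity!
  let i : K →+* L := AdjoinRoot.of (X ^ 2 - (C b * X + C a) : K[X])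
  let θ : L := AdjoinRoot.root (X ^ 2 - (C b * X + C a) : K[X])
  have hθ : θ ^ 2 = i a + i b * θ := by
    have h := AdjoinRoot.eval₂_root (X ^ 2 - (C b * X + C a) : K[X])
    simp only [eval₂_sub, eval₂_add, eval₂_pow, eval₂_mul, eval₂_C, eval₂_X] at h
    linear_combination h
  have hspan : ∀ u : L, ∃ x y : K, u = i x + i y * θ := by
    intro u
    obtain ⟨g, rfl⟩ := AdjoinRoot.mk_surjective u
    have h1 : AdjoinRoot.mk (X ^ 2 - (C b * X + C a) : K[X]) g =
        AdjoinRoot.mk (X ^ 2 - (C b * X + C a) : K[X]) (g %ₘ (X ^ 2 - (C b * X + C a))) := by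
      rw [AdjoinRoot.mk_eq_mk]
      exact ⟨g /ₘ (X ^ 2 - (C b * X + C a)), by
        have := modByMonic_add_div g (X ^ 2 - (C b * X + C a) : K[X])
        linear_combination -this⟩
    have h2 : (g %ₘ (X ^ 2 - (C b * X + C a) : K[X])).natDegree < 2 := by
      have h4 : (X ^ 2 - (C b * X + C a) : K[X]) ≠ 1 := by
        intro h
        have := hdeg
        rw [h, natDegree_one] at this
        exact absurd this (by norm_num)
      have h5 := natDegree_modByMonic_lt g hmonic h4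
      rwa [hdeg] at h5
    have h6 : (g %ₘ (X ^ 2 - (C b * X + C a) : K[X])).natDegree ≤ 1 := by omega
    refine ⟨(g %ₘ (X ^ 2 - (C b * X + C a))).coeff 0,
      (g %ₘ (X ^ 2 - (C b * X + C a))).coeff 1, ?_⟩
    rw [h1]
    have h3 : (g %ₘ (X ^ 2 - (C b * X + C a) : K[X])) =
        C ((g %ₘ (X ^ 2 - (C b * X + C a))).coeff 0) +
        C ((g %ₘ (X ^ 2 - (C b * X + C a))).coeff 1) * X := by
      exact (eq_X_add_C_of_natDegree_le_one h6).trans (add_comm _ _)
    conv_lhs => rw [h3]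
    rw [map_add, map_mul, AdjoinRoot.mk_C, AdjoinRoot.mk_C, AdjoinRoot.mk_X]
  have hind : ∀ x y : K, i x + i y * θ = 0 → x = 0 ∧ y = 0 := by
    intro x y h
    have h1 : AdjoinRoot.mk (X ^ 2 - (C b * X + C a) : K[X]) (C x + C y * X) = 0 := by
      rw [map_add, map_mul, AdjoinRoot.mk_C, AdjoinRoot.mk_C, AdjoinRoot.mk_X]
      exact h
    rw [AdjoinRoot.mk_eq_zero] at h1
    have h2 : C x + C y * X = 0 := by
      by_contra hne
      have h3 := natDegree_le_of_dvd h1 hne
      rw [hdeg] at h3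
      have h4 : (C x + C y * X : K[X]).natDegree ≤ 1 := by compute_degree
      omega
    have h3 := congrArg (fun g => coeff g 0) h2
    have h4 := congrArg (fun g => coeff g 1) h2
    simp only [coeff_add, coeff_C_zero, coeff_C_mul, coeff_X_zero, mul_zero, add_zero,
      coeff_zero] at h3
    simp only [coeff_add, coeff_C_mul, coeff_X_one, mul_one, coeff_zero,
      coeff_C_succ, zero_add] at h4
    exact ⟨h3, h4⟩
  choose re im heq using hspan
  have hfin : Fintype L := Fintype.ofSurjective (fun p : K × K => i p.1 + i p.2 * θ) (fun u =>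
    ⟨(re u, im u), (heq u).symm⟩)
  exact ⟨L, inferInstance, hfin, ⟨⟨i, θ, hθ, re, im, heq, hind⟩⟩⟩

end construction

end Pool.Agent.N86.S7
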