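import Pool.Agent.N86.S7.Abs

/-!
# The split torus
-/

set_option autoImplicit false

namespace Pool.Agent.N86.S7

open Finset Matrix Pool.Agent.N86.S6 Pool.Agent.N86.S4 Pool.Agent.N86.S46

section roots
variable {F : Type*} [Field F] [Fintype F] [DecidableEq F]

/-- the roots of unity -/
noncomputable def rou (F : Type*) [Field F] [Fintype F] [DecidableEq F] (n : ℕ) : Finset F :=
  univ.filter (fun w => w ^ n = 1)

lemma mem_rou {n : ℕ} {w : F} : w ∈ rou F n ↔ w ^ n = 1 := by
  unfold rou
  rw [Finset.mem_filter]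
  exact ⟨fun h => h.2, fun h => ⟨Finset.mem_univ _, h⟩⟩

lemma card_rou {n : ℕ} (hn : 0 < n) (hd : n ∣ Fintype.card F - 1) : (rou F n).card = n := by
  obtain ⟨g, hg⟩ := IsCyclic.exists_ofOrder_eq_natCard (α := Fˣ)
  rw [Nat.card_eq_fintype_card, Fintype.card_units] at hg
  obtain ⟨m, hm⟩ := hd
  have h1 : IsPrimitiveRoot g (Fintype.card F - 1) := hg ▸ IsPrimitiveRoot.orderOf g
  have h0 : 0 < Fintype.card F - 1 := by
    have := Fintype.one_lt_card (α := F)
    omega
  have h2 : IsPrimitiveRoot (g ^ m) n := h1.pow h0 (by rw [hm, mul_comm])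
  have h3 : IsPrimitiveRoot ((g ^ m : Fˣ) : F) n := IsPrimitiveRoot.coe_units_iff.2 h2
  have h4 : rou F n = Polynomial.nthRootsFinset n (1 : F) := by
    ext w
    rw [mem_rou, Polynomial.mem_nthRootsFinset hn]
  rw [h4, h3.card_nthRootsFinset]

lemma grp_rou {n : ℕ} (hn : 0 < n) : IsGrp (rou F n) where
  W0 := by rw [mem_rou, zero_pow hn.ne']; exact zero_ne_one
  W1 := by rw [mem_rou, one_pow]
  Wm := fun x hx y hy => by
    rw [mem_rou] at hx hy ⊢
    rw [mul_pow, hx, hy, one_mul]

/-- the roots of unity of order dividing `(q - 1) / 2` are squares -/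
lemma rou_square {n : ℕ} (hn : 0 < n) (hd : n ∣ (Fintype.card F - 1) / Nat.gcd 2 (Fintype.card F - 1)) :
    ∀ w ∈ rou F n, IsSquare w := by
  intro w hw
  by_cases hF : ringChar F = 2
  · exact FiniteField.isSquare_of_char_two hF w
  have hw0 : w ≠ 0 := fun e => (grp_rou (F := F) hn).W0 (e ▸ hw)
  have hodd := FiniteField.odd_card_of_char_ne_two hF
  have h1 : Nat.gcd 2 (Fintype.card F - 1) = 2 := Nat.gcd_eq_left (by omega)
  rw [h1] at hd
  rw [FiniteField.isSquare_iff hF hw0]
  rw [mem_rou] at hw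
  obtain ⟨m, hm⟩ := hd
  have h2 : Fintype.card F / 2 = n * m := by rw [← hm]; omega
  rw [h2, pow_mul, hw, one_pow]

end roots

section contains
variable {K : Type*} [Field K] [DecidableEq K]

/-- the elements of `GL(2, K)` whose determinant satisfies `Pd` act as elements of `G` -/
def Contains (G : Subgroup (Equiv.Perm (OnePoint K))) (Pd : K → Prop) : Prop :=
  ∀ A : GL (Fin 2) K, Pd (A.det : K) → glPerm A ∈ G

lemma contains_SL (G : Subgroup (Equiv.Perm (OnePoint K)))
    (hSL : ∀ S : SpecialLinearGroup (Fin 2) K, slPerm S ∈ G) :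
    Contains G (fun x => IsSquare x) := by
  intro A hA
  obtain ⟨S, hS⟩ := glPerm_square A hA
  rw [hS]
  exact hSL S

/-- the points `∞` and `0` -/
noncomputable def EE (K : Type*) [Field K] [DecidableEq K] : Finset (OnePoint K) :=
  {OnePoint.infty, ((0 : K) : OnePoint K)}

lemma card_EE : (EE K).card = 2 := by
  unfold EE
  exact Finset.card_pair (OnePoint.infty_ne_coe _)

/-- the reflection `z ↦ c / z` -/
lemma refl_split (G : Subgroup (Equiv.Perm (OnePoint K))) (Pd : K → Prop) (hG : Contains G Pd)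
    {c : K} (hc : c ≠ 0) (hP : Pd (-c)) : ∃ g ∈ G, g OnePoint.infty = ((0 : K) : OnePoint K) ∧
      g ((0 : K) : OnePoint K) = OnePoint.infty ∧
      ∀ z : K, z ≠ 0 → g (z : OnePoint K) = ((c / z : K) : OnePoint K) := by
  let A : GL (Fin 2) K := Matrix.GeneralLinearGroup.mkOfDetNeZero !![0, c; 1, 0] (by
    rw [Matrix.det_fin_two_of]; simpa using hc)
  have h00 : A 0 0 = 0 := rfl
  have h01 : A 0 1 = c := rfl
  have h10 : A 1 0 = 1 := rfl
  have h11 : A 1 1 = 0 := rfl
  refine ⟨glPerm A, hG A ?_, ?_, ?_, ?_⟩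
  · have hdet : (A.det : K) = -c := by
      show Matrix.det !![0, c; 1, 0] = -c
      rw [Matrix.det_fin_two_of]; ring
    rw [hdet]; exact hP
  · rw [glPerm_infty, h10, h00, if_neg one_ne_zero, zero_div]
  · rw [glPerm_coe, h10, h11, if_pos (by ring)]
  · intro z hz
    rw [glPerm_coe, h00, h01, h10, h11, if_neg (by rw [one_mul, add_zero]; exact hz), one_mul,
      add_zero, zero_mul, zero_add]

lemma act_split (G : Subgroup (Equiv.Perm (OnePoint K))) (Pd : K → Prop) (hG : Contains G Pd) :
    Act G (fun u : K => (u : OnePoint K)) (EE K) {1} Pd (fun c => Pd (-c)) where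
  S0 := by simp
  phiE := by
    intro u hu
    simp only [EE, Finset.mem_insert, Finset.mem_singleton, OnePoint.coe_eq_coe, not_or]
    exact ⟨OnePoint.coe_ne_infty _, hu⟩
  surj := by
    intro x hx
    simp only [EE, Finset.mem_insert, Finset.mem_singleton, not_or] at hx
    induction x using OnePoint.rec with
    | infty => exact absurd rfl hx.1
    | coe x => exact ⟨x, fun e => hx.2 (by rw [e]), rfl⟩
  fib := by
    intro u v hu hv
    simp only [OnePoint.coe_eq_coe, Finset.mem_singleton]
    rw [div_eq_one_iff_eq hv]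
  mul := by
    intro w hw hP
    let A : GL (Fin 2) K := Matrix.GeneralLinearGroup.mkOfDetNeZero !![w, 0; 0, 1] (by
      rw [Matrix.det_fin_two_of]; simpa using hw)
    have h00 : A 0 0 = w := rfl
    have h01 : A 0 1 = 0 := rfl
    have h10 : A 1 0 = 0 := rfl
    have h11 : A 1 1 = 1 := rfl
    have hc : ∀ z : K, glPerm A (z : OnePoint K) = ((w * z : K) : OnePoint K) := by
      intro z
      rw [glPerm_coe, h00, h01, h10, h11, zero_mul, zero_add, if_neg one_ne_zero, add_zero,
        div_one]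
    refine ⟨glPerm A, hG A ?_, ?_, fun u _ => hc u⟩
    · have hdet : (A.det : K) = w := by
        show Matrix.det !![w, 0; 0, 1] = w
        rw [Matrix.det_fin_two_of]; ring
      rw [hdet]; exact hP
    · intro x hx
      simp only [EE, Finset.mem_insert, Finset.mem_singleton] at hx
      rcases hx with rfl | rfl
      · rw [glPerm_infty, if_pos h10]
      · rw [hc, mul_zero]
  refl := by
    intro c hc hP
    obtain ⟨g, hg, h1, h2, h3⟩ := refl_split G Pd hG hc hP
    refine ⟨g, hg, ?_, h3⟩
    intro x hx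
    simp only [EE, Finset.mem_insert, Finset.mem_singleton] at hx ⊢
    rcases hx with rfl | rfl
    · right; exact h1
    · left; exact h2

/-- the three kinds of groups -/
inductive KindD (Pd : K → Prop) : Prop
  | all (h : ∀ c, c ≠ 0 → Pd c) : KindD Pd
  | sq (h : ∀ c, Pd c ↔ IsSquare c)
      (hp : ∀ a b : K, ¬ IsSquare a → ¬ IsSquare b → IsSquare (a * b))
      (hns : ∃ a : K, ¬ IsSquare a) (h2 : (2 : K) ≠ 0) : KindD Pd

lemma kind_split {W : Finset K} (hW0 : (0 : K) ∉ W) {Pd : K → Prop} (hK : KindD Pd)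
    (hW : ∀ w ∈ W, Pd w) : Kind W Pd (fun c => Pd (-c)) := by
  cases hK with
  | all h => exact Or.inl (fun c hc => h _ (neg_ne_zero.2 hc))
  | sq h hp hns h2 =>
    have hPd : Pd = fun x => IsSquare x := funext fun x => propext (h x)
    have hC : IsClass W (fun x : K => IsSquare x) := {
      one := IsSquare.one
      mul := fun _ _ _ _ hx hy => hx.mul hy
      mul' := fun _ _ _ _ hx hy => hp _ _ hx hy
      mul'' := fun _ _ hx0 _ hx hy => not_square_mul hx hx0 hy
      W := fun w hw => (h w).1 (hW w hw)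
      ex := by
        obtain ⟨a, ha⟩ := hns
        exact ⟨a, fun e => ha (by rw [e]; exact ⟨0, by ring⟩), ha⟩ }
    subst hPd
    right
    by_cases hm1 : IsSquare (-1 : K)
    · right
      refine ⟨hC, fun c _ hc => ?_⟩
      show IsSquare (-c)
      rw [neg_eq_neg_one_mul]
      exact hm1.mul hc
    · left
      refine ⟨hC, fun c _ hc => ?_⟩
      show IsSquare (-c)
      rw [neg_eq_neg_one_mul]
      exact hp _ _ hm1 hc

end contains

section designs
variable {K : Type*} [Field K] [DecidableEq K] [Fintype K] {k : ℕ}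
  {𝓑 : Finset (Finset (OnePoint K))}

lemma exists_notMem {F : Type*} [Field F] [Fintype F] [DecidableEq F] (W : Finset F)
    (h : W.card + 1 < Fintype.card F) : ∃ a : F, a ≠ 0 ∧ a ∉ W := by
  obtain ⟨a, -, ha⟩ : ∃ a ∈ (univ : Finset F), a ∉ insert 0 W := by
    refine Finset.exists_mem_notMem_of_card_lt_card ?_
    rw [Finset.card_univ]
    have := Finset.card_insert_le 0 W
    omega
  rw [Finset.mem_insert, not_or] at ha
  exact ⟨a, ha⟩

/-- two orbits and the two fixed points: `t = 2 r + 2` -/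
theorem split_two {r : ℕ} (hr : 2 ≤ r) (hD : IsDesign (2 * r + 2) k 1 𝓑)
    (G : Subgroup (Equiv.Perm (OnePoint K))) (hG : ∀ g ∈ G, ∀ B ∈ 𝓑, B.image g ∈ 𝓑)
    {Pd : K → Prop} (hGc : Contains G Pd) (hK : KindD Pd) (hd : r ∣ Fintype.card K - 1)
    (hWP : ∀ w ∈ rou K r, Pd w) (hk : 2 * r + 2 < k) (hkq : k < Fintype.card K + 1) : False := by
  have hW := grp_rou (F := K) (n := r) (by omega)
  have hWc := card_rou (F := K) (n := r) (by omega) hd
  have hA := act_split G Pd hGc
  have hcard : ∀ B ∈ 𝓑, EE K ⊆ B → (B \ EE K).card = k - 2 := by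
    intro B hB hE
    rw [Finset.card_sdiff_of_subset hE, hD.1 B hB, card_EE]
  rcases abs_main hD hG hA hW (by rw [Finset.singleton_subset_iff]; exact hW.W1) (r := r)
    (by rw [hWc, Finset.card_singleton, mul_one]) hWP (E' := EE K) (Or.inl rfl)
    (by rw [card_EE]; ring) (n₀ := k - 2) (by omega) (fun B hB hE _ => hcard B hB hE)
    (exists_notMem _ (by rw [hWc]; omega)) (kind_split hW.W0 hK hWP) with
    ⟨B, hB, hE, hall⟩ | ⟨h1, h2⟩
  · have h3 : B = Finset.univ := by
      ext x
      refine ⟨fun _ => Finset.mem_univ _, fun _ => ?_⟩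
      by_cases hx : x ∈ EE K
      · exact hE hx
      · exact hall x hx
    have h4 := hD.1 B hB
    rw [h3, Finset.card_univ, card_line] at h4
    omega
  · rw [hWc] at h2
    have h5 := cameron_gen hD (by omega) (by rw [card_line]; omega)
    rw [card_line] at h5
    have h6 : k = 4 * r + 2 := by omega
    rw [h6, show 4 * r + 2 - 2 * r = 2 * r + 2 by omega,
      show 4 * r + 2 - (2 * r + 1) = 2 * r + 1 by omega] at h5
    have h7 : Fintype.card K + 1 ≤ 16 * r + 2 := by omega
    nlinarith

/-- two orbits in a split torus: `t = 2 r` -/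
theorem split_zero {r : ℕ} (hr : 3 ≤ r) (hD : IsDesign (2 * r) k 1 𝓑)
    (G : Subgroup (Equiv.Perm (OnePoint K))) (hG : ∀ g ∈ G, ∀ B ∈ 𝓑, B.image g ∈ 𝓑)
    {Pd : K → Prop} (hGc : Contains G Pd) (hK : KindD Pd) (hd : r ∣ Fintype.card K - 1)
    (hWP : ∀ w ∈ rou K r, Pd w) (hk : 2 * r < k) (hkq : k < Fintype.card K + 1) :
    k = 2 * r + 2 := by
  have hW := grp_rou (F := K) (n := r) (by omega)
  have hWc := card_rou (F := K) (n := r) (by omega) hd
  have hA := act_split G Pd hGc
  obtain ⟨s, hs⟩ : ∃ s, 2 * r = s + 2 := ⟨2 * r - 2, by omega⟩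
  have hcam : (k - s) * (k - (s + 1)) + (s + 1) ≤ Fintype.card K + 1 := by
    have := cameron_gen (s := s) (by rw [← hs]; exact hD) (by omega) (by rw [card_line]; omega)
    rwa [card_line] at this
  have hcl : ∀ B ∈ 𝓑, (∀ w ∈ rou K r, ∀ u ∈ cone (fun u : K => (u : OnePoint K)) B,
      w * u ∈ cone (fun u : K => (u : OnePoint K)) B) → (B \ EE K).card = k - k % r ∧
        k % r ≤ 2 ∧ (B ∩ EE K).card = k % r := by
    intro B hB h
    have h1 := W_dvd (rou K r) (cone (fun u : K => (u : OnePoint K)) B) hW.W0 hW.W1 hW.Wm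
      (fun e => (mem_cone.1 e).1 rfl) h
    rw [hA.card_cone, Finset.card_singleton, mul_one, hWc] at h1
    have h2 := Finset.card_inter_add_card_sdiff B (EE K)
    have h3 : (B ∩ EE K).card ≤ 2 := by
      rw [← card_EE (K := K)]
      exact Finset.card_le_card Finset.inter_subset_right
    rw [hD.1 B hB] at h2
    obtain ⟨m, hm⟩ := h1
    rw [hm] at h2 ⊢
    have h4 : k % r = (B ∩ EE K).card := by
      rw [← h2, Nat.add_mul_mod_self_left]
      exact Nat.mod_eq_of_lt (by omega)
    omega
  have hn0 : k - k % r = 2 * r ∨ 2 * r < k - k % r := by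
    have h1 := Nat.div_add_mod k r
    have h2 : 2 ≤ k / r := by
      rw [Nat.le_div_iff_mul_le (by omega)]; omega
    rcases Nat.lt_or_ge 2 (k / r) with h3 | h3
    · right
      have := Nat.mul_lt_mul_of_pos_left h3 (show 0 < r by omega)
      omega
    · left
      have h4 : k / r = 2 := by omega
      rw [h4] at h1
      omega
  have hne : ∀ w ∈ rou K r, w ≠ 0 := fun w hw e => hW.W0 (e ▸ hw)
  rcases hn0 with hn0 | hn0
  · -- `κ = 2`
    by_contra hcon
    -- two elements in different cosets, with a reflection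
    obtain ⟨x, y, hx, hy, hxy, hR⟩ : ∃ x y : K, x ≠ 0 ∧ y ≠ 0 ∧ y / x ∉ rou K r ∧
        Pd (-(x * y)) := by
      obtain ⟨a, ha0, ha⟩ := exists_notMem (rou K r) (by rw [hWc]; omega)
      rcases kind_split hW.W0 hK hWP with h | ⟨hP, h⟩ | ⟨hP, h⟩
      · exact ⟨1, a, one_ne_zero, ha0, by rwa [div_one], h _ (mul_ne_zero one_ne_zero ha0)⟩
      · obtain ⟨b, hb0, hb⟩ := hP.ex
        exact ⟨1, b, one_ne_zero, hb0, by rw [div_one]; exact fun e => hb (hP.W b e),
          h _ (mul_ne_zero one_ne_zero hb0) (by rwa [one_mul])⟩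
      · -- more squares than `r`
        classical
        obtain ⟨b, hb0, hb⟩ := hP.ex
        have h5 : (univ.filter (fun u : K => u ≠ 0 ∧ ¬ Pd u)).card ≤
            (univ.filter (fun u : K => u ≠ 0 ∧ Pd u)).card := by
          rw [← Finset.card_image_of_injective _ (mul_right_injective₀ hb0)]
          refine Finset.card_le_card ?_
          rw [Finset.image_subset_iff]
          intro u hu
          rw [Finset.mem_filter] at hu ⊢
          exact ⟨Finset.mem_univ _, mul_ne_zero hb0 hu.2.1, hP.mul' _ _ hb0 hu.2.1 hb hu.2.2⟩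
        have e1 : (univ.erase (0 : K)).card = (univ.filter (fun u : K => u ≠ 0 ∧ Pd u)).card +
            (univ.filter (fun u : K => u ≠ 0 ∧ ¬ Pd u)).card := by
          rw [← Finset.card_filter_add_card_filter_not (s := univ.erase (0 : K)) (fun u => Pd u)]
          congr 2
          · ext u; simp
          · ext u; simp
        rw [Finset.card_erase_of_mem (Finset.mem_univ _), Finset.card_univ] at e1
        have h6 : 3 * 2 + (s + 1) ≤ Fintype.card K + 1 :=
          le_trans (Nat.add_le_add_right (Nat.mul_le_mul (by omega) (by omega)) _) hcam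
        obtain ⟨y, hy, hyW⟩ : ∃ y ∈ univ.filter (fun u : K => u ≠ 0 ∧ Pd u), y ∉ rou K r :=
          Finset.exists_mem_notMem_of_card_lt_card (by rw [hWc]; omega)
        rw [Finset.mem_filter] at hy
        exact ⟨1, y, one_ne_zero, hy.2.1, by rwa [div_one], h _ (mul_ne_zero one_ne_zero hy.2.1)
          (by rw [one_mul]; exact hy.2.2)⟩
    have htwo : (two (fun u : K => (u : OnePoint K)) ∅ (rou K r) x y).card = 2 * r := by
      rw [hA.card_two hW (by rw [Finset.singleton_subset_iff]; exact hW.W1) (r := r)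
        (by rw [hWc, Finset.card_singleton, mul_one]) (Finset.empty_subset _) hx hy hxy,
        Finset.card_empty, zero_add]
    obtain ⟨B, hB, hS⟩ := block_exists hD htwo
    have h1 := inv_block hD hG hA hW hWP (E' := ∅) (Finset.empty_subset _) hB hx hy htwo hS
    obtain ⟨-, h2, h3⟩ := hcl B hB h1
    have h4 : k = 2 * r + 1 := by omega
    have h5 : k % r = 1 := by
      rw [h4, Nat.add_comm, Nat.add_mul_mod_self_right]
      exact Nat.mod_eq_of_lt (by omega)
    rw [h5, Finset.card_eq_one] at h3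
    obtain ⟨p, hp⟩ := h3
    obtain ⟨g, hg, hgi, hg0, hgz⟩ := refl_split G Pd hGc (mul_ne_zero hx hy) hR
    have h6 := refl_block hD hW (φ := fun u : K => (u : OnePoint K)) (E' := ∅) g (hG g hg) hB
      (fun x hx => absurd hx (Finset.notMem_empty x)) hx hy hgz htwo hS
    have h7 : ∀ z, z ∈ B ∧ z ∈ EE K ↔ z = p := by
      intro z
      rw [← Finset.mem_inter, hp, Finset.mem_singleton]
    have h8 := (h7 p).2 rfl
    have h9 := h8.2
    simp only [EE, Finset.mem_insert, Finset.mem_singleton] at h9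
    rcases h9 with rfl | rfl
    · have h10 := (h7 ((0 : K) : OnePoint K)).1 ⟨by rw [← hgi]; exact h6 _ h8.1, by simp [EE]⟩
      exact OnePoint.coe_ne_infty _ h10
    · have h10 := (h7 OnePoint.infty).1 ⟨by rw [← hg0]; exact h6 _ h8.1, by simp [EE]⟩
      exact OnePoint.infty_ne_coe _ h10
  · exfalso
    rcases abs_main hD hG hA hW (by rw [Finset.singleton_subset_iff]; exact hW.W1) (r := r)
      (by rw [hWc, Finset.card_singleton, mul_one]) hWP (E' := ∅) (Or.inr rfl)
      (by rw [Finset.card_empty, zero_add]) (n₀ := k - k % r) hn0 (fun B hB _ h => (hcl B hB h).1)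
      (exists_notMem _ (by rw [hWc]; omega)) (kind_split hW.W0 hK hWP) with
      ⟨B, hB, -, hall⟩ | ⟨h1, h2⟩
    · have h3 : (Finset.univ \ EE K) ⊆ B := by
        intro x hx
        exact hall x (Finset.mem_sdiff.1 hx).2
      have h4 := Finset.card_le_card h3
      rw [Finset.card_sdiff_of_subset (Finset.subset_univ _), Finset.card_univ, card_line, card_EE,
        hD.1 B hB] at h4
      obtain ⟨m, hm⟩ : ∃ m, k = s + 3 + m := ⟨k - s - 3, by omega⟩
      rw [hm, show s + 3 + m - s = m + 3 by omega, show s + 3 + m - (s + 1) = m + 2 by omega] at hcam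
      have h5 : Fintype.card K + 1 ≤ s + 3 + m + 2 := by omega
      nlinarith
    · rw [hWc] at h2
      obtain ⟨m, hm⟩ : ∃ m, k = s + 2 * r + 2 + m := ⟨k - (s + 2 * r + 2), by omega⟩
      rw [hm, show s + 2 * r + 2 + m - s = 2 * r + 2 + m by omega,
        show s + 2 * r + 2 + m - (s + 1) = 2 * r + 1 + m by omega] at hcam
      have h7 : Fintype.card K + 1 ≤ 16 * r + 2 := by omega
      have h8 : (2 * r + 2) * (2 * r + 1) ≤ (2 * r + 2 + m) * (2 * r + 1 + m) :=
        Nat.mul_le_mul (by omega) (by omega)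
      nlinarith

end designs

end Pool.Agent.N86.S7
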