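import Pool.Agent.N86.S46.PGL

/-!
# Cameron's inequality for Steiner systems of any strength
-/

set_option autoImplicit false

namespace Pool.Agent.N86.S7

open Finset Pool.Agent.N86.S6

variable {X : Type*} [Fintype X] [DecidableEq X] {t k : ℕ} {𝓑 : Finset (Finset X)}

/-- **Cameron's inequality** for Steiner systems `S(s + 2, k, v)`, `k < v`. -/
theorem cameron_gen {s : ℕ} (hD : IsDesign (s + 2) k 1 𝓑) (hk : s + 2 ≤ k)
    (hv : k < Fintype.card X) : (k - s) * (k - (s + 1)) + (s + 1) ≤ Fintype.card X := by
  classical
  -- a block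
  obtain ⟨S0, -, hS0⟩ := Finset.exists_subset_card_eq
    (show s + 2 ≤ (univ : Finset X).card by rw [Finset.card_univ]; omega)
  obtain ⟨B, hB, hSB⟩ := block_exists hD hS0
  have hBk := hD.1 B hB
  -- a point outside
  obtain ⟨x, hx⟩ : ∃ x, x ∉ B := by
    by_contra h
    push Not at h
    have : B = univ := Finset.eq_univ_of_forall h
    rw [this, Finset.card_univ] at hBk
    omega
  -- `s` points of `B`
  obtain ⟨Q, hQB, hQ⟩ := Finset.exists_subset_card_eq (show s ≤ B.card by omega)
  have hxQ : x ∉ Q := fun h => hx (hQB h)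
  have hex : ∀ z, ∃ C : Finset X, z ∈ B \ Q → C ∈ 𝓑 ∧ insert z (insert x Q) ⊆ C := by
    intro z
    by_cases hz : z ∈ B \ Q
    · rw [Finset.mem_sdiff] at hz
      have hzx : z ∉ insert x Q := by
        rw [Finset.mem_insert]
        rintro (h | h)
        · rw [h] at hz; exact hx hz.1
        · exact hz.2 h
      have hc : (insert z (insert x Q)).card = s + 2 := by
        rw [Finset.card_insert_of_notMem hzx, Finset.card_insert_of_notMem hxQ, hQ]
      obtain ⟨C, h1, h2⟩ := block_exists hD hc
      exact ⟨C, fun _ => ⟨h1, h2⟩⟩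
    · exact ⟨∅, fun h => absurd h hz⟩
  choose C hC using hex
  have hdis : ∀ z ∈ B \ Q, ∀ z' ∈ B \ Q, z ≠ z' →
      Disjoint (C z \ insert x Q) (C z' \ insert x Q) := by
    intro z hz z' hz' hne
    rw [Finset.disjoint_left]
    intro w hw hw'
    rw [Finset.mem_sdiff] at hw hw'
    have h1 := hC z hz
    have h2 := hC z' hz'
    have hc : (insert w (insert x Q)).card = s + 2 := by
      rw [Finset.card_insert_of_notMem hw.2, Finset.card_insert_of_notMem hxQ, hQ]
    have heq : C z = C z' := by
      refine block_unique hD h1.1 h2.1 hc.ge ?_ ?_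
      · exact Finset.insert_subset hw.1 ((Finset.subset_insert _ _).trans h1.2)
      · exact Finset.insert_subset hw'.1 ((Finset.subset_insert _ _).trans h2.2)
    rw [Finset.mem_sdiff] at hz hz'
    have hzz : z ∉ insert z' Q := by
      rw [Finset.mem_insert]
      rintro (h | h)
      · exact hne h
      · exact hz.2 h
    have hc' : (insert z (insert z' Q)).card = s + 2 := by
      rw [Finset.card_insert_of_notMem hzz, Finset.card_insert_of_notMem hz'.2, hQ]
    have hQC : Q ⊆ C z := (Finset.subset_insert x Q).trans
      ((Finset.subset_insert z _).trans h1.2)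
    have h3 : C z = B := by
      refine block_unique hD h1.1 hB hc'.ge ?_ ?_
      · refine Finset.insert_subset (h1.2 (Finset.mem_insert_self _ _))
          (Finset.insert_subset ?_ hQC)
        rw [heq]
        exact h2.2 (Finset.mem_insert_self _ _)
      · exact Finset.insert_subset hz.1 (Finset.insert_subset hz'.1 hQB)
    apply hx
    rw [← h3]
    exact h1.2 (Finset.mem_insert_of_mem (Finset.mem_insert_self _ _))
  have hcard : ∀ z ∈ B \ Q, (C z \ insert x Q).card = k - (s + 1) := by
    intro z hz
    have h1 := hC z hz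
    rw [Finset.card_sdiff_of_subset ((Finset.subset_insert z _).trans h1.2), hD.1 _ h1.1,
      Finset.card_insert_of_notMem hxQ, hQ]
  have hU : ((B \ Q).biUnion (fun z => C z \ insert x Q)).card = (k - s) * (k - (s + 1)) := by
    rw [Finset.card_biUnion hdis, Finset.sum_congr rfl hcard, Finset.sum_const, smul_eq_mul,
      Finset.card_sdiff_of_subset hQB, hBk, hQ]
  have hle : ((B \ Q).biUnion (fun z => C z \ insert x Q)).card ≤
      (univ \ insert x Q : Finset X).card := by
    refine Finset.card_le_card ?_
    rw [Finset.biUnion_subset]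
    intro z _
    exact Finset.sdiff_subset_sdiff (Finset.subset_univ _) (Finset.Subset.refl _)
  rw [hU, Finset.card_sdiff_of_subset (Finset.subset_univ _), Finset.card_univ,
    Finset.card_insert_of_notMem hxQ, hQ] at hle
  omega

end Pool.Agent.N86.S7
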