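import Pool.Agent.N86.S7.Tits

/-!
# Steiner systems on a cyclic group with reflections preserving the classes: small blocks
-/

set_option autoImplicit false

namespace Pool.Agent.N86.S7

open Finset Pool.Agent.N86.S4 Pool.Agent.N86.S46

variable {F : Type*} [Field F] [DecidableEq F]

/-- a set which is closed under multiplication by the group `W` is a union of cosets -/
lemma W_dvd (W D : Finset F) (hW0 : (0 : F) ∉ W) (hW1 : (1 : F) ∈ W)
    (hWm : ∀ x ∈ W, ∀ y ∈ W, x * y ∈ W) (hD0 : (0 : F) ∉ D)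
    (hDW : ∀ w ∈ W, ∀ x ∈ D, w * x ∈ D) : W.card ∣ D.card := by
  refine dvd_of_fibres D (fun u => u ^ W.card) W.card ?_
  intro y hy
  have hy0 : y ≠ 0 := fun e => hD0 (e ▸ hy)
  have h1 : D.filter (fun z => z ^ W.card = y ^ W.card) = W.image (fun w => w * y) := by
    ext z
    rw [Finset.mem_filter, Finset.mem_image]
    constructor
    · rintro ⟨hz, h⟩
      refine ⟨z / y, ?_, by field_simp⟩
      refine mem_of_pow W hW0 ⟨1, hW1⟩ hWm ?_
      rw [div_pow, h, div_self (pow_ne_zero _ hy0)]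
    · rintro ⟨w, hw, rfl⟩
      refine ⟨hDW w hw y hy, ?_⟩
      rw [mul_pow, pow_card_eq_one W hW0 hWm w hw, one_mul]
  show (D.filter (fun z => z ^ W.card = y ^ W.card)).card = W.card
  rw [h1, Finset.card_image_of_injective _ (mul_left_injective₀ hy0)]

variable {W : Finset F} {𝓓 : Set (Finset F)} {κ : ℕ} {P : F → Prop}

/-- the structure of a big block with reflections preserving the classes -/
theorem big_str (h : Torus W 𝓓 κ) (hP : IsClass W P) {D : Finset F} (hD : D ∈ 𝓓)
    (hbig : 2 * W.card < (dpos P D).card ∨ 2 * W.card < (dneg P D).card)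
    (href : ∀ x ∈ D, ∀ y ∈ D, y / x ∉ W → (P x ↔ P y) → ∀ z ∈ D, x * y / z ∈ D)
    (h1 : (1 : F) ∈ D) : (∀ x ∈ dpos P D, ∀ y ∈ dpos P D, x * y ∈ dpos P D) ∧
      2 * W.card < (dpos P D).card ∧
      ((dneg P D = ∅ ∧ (dpos P D).card = κ) ∨ 2 * (dpos P D).card = κ) := by
  have hne0 : ∀ D ∈ 𝓓, ∀ x ∈ D, x ≠ 0 := fun D hD x hx e => h.D0 D hD (e ▸ hx)
  have hinvW : ∀ x ∈ W, x⁻¹ ∈ W := fun x hx => h.inv hx
  have hp1 : (1 : F) ∈ dpos P D := mem_dpos.2 ⟨h1, hP.one⟩
  have htp : ∀ x ∈ dpos P D, ∀ y ∈ dpos P D, y / x ∉ W → ∀ z ∈ D, x * y / z ∈ D := by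
    intro x hx y hy hxy z hz
    rw [mem_dpos] at hx hy
    exact href x hx.1 y hy.1 hxy (iff_of_true hx.2 hy.2) z hz
  have htn : ∀ x ∈ dneg P D, ∀ y ∈ dneg P D, y / x ∉ W → ∀ z ∈ D, x * y / z ∈ D := by
    intro x hx y hy hxy z hz
    rw [mem_dneg] at hx hy
    exact href x hx.1 y hy.1 hxy (iff_of_false hx.2 hy.2) z hz
  have hneg : 2 * W.card < (dneg P D).card → (dneg P D).card ≤ (dpos P D).card := by
    intro h3
    obtain ⟨u, hu⟩ := Finset.card_pos.1 (show 0 < (dneg P D).card by omega)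
    have hu' := mem_dneg.1 hu
    have hu0 := hne0 D hD u hu'.1
    have h4 := closure_W W hinvW (dneg P D) D (fun e => h.D0 D hD (mem_dneg.1 e).1) (h.D0 D hD)
      (h.DW D hD) h3 htn
    have hinj : Function.Injective (fun z : F => z / u) := by
      intro a b hab
      simp only at hab
      rw [div_eq_mul_inv, div_eq_mul_inv] at hab
      exact mul_right_cancel₀ (inv_ne_zero hu0) hab
    rw [← Finset.card_image_of_injective (dneg P D) hinj]
    refine Finset.card_le_card ?_
    rw [Finset.image_subset_iff]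
    intro z hz
    have h5 := h4 z hz u hu 1 h1
    rw [mul_one] at h5
    refine mem_dpos.2 ⟨h5, ?_⟩
    have hz' := mem_dneg.1 hz
    have hz0 := hne0 D hD z hz'.1
    show P (z / u)
    rw [div_eq_mul_inv]
    exact hP.mul' _ _ hz0 (inv_ne_zero hu0) hz'.2 (fun e => hu'.2 ((hP.inv hu0).1 e))
  have h3 : 2 * W.card < (dpos P D).card := by
    rcases hbig with hc | hc
    · exact hc
    · exact hc.trans_le (hneg hc)
  have h4 := closure_W W hinvW (dpos P D) D (fun e => h.D0 D hD (mem_dpos.1 e).1) (h.D0 D hD)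
      (h.DW D hD) h3 htp
  have hmul : ∀ x ∈ dpos P D, ∀ z ∈ D, x * z ∈ D := by
    intro x hx z hz
    have := h4 x hx 1 hp1 z hz
    rwa [div_one] at this
  refine ⟨fun x hx y hy => mem_dpos.2 ⟨hmul x hx y (mem_dpos.1 hy).1,
    hP.mul _ _ (hne0 D hD x (mem_dpos.1 hx).1) (hne0 D hD y (mem_dpos.1 hy).1)
      (mem_dpos.1 hx).2 (mem_dpos.1 hy).2⟩, h3, ?_⟩
  have e1 := card_dpos_dneg (P := P) D
  have e2 := h.Dc D hD
  by_cases hne : dneg P D = ∅
  · left
    rw [hne, Finset.card_empty] at e1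
    exact ⟨hne, by omega⟩
  · right
    obtain ⟨u, hu⟩ := Finset.nonempty_iff_ne_empty.2 hne
    have hu' := mem_dneg.1 hu
    have hu0 := hne0 D hD u hu'.1
    have hinj : Function.Injective (fun z : F => z * u) := mul_left_injective₀ hu0
    have h5 : (dpos P D).card ≤ (dneg P D).card := by
      rw [← Finset.card_image_of_injective (dpos P D) hinj]
      refine Finset.card_le_card ?_
      rw [Finset.image_subset_iff]
      intro z hz
      refine mem_dneg.2 ⟨hmul z hz u hu'.1, ?_⟩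
      exact hP.mul'' _ _ (hne0 D hD z (mem_dpos.1 hz).1) hu0 (mem_dpos.1 hz).2 hu'.2
    have h6 := hneg (h3.trans_le h5)
    omega

section fin
variable [Fintype F]

/-- the elements outside `W` are partitioned by the members through `1` -/
lemma torus_count (h : Torus W 𝓓 κ) (Q : F → Prop) [DecidablePred Q] [DecidablePred (· ∈ 𝓓)] :
    (univ.filter (fun u : F => u ≠ 0 ∧ u ∉ W ∧ Q u)).card =
      ∑ D ∈ univ.filter (fun D : Finset F => D ∈ 𝓓 ∧ (1 : F) ∈ D),
        (D.filter (fun u => u ∉ W ∧ Q u)).card := by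
  rw [← Finset.card_biUnion]
  · congr 1
    ext u
    rw [Finset.mem_filter, Finset.mem_biUnion]
    constructor
    · rintro ⟨-, hu0, huW, hQ⟩
      obtain ⟨D, hD, h1, hu⟩ := h.ex 1 u one_ne_zero hu0 (by rwa [div_one])
      exact ⟨D, Finset.mem_filter.2 ⟨Finset.mem_univ _, hD, h1⟩,
        Finset.mem_filter.2 ⟨hu, huW, hQ⟩⟩
    · rintro ⟨D, hD, hu⟩
      rw [Finset.mem_filter] at hD hu
      exact ⟨Finset.mem_univ _, fun e => h.D0 D hD.2.1 (e ▸ hu.1), hu.2⟩
  · intro D hD D' hD' hne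
    show Disjoint (D.filter (fun u => u ∉ W ∧ Q u)) (D'.filter (fun u => u ∉ W ∧ Q u))
    rw [Finset.disjoint_left]
    intro u hu hu'
    rw [Finset.mem_coe, Finset.mem_filter] at hD hD'
    rw [Finset.mem_filter] at hu hu'
    exact hne (h.un D hD.2.1 D' hD'.2.1 1 u hD.2.2 hu.1 hD'.2.2 hu'.1 (by rw [div_one]; exact hu.2.1))

/-- reflections preserving the classes -/
theorem torus_three (hW : 0 < W.card) (h : Torus W 𝓓 (κ * W.card)) (hP : IsClass W P)
    (hκ : 3 ≤ κ)
    (href : ∀ D ∈ 𝓓, ∀ x ∈ D, ∀ y ∈ D, y / x ∉ W → (P x ↔ P y) → ∀ z ∈ D, x * y / z ∈ D) :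
    (∃ D ∈ 𝓓, ∀ x : F, x ≠ 0 → x ∈ D) ∨ (κ = 4 ∧ Fintype.card F - 1 ≤ 16 * W.card) := by
  classical
  have hne0 : ∀ D ∈ 𝓓, ∀ x ∈ D, x ≠ 0 := fun D hD x hx e => h.D0 D hD (e ▸ hx)
  have hW0 : ∀ w ∈ W, w ≠ 0 := fun w hw e => h.W0 (e ▸ hw)
  -- the classes of a member
  have hdiv : ∀ D ∈ 𝓓, ∃ a b, (dpos P D).card = a * W.card ∧ (dneg P D).card = b * W.card ∧
      a + b = κ := by
    intro D hD
    obtain ⟨a, ha⟩ := W_dvd W (dpos P D) h.W0 h.W1 h.Wm (fun e => h.D0 D hD (mem_dpos.1 e).1) (by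
      intro w hw x hx
      rw [mem_dpos] at hx ⊢
      exact ⟨h.DW D hD w hw x hx.1, hP.mul _ _ (hW0 w hw) (hne0 D hD x hx.1) (hP.W w hw) hx.2⟩)
    obtain ⟨b, hb⟩ := W_dvd W (dneg P D) h.W0 h.W1 h.Wm (fun e => h.D0 D hD (mem_dneg.1 e).1) (by
      intro w hw x hx
      rw [mem_dneg] at hx ⊢
      exact ⟨h.DW D hD w hw x hx.1, hP.mul'' _ _ (hW0 w hw) (hne0 D hD x hx.1) (hP.W w hw) hx.2⟩)
    refine ⟨a, b, by rw [ha, mul_comm], by rw [hb, mul_comm], ?_⟩
    have e1 := card_dpos_dneg (P := P) D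
    rw [h.Dc D hD, ha, hb, ← mul_add, mul_comm] at e1
    exact Nat.eq_of_mul_eq_mul_right hW e1
  by_cases hbig : ∀ D ∈ 𝓓, 2 * W.card < (dpos P D).card ∨ 2 * W.card < (dneg P D).card
  · exact Or.inl (full_three h hP hbig href)
  push Not at hbig
  obtain ⟨D₀, hD₀, hs1, hs2⟩ := hbig
  obtain ⟨a, b, ha, hb, hab⟩ := hdiv D₀ hD₀
  rw [ha] at hs1
  rw [hb] at hs2
  have ha2 := Nat.le_of_mul_le_mul_right hs1 hW
  have hb2 := Nat.le_of_mul_le_mul_right hs2 hW
  -- the classes of the field have the same number of elements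
  have hPQ : (univ.filter (fun u : F => u ≠ 0 ∧ P u)).card =
      (univ.filter (fun u : F => u ≠ 0 ∧ ¬ P u)).card := by
    obtain ⟨c, hc0, hc⟩ := hP.ex
    apply le_antisymm
    · rw [← Finset.card_image_of_injective _ (mul_right_injective₀ hc0)]
      refine Finset.card_le_card ?_
      rw [Finset.image_subset_iff]
      intro u hu
      rw [Finset.mem_filter] at hu ⊢
      refine ⟨Finset.mem_univ _, mul_ne_zero hc0 hu.2.1, ?_⟩
      show ¬ P (c * u)
      rw [mul_comm]
      exact hP.mul'' _ _ hu.2.1 hc0 hu.2.2 hc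
    · rw [← Finset.card_image_of_injective _ (mul_right_injective₀ hc0)]
      refine Finset.card_le_card ?_
      rw [Finset.image_subset_iff]
      intro u hu
      rw [Finset.mem_filter] at hu ⊢
      exact ⟨Finset.mem_univ _, mul_ne_zero hc0 hu.2.1, hP.mul' _ _ hc0 hu.2.1 hc hu.2.2⟩
  obtain ⟨m, hm⟩ : W.card ∣ (univ.filter (fun u : F => u ≠ 0 ∧ P u)).card := by
    refine W_dvd W _ h.W0 h.W1 h.Wm ?_ ?_
    · intro e
      rw [Finset.mem_filter] at e
      exact e.2.1 rfl
    · intro w hw x hx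
      rw [Finset.mem_filter] at hx ⊢
      exact ⟨Finset.mem_univ _, mul_ne_zero (hW0 w hw) hx.2.1,
        hP.mul _ _ (hW0 w hw) hx.2.1 (hP.W w hw) hx.2.2⟩
  have hm' := hPQ.symm.trans hm
  have htot : Fintype.card F - 1 = 2 * (m * W.card) := by
    have e1 : (univ.erase (0 : F)).card = (univ.filter (fun u : F => u ≠ 0 ∧ P u)).card +
        (univ.filter (fun u : F => u ≠ 0 ∧ ¬ P u)).card := by
      rw [← Finset.card_filter_add_card_filter_not (s := univ.erase (0 : F)) (fun u => P u)]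
      congr 2
      · ext u; simp
      · ext u; simp
    rw [Finset.card_erase_of_mem (Finset.mem_univ _), Finset.card_univ, hm, hm'] at e1
    rw [e1]; ring
  -- the counts at `1`
  have hsubW : ∀ D ∈ 𝓓, (1 : F) ∈ D → W ⊆ D := by
    intro D hD h1 w hw
    have := h.DW D hD w hw 1 h1
    rwa [mul_one] at this
  have hcp := torus_count h (fun u => P u)
  have hcn := torus_count h (fun u => ¬ P u)
  set 𝓢 := univ.filter (fun D : Finset F => D ∈ 𝓓 ∧ (1 : F) ∈ D) with h𝓢
  have hposc : ∀ D ∈ 𝓢, (D.filter (fun u => u ∉ W ∧ P u)).card + W.card = (dpos P D).card := by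
    intro D hD
    rw [h𝓢, Finset.mem_filter] at hD
    have e1 : D.filter (fun u => u ∉ W ∧ P u) = dpos P D \ W := by
      ext u
      rw [Finset.mem_filter, Finset.mem_sdiff, mem_dpos]
      tauto
    have e2 : W ⊆ dpos P D := fun w hw => mem_dpos.2 ⟨hsubW D hD.2.1 hD.2.2 hw, hP.W w hw⟩
    rw [e1, Finset.card_sdiff_of_subset e2]
    have := Finset.card_le_card e2
    omega
  have hnegc : ∀ D ∈ 𝓢, (D.filter (fun u => u ∉ W ∧ ¬ P u)).card = (dneg P D).card := by
    intro D hD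
    congr 1
    ext u
    rw [Finset.mem_filter, mem_dneg]
    constructor
    · exact fun e => ⟨e.1, e.2.2⟩
    · exact fun e => ⟨e.1, fun e' => e.2 (hP.W u e'), e.2⟩
  have htp : (univ.filter (fun u : F => u ≠ 0 ∧ u ∉ W ∧ P u)).card + W.card = m * W.card := by
    have e1 : univ.filter (fun u : F => u ≠ 0 ∧ u ∉ W ∧ P u) =
        univ.filter (fun u : F => u ≠ 0 ∧ P u) \ W := by
      ext u
      simp only [Finset.mem_filter, Finset.mem_univ, true_and, Finset.mem_sdiff]
      tauto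
    have e2 : W ⊆ univ.filter (fun u : F => u ≠ 0 ∧ P u) := fun w hw =>
      Finset.mem_filter.2 ⟨Finset.mem_univ _, hW0 w hw, hP.W w hw⟩
    have e3 := Finset.card_le_card e2
    rw [e1, Finset.card_sdiff_of_subset e2]
    rw [hm] at e3 ⊢
    rw [mul_comm m]
    omega
  have htn : (univ.filter (fun u : F => u ≠ 0 ∧ u ∉ W ∧ ¬ P u)).card = m * W.card := by
    rw [mul_comm m, ← hm']
    congr 1
    ext u
    simp only [Finset.mem_filter, Finset.mem_univ, true_and]
    constructor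
    · exact fun e => ⟨e.1, e.2.2⟩
    · exact fun e => ⟨e.1, fun e' => e.2 (hP.W u e'), e.2⟩
  rw [htn, Finset.sum_congr rfl hnegc] at hcn
  have hcp' : m * W.card = ∑ D ∈ 𝓢, (D.filter (fun u => u ∉ W ∧ P u)).card + W.card := by
    rw [← hcp, htp]
  -- sum of both
  have hκ4 : κ = 3 ∨ κ = 4 := by omega
  rcases hκ4 with hκ3 | hκ4
  · exfalso
    have e1 : ∑ D ∈ 𝓢, ((D.filter (fun u => u ∉ W ∧ P u)).card + (dneg P D).card) =
        𝓢.card * (2 * W.card) := by
      rw [← smul_eq_mul, ← Finset.sum_const]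
      refine Finset.sum_congr rfl fun D hD => ?_
      have e2 := hposc D hD
      rw [h𝓢, Finset.mem_filter] at hD
      have e3 := card_dpos_dneg (P := P) D
      rw [h.Dc D hD.2.1, hκ3] at e3
      omega
    rw [Finset.sum_add_distrib] at e1
    have e4 : 2 * (m * W.card) = (2 * 𝓢.card + 1) * W.card := by
      have : (2 * 𝓢.card + 1) * W.card = 𝓢.card * (2 * W.card) + W.card := by ring
      omega
    rw [← mul_assoc] at e4
    have e5 := Nat.eq_of_mul_eq_mul_right hW e4
    omega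
  · right
    refine ⟨hκ4, ?_⟩
    -- the blocks through `1`
    have hstr : ∀ D ∈ 𝓢, ((dpos P D).card = 2 * W.card ∧ (dneg P D).card = 2 * W.card) ∨
        (dneg P D = ∅ ∧ (dpos P D).card = 4 * W.card ∧
          ∀ x ∈ dpos P D, ∀ y ∈ dpos P D, x * y ∈ dpos P D) := by
      intro D hD
      rw [h𝓢, Finset.mem_filter] at hD
      obtain ⟨a, b, ha, hb, hab⟩ := hdiv D hD.2.1
      by_cases hb1 : 2 * W.card < (dpos P D).card ∨ 2 * W.card < (dneg P D).card
      · right
        obtain ⟨h1, h2, h3⟩ := big_str h hP hD.2.1 hb1 (href D hD.2.1) hD.2.2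
        rcases h3 with ⟨h3, h4⟩ | h3
        · exact ⟨h3, by rw [h4, hκ4], h1⟩
        · exfalso
          rw [hκ4] at h3
          omega
      · left
        push Not at hb1
        rw [ha, hb] at hb1
        have h1 := Nat.le_of_mul_le_mul_right hb1.1 hW
        have h2 := Nat.le_of_mul_le_mul_right hb1.2 hW
        have h3 : a = 2 := by omega
        have h4 : b = 2 := by omega
        rw [ha, hb, h3, h4]
        exact ⟨rfl, rfl⟩
    have hbd : 2 * ∑ D ∈ 𝓢, (D.filter (fun u => u ∉ W ∧ P u)).card ≤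
        ∑ D ∈ 𝓢, (dneg P D).card + 6 * W.card := by
      -- at most one big block
      have hone : (𝓢.filter (fun D => dneg P D = ∅)).card ≤ 1 := by
        rw [Finset.card_le_one]
        intro D hD D' hD'
        rw [Finset.mem_filter] at hD hD'
        have key : ∀ D ∈ 𝓢, dneg P D = ∅ → (dpos P D).card = 4 * W.card ∧
            (∀ x ∈ dpos P D, ∀ y ∈ dpos P D, x * y ∈ dpos P D) ∧ D = dpos P D := by
          intro D hD he
          rcases hstr D hD with ⟨-, h2⟩ | ⟨-, h2, h3⟩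
          · rw [he, Finset.card_empty] at h2
            omega
          · refine ⟨h2, h3, ?_⟩
            ext u
            rw [mem_dpos]
            refine ⟨fun hu => ⟨hu, ?_⟩, fun hu => hu.1⟩
            by_contra hcon
            have : u ∈ dneg P D := mem_dneg.2 ⟨hu, hcon⟩
            rw [he] at this
            exact Finset.notMem_empty _ this
        obtain ⟨k1, k2, k3⟩ := key D hD.1 hD.2
        obtain ⟨k1', k2', k3'⟩ := key D' hD'.1 hD'.2
        have hm1 := hD.1
        have hm1' := hD'.1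
        rw [h𝓢, Finset.mem_filter] at hm1 hm1'
        rw [k3, k3']
        refine Finset.eq_of_subset_of_card_le ?_ (by rw [k1, k1'])
        refine subset_of_dvd _ _ (fun e => h.D0 D hm1.2.1 (mem_dpos.1 e).1)
          (fun e => h.D0 D' hm1'.2.1 (mem_dpos.1 e).1)
          ⟨1, mem_dpos.2 ⟨hm1'.2.2, hP.one⟩⟩ k2 k2' (by rw [k1, k1'])
      rw [Finset.mul_sum, ← Finset.sum_filter_add_sum_filter_not 𝓢 (fun D => dneg P D = ∅)
        (fun D => 2 * (D.filter (fun u => u ∉ W ∧ P u)).card),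
        ← Finset.sum_filter_add_sum_filter_not 𝓢 (fun D => dneg P D = ∅)
        (fun D => (dneg P D).card)]
      have e1 : ∑ D ∈ 𝓢.filter (fun D => dneg P D = ∅),
          2 * (D.filter (fun u => u ∉ W ∧ P u)).card ≤ 6 * W.card := by
        have e2 : ∀ D ∈ 𝓢.filter (fun D => dneg P D = ∅),
            2 * (D.filter (fun u => u ∉ W ∧ P u)).card ≤ 6 * W.card := by
          intro D hD
          rw [Finset.mem_filter] at hD
          have e3 := hposc D hD.1
          rcases hstr D hD.1 with ⟨-, h2⟩ | ⟨-, h2, -⟩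
          · rw [hD.2, Finset.card_empty] at h2
            omega
          · omega
        refine (Finset.sum_le_card_nsmul _ _ _ e2).trans ?_
        rw [smul_eq_mul]
        calc _ ≤ 1 * (6 * W.card) := Nat.mul_le_mul_right _ hone
          _ = _ := one_mul _
      have e4 : ∑ D ∈ 𝓢.filter (fun D => ¬ dneg P D = ∅),
          2 * (D.filter (fun u => u ∉ W ∧ P u)).card =
          ∑ D ∈ 𝓢.filter (fun D => ¬ dneg P D = ∅), (dneg P D).card := by
        refine Finset.sum_congr rfl fun D hD => ?_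
        rw [Finset.mem_filter] at hD
        have e3 := hposc D hD.1
        rcases hstr D hD.1 with ⟨h1, h2⟩ | ⟨h1, -, -⟩
        · omega
        · exact absurd h1 hD.2
      omega
    rw [htot]
    omega

end fin

end Pool.Agent.N86.S7
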