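import Pool.Agent.N86.S7.OddT

/-!
# Steiner systems on the projective line: groups of translations
-/

set_option autoImplicit false

namespace Pool.Agent.N86.S7

open Finset Matrix Pool.Agent.N86.S6 Pool.Agent.N86.S4 Pool.Agent.N86.S46

universe u

section add
variable {K : Type u} [Field K] [DecidableEq K] [Fintype K]

/-- a collection of unions of cosets of `U` such that any two elements in different cosets are in
exactly one member -/
structure AddTorus (U : AddSubgroup K) (𝓓 : Set (Finset K)) (κ : ℕ) : Prop where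
  Dc : ∀ D ∈ 𝓓, D.card = κ
  DU : ∀ D ∈ 𝓓, ∀ u ∈ U, ∀ x ∈ D, x + u ∈ D
  ex : ∀ x y : K, y - x ∉ U → ∃ D ∈ 𝓓, x ∈ D ∧ y ∈ D
  un : ∀ D ∈ 𝓓, ∀ D' ∈ 𝓓, ∀ x y : K, x ∈ D → y ∈ D → x ∈ D' → y ∈ D' → y - x ∉ U → D = D'

/-- the elements of `U` -/
noncomputable def elts (U : AddSubgroup K) : Finset K := by
  classical exact univ.filter (fun x => x ∈ U)

omit [DecidableEq K] in
lemma mem_elts {U : AddSubgroup K} {x : K} : x ∈ elts U ↔ x ∈ U := by
  classical
  unfold elts
  rw [Finset.mem_filter]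
  exact ⟨fun h => h.2, fun h => ⟨Finset.mem_univ _, h⟩⟩

omit [DecidableEq K] in
lemma card_elts (U : AddSubgroup K) : (elts U).card = Nat.card U := by
  classical
  have h : Nat.card U = Nat.card {x // x ∈ elts U} :=
    Nat.card_congr (Equiv.subtypeEquivRight fun x => mem_elts.symm)
  rw [h, Nat.card_eq_fintype_card, Fintype.card_coe]

/-- a union of cosets -/
lemma U_dvd (U : AddSubgroup K) (D : Finset K) (hD : ∀ u ∈ U, ∀ x ∈ D, x + u ∈ D) :
    (elts U).card ∣ D.card := by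
  classical
  refine dvd_of_fibres D (fun z => (QuotientAddGroup.mk z : K ⧸ U)) (elts U).card ?_
  intro y hy
  have h1 : D.filter (fun z => (QuotientAddGroup.mk z : K ⧸ U) = QuotientAddGroup.mk y) =
      (elts U).image (fun u => y + u) := by
    ext z
    rw [Finset.mem_filter, Finset.mem_image]
    constructor
    · rintro ⟨hz, h⟩
      rw [eq_comm, QuotientAddGroup.eq] at h
      exact ⟨-y + z, mem_elts.2 h, by abel⟩
    · rintro ⟨u, hu, rfl⟩
      refine ⟨hD u (mem_elts.1 hu) y hy, ?_⟩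
      rw [eq_comm, QuotientAddGroup.eq, neg_add_cancel_left]
      exact mem_elts.1 hu
  show (D.filter (fun z => (QuotientAddGroup.mk z : K ⧸ U) = QuotientAddGroup.mk y)).card = _
  rw [h1, Finset.card_image_of_injective _ (add_right_injective y)]

variable {U : AddSubgroup K} {𝓓 : Set (Finset K)} {κ : ℕ}

lemma addtorus_div (h : AddTorus U 𝓓 κ) :
    κ - (elts U).card ∣ Fintype.card K - (elts U).card := by
  classical
  have h1 : (univ \ elts U : Finset K) =
      (univ.filter (fun D : Finset K => D ∈ 𝓓 ∧ (0 : K) ∈ D)).biUnion (fun D => D \ elts U) := by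
    ext u
    rw [Finset.mem_sdiff, Finset.mem_biUnion, mem_elts]
    constructor
    · rintro ⟨-, hu⟩
      obtain ⟨D, hD, h0, hu'⟩ := h.ex 0 u (by rwa [sub_zero])
      exact ⟨D, Finset.mem_filter.2 ⟨Finset.mem_univ _, hD, h0⟩,
        Finset.mem_sdiff.2 ⟨hu', by rwa [mem_elts]⟩⟩
    · rintro ⟨D, -, hu⟩
      rw [Finset.mem_sdiff, mem_elts] at hu
      exact ⟨Finset.mem_univ _, hu.2⟩
  have h2 := congrArg Finset.card h1
  rw [Finset.card_sdiff_of_subset (Finset.subset_univ _), Finset.card_univ,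
    Finset.card_biUnion] at h2
  · rw [h2]
    refine Finset.dvd_sum ?_
    intro D hD
    rw [Finset.mem_filter] at hD
    have e4 : elts U ⊆ D := by
      intro w hw
      have := h.DU D hD.2.1 w (mem_elts.1 hw) 0 hD.2.2
      rwa [zero_add] at this
    rw [Finset.card_sdiff_of_subset e4, h.Dc D hD.2.1]
  · intro D hD D' hD' hne
    show Disjoint (D \ elts U) (D' \ elts U)
    rw [Finset.disjoint_left]
    intro u hu hu'
    rw [Finset.mem_coe, Finset.mem_filter] at hD hD'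
    rw [Finset.mem_sdiff, mem_elts] at hu hu'
    exact hne (h.un D hD.2.1 D' hD'.2.1 0 u hD.2.2 hu.1 hD'.2.2 hu'.1 (by rw [sub_zero]; exact hu.2))

/-- with all the reflections the members through `0` are groups -/
lemma addtorus_grp (h : AddTorus U 𝓓 κ) (hκ : 2 * (elts U).card < κ)
    (href : ∀ D ∈ 𝓓, ∀ x ∈ D, ∀ y ∈ D, y - x ∉ U → ∀ z ∈ D, x + y - z ∈ D)
    {D : Finset K} (hD : D ∈ 𝓓) (h0 : (0 : K) ∈ D) : ∀ x ∈ D, ∀ z ∈ D, x + z ∈ D := by
  classical
  intro x hx z hz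
  obtain ⟨n, hn, hn2⟩ : ∃ n ∈ D, n ∉ elts U ∪ (elts U).image (fun u => x + u) := by
    refine Finset.exists_mem_notMem_of_card_lt_card (lt_of_le_of_lt ?_
      (show 2 * (elts U).card < D.card by rw [h.Dc D hD]; exact hκ))
    refine (Finset.card_union_le _ _).trans ?_
    have h1 := Finset.card_image_le (s := elts U) (f := fun u => x + u)
    omega
  simp only [Finset.mem_union, Finset.mem_image, not_or, not_exists, not_and, mem_elts] at hn2
  have h1 := href D hD 0 h0 n hn (by rw [sub_zero]; exact hn2.1) z hz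
  have h2 := href D hD x hx n hn (fun e => hn2.2 _ e (by ring)) _ h1
  have h3 : x + n - (0 + n - z) = x + z := by ring
  rwa [h3] at h2

/-- the order of a member -/
lemma addtorus_pow (h : AddTorus U 𝓓 κ) (hκ : 2 * (elts U).card < κ)
    (href : ∀ D ∈ 𝓓, ∀ x ∈ D, ∀ y ∈ D, y - x ∉ U → ∀ z ∈ D, x + y - z ∈ D)
    {p e j : ℕ} (hp : p.Prime) (hq : Fintype.card K = p ^ e) (hU : (elts U).card = p ^ j)
    (hne : ∃ a : K, a ∉ U) : ∃ m, κ = p ^ m ∧ j < m ∧ (m - j) ∣ (e - j) := by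
  classical
  obtain ⟨a, ha⟩ := hne
  obtain ⟨D, hD, h0, -⟩ := h.ex 0 a (by rwa [sub_zero])
  have hadd := addtorus_grp h hκ href hD h0
  have hpos : 0 < (elts U).card := Finset.card_pos.2 ⟨0, mem_elts.2 U.zero_mem⟩
  let G : AddSubgroup K := AddSubgroup.ofSub D ⟨0, h0⟩ (by
    -- closed under subtraction: finite
    intro x hx y hy
    have hneg : -y ∈ D := by
      have key : ∀ n : ℕ, (n + 1) • y ∈ D := by
        intro n
        induction n with
        | zero => simpa using hy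
        | succ n ih => rw [succ_nsmul]; exact hadd _ ih _ hy
      have h1 : Fintype.card K • y = 0 := card_nsmul_eq_zero
      obtain ⟨m, hm⟩ : ∃ m, Fintype.card K = m + 2 := ⟨Fintype.card K - 2, by
        have := Fintype.one_lt_card (α := K); omega⟩
      have h2 := key m
      have h3 : (m + 1) • y = -y := by
        rw [hm, show m + 2 = (m + 1) + 1 by ring, succ_nsmul] at h1
        exact eq_neg_of_add_eq_zero_left h1
      rwa [h3] at h2
    exact hadd x hx _ hneg)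
  have hGc : Nat.card G = κ := by
    have e1 : Nat.card G = Nat.card {x // x ∈ D} := rfl
    rw [e1, Nat.card_eq_fintype_card, Fintype.card_coe, h.Dc D hD]
  have hG2 := AddSubgroup.card_addSubgroup_dvd_card G
  rw [hGc, Nat.card_eq_fintype_card, hq] at hG2
  obtain ⟨m, hme, hm⟩ := (Nat.dvd_prime_pow hp).1 hG2
  have hjm : j < m := by
    by_contra hcon
    have := Nat.pow_le_pow_right hp.one_lt.le (show m ≤ j by omega)
    omega
  refine ⟨m, hm, hjm, ?_⟩
  have h5 := addtorus_div h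
  rw [hU, hq, hm] at h5
  obtain ⟨m', rfl⟩ : ∃ m', m = j + m' := ⟨m - j, by omega⟩
  obtain ⟨e', rfl⟩ : ∃ e', e = j + e' := ⟨e - j, by omega⟩
  have e1 : ∀ n, p ^ (j + n) - p ^ j = p ^ j * (p ^ n - 1) := by
    intro n
    rw [pow_add, Nat.mul_sub, mul_one]
  rw [e1, e1] at h5
  have h6 := Nat.dvd_of_mul_dvd_mul_left (Nat.pow_pos hp.pos) h5
  have h7 := Nat.pow_sub_one_gcd_pow_sub_one p m' e'
  rw [Nat.gcd_eq_left h6] at h7
  have h8 : p ^ m' = p ^ m'.gcd e' := by
    have e1 : 0 < p ^ m' := Nat.pow_pos hp.pos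
    have e2 : 0 < p ^ m'.gcd e' := Nat.pow_pos hp.pos
    omega
  have h9 := Nat.pow_right_injective hp.two_le h8
  rw [Nat.add_sub_cancel_left, Nat.add_sub_cancel_left]
  have h10 : m'.gcd e' ∣ e' := Nat.gcd_dvd_right _ _
  rwa [← h9] at h10

/-- a group of translations of each order -/
lemma exists_sub {p e : ℕ} (hp : p.Prime) (hq : Fintype.card K = p ^ e) (j : ℕ) (hj : j ≤ e) :
    ∃ U : AddSubgroup K, (elts U).card = p ^ j := by
  have : Fact p.Prime := ⟨hp⟩
  obtain ⟨H, hH⟩ := Sylow.exists_subgroup_card_pow_prime (G := Multiplicative K) p (n := j) (by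
    rw [Nat.card_eq_fintype_card, Fintype.card_multiplicative, hq]
    exact pow_dvd_pow p hj)
  refine ⟨Subgroup.toAddSubgroup' H, ?_⟩
  rw [card_elts, ← hH]
  rfl

/-- there are unions of any number of cosets -/
lemma exists_closedU (U : AddSubgroup K) (m : ℕ) (hm : m * (elts U).card ≤ Fintype.card K) :
    ∃ A : Finset K, (∀ u ∈ U, ∀ x ∈ A, x + u ∈ A) ∧ A.card = m * (elts U).card := by
  have hpos : 0 < (elts U).card := Finset.card_pos.2 ⟨0, mem_elts.2 U.zero_mem⟩
  induction m with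
  | zero =>
    refine ⟨∅, fun u _ x hx => absurd hx (Finset.notMem_empty _), ?_⟩
    rw [Finset.card_empty, zero_mul]
  | succ m ih =>
    rw [Nat.succ_mul] at hm
    obtain ⟨A, hcl, hc⟩ := ih (by omega)
    obtain ⟨a, -, ha⟩ : ∃ a ∈ (univ : Finset K), a ∉ A := by
      refine Finset.exists_mem_notMem_of_card_lt_card ?_
      rw [Finset.card_univ, hc]
      omega
    refine ⟨A ∪ (elts U).image (fun u => a + u), ?_, ?_⟩
    · intro u hu x hx
      rw [Finset.mem_union, Finset.mem_image] at hx ⊢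
      rcases hx with hx | ⟨v, hv, rfl⟩
      · exact Or.inl (hcl u hu x hx)
      · exact Or.inr ⟨v + u, mem_elts.2 (U.add_mem (mem_elts.1 hv) hu), by ring⟩
    · rw [Finset.card_union_of_disjoint, hc, Finset.card_image_of_injective _
        (add_right_injective a), Nat.succ_mul]
      rw [Finset.disjoint_left]
      intro x hx hx'
      rw [Finset.mem_image] at hx'
      obtain ⟨u, hu, rfl⟩ := hx'
      refine ha ?_
      have := hcl _ (U.neg_mem (mem_elts.1 hu)) _ hx
      rwa [add_neg_cancel_right] at this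

end add

section designs
variable {K : Type u} [Field K] [DecidableEq K] [Fintype K] {t k : ℕ}
  {𝓑 : Finset (Finset (OnePoint K))}

omit [Fintype K] in
/-- the translations -/
lemma trans_mem (G : Subgroup (Equiv.Perm (OnePoint K)))
    (hSL : ∀ A : SpecialLinearGroup (Fin 2) K, slPerm A ∈ G) (a : K) :
    ∃ g ∈ G, g OnePoint.infty = OnePoint.infty ∧
      ∀ z : K, g (z : OnePoint K) = ((z + a : K) : OnePoint K) := by
  have hdet : (1 : K) * 1 - a * 0 = 1 ^ 2 := by ring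
  refine ⟨slPerm (mobM 1 a 0 1 1 hdet one_ne_zero), hSL _, mob_infty' _ _ _ _ _ _ _ rfl,
    fun z => ?_⟩
  rw [mob_coe _ _ _ _ _ _ _ z (by rw [zero_mul, zero_add]; exact one_ne_zero)]
  congr 1
  rw [zero_mul, zero_add, one_mul, div_one]

/-- the reflections `z ↦ c - z` -/
lemma neg_mem (G : Subgroup (Equiv.Perm (OnePoint K))) {Pd : K → Prop} (hG : Contains G Pd)
    (hP : Pd (-1)) (c : K) :
    ∃ g ∈ G, g OnePoint.infty = OnePoint.infty ∧
      ∀ z : K, g (z : OnePoint K) = ((c - z : K) : OnePoint K) := by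
  let A : GL (Fin 2) K := Matrix.GeneralLinearGroup.mkOfDetNeZero !![-1, c; 0, 1] (by
    rw [Matrix.det_fin_two_of]; simp)
  have h00 : A 0 0 = -1 := rfl
  have h01 : A 0 1 = c := rfl
  have h10 : A 1 0 = 0 := rfl
  have h11 : A 1 1 = 1 := rfl
  refine ⟨glPerm A, hG A ?_, ?_, fun z => ?_⟩
  · have hdet : (A.det : K) = -1 := by
      show Matrix.det !![-1, c; 0, 1] = -1
      rw [Matrix.det_fin_two_of]; ring
    rw [hdet]; exact hP
  · rw [glPerm_infty, if_pos h10]
  · rw [glPerm_coe, h00, h01, h10, h11, zero_mul, zero_add, if_neg one_ne_zero, div_one]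
    congr 1
    ring

lemma card_fin' (B : Finset (OnePoint K)) :
    (fin B).card = B.card ∨ ((fin B).card + 1 = B.card ∧ OnePoint.infty ∈ B) := by
  by_cases h : OnePoint.infty ∈ B
  · exact Or.inr ⟨card_fin h, h⟩
  · left
    have h1 := card_fin (B := insert OnePoint.infty B) (Finset.mem_insert_self _ _)
    rw [Finset.card_insert_of_notMem h] at h1
    have h2 : fin (insert OnePoint.infty B) = fin B := by
      ext x
      rw [mem_fin, mem_fin, Finset.mem_insert]
      exact ⟨fun e => e.resolve_left (OnePoint.coe_ne_infty _), Or.inr⟩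
    rw [h2] at h1
    omega

/-- a set of translates and, possibly, `∞` -/
noncomputable def cov (E' : Finset (OnePoint K)) (A : Finset K) : Finset (OnePoint K) :=
  E' ∪ A.image (fun x : K => (x : OnePoint K))

omit [Fintype K] in
lemma card_cov {E' : Finset (OnePoint K)} (hE' : E' ⊆ {OnePoint.infty}) (A : Finset K) :
    (cov E' A).card = E'.card + A.card := by
  unfold cov
  rw [Finset.card_union_of_disjoint, Finset.card_image_of_injective _ OnePoint.coe_injective]
  rw [Finset.disjoint_left]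
  intro x hx hx'
  rw [Finset.mem_image] at hx'
  obtain ⟨y, -, rfl⟩ := hx'
  exact OnePoint.coe_ne_infty _ (Finset.mem_singleton.1 (hE' hx))

/-- the block through a union of cosets of `U` is `U`-invariant -/
lemma inv_cov (hD : IsDesign t k 1 𝓑) (G : Subgroup (Equiv.Perm (OnePoint K)))
    (hG : ∀ g ∈ G, ∀ B ∈ 𝓑, B.image g ∈ 𝓑)
    (hSL : ∀ A : SpecialLinearGroup (Fin 2) K, slPerm A ∈ G) {U : AddSubgroup K}
    {E' : Finset (OnePoint K)} (hE' : E' ⊆ {OnePoint.infty}) {A : Finset K}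
    (hA : ∀ u ∈ U, ∀ x ∈ A, x + u ∈ A) (hc : (cov E' A).card = t) {B : Finset (OnePoint K)}
    (hB : B ∈ 𝓑) (hS : cov E' A ⊆ B) : ∀ u ∈ U, ∀ x ∈ fin B, x + u ∈ fin B := by
  intro u hu x hx
  obtain ⟨g, hg, hgi, hgz⟩ := trans_mem G hSL u
  have h1 := image_perm hD g (hG g hg) hB hB _ hc hS (by
    intro p hp
    refine hS ?_
    unfold cov at hp ⊢
    rw [Finset.mem_union, Finset.mem_image] at hp ⊢
    rcases hp with hp | ⟨y, hy, rfl⟩
    · have e := Finset.mem_singleton.1 (hE' hp)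
      rw [e, hgi, ← e]
      exact Or.inl hp
    · rw [hgz]
      exact Or.inr ⟨y + u, hA u hu y hy, rfl⟩) _ (mem_fin.1 hx)
  rw [hgz] at h1
  exact mem_fin.2 h1

/-- two cosets -/
noncomputable def cos2 (U : AddSubgroup K) (x y : K) : Finset K :=
  (elts U).image (fun u => x + u) ∪ (elts U).image (fun u => y + u)

lemma cos2_closed (U : AddSubgroup K) (x y : K) : ∀ u ∈ U, ∀ z ∈ cos2 U x y, z + u ∈ cos2 U x y := by
  intro u hu z hz
  unfold cos2 at hz ⊢
  rw [Finset.mem_union, Finset.mem_image, Finset.mem_image] at hz ⊢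
  rcases hz with ⟨v, hv, rfl⟩ | ⟨v, hv, rfl⟩
  · exact Or.inl ⟨v + u, mem_elts.2 (U.add_mem (mem_elts.1 hv) hu), by ring⟩
  · exact Or.inr ⟨v + u, mem_elts.2 (U.add_mem (mem_elts.1 hv) hu), by ring⟩

lemma card_cos2 {U : AddSubgroup K} {x y : K} (h : y - x ∉ U) :
    (cos2 U x y).card = 2 * (elts U).card := by
  unfold cos2
  rw [Finset.card_union_of_disjoint, Finset.card_image_of_injective _ (add_right_injective x),
    Finset.card_image_of_injective _ (add_right_injective y), two_mul]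
  rw [Finset.disjoint_left]
  intro z hz hz'
  rw [Finset.mem_image] at hz hz'
  obtain ⟨u, hu, rfl⟩ := hz
  obtain ⟨v, hv, e⟩ := hz'
  refine h ?_
  have : y - x = u - v := by linear_combination e
  rw [this]
  exact U.sub_mem (mem_elts.1 hu) (mem_elts.1 hv)

lemma mem_cos2 (U : AddSubgroup K) (x y : K) : x ∈ cos2 U x y ∧ y ∈ cos2 U x y := by
  unfold cos2
  exact ⟨Finset.mem_union_left _ (Finset.mem_image.2 ⟨0, mem_elts.2 U.zero_mem, add_zero _⟩),
    Finset.mem_union_right _ (Finset.mem_image.2 ⟨0, mem_elts.2 U.zero_mem, add_zero _⟩)⟩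

/-- the family -/
def famU (𝓑 : Finset (Finset (OnePoint K))) (E' : Finset (OnePoint K)) (U : AddSubgroup K) :
    Set (Finset K) :=
  {D | ∃ B ∈ 𝓑, E' ⊆ B ∧ (∀ u ∈ U, ∀ x ∈ fin B, x + u ∈ fin B) ∧ D = fin B}

lemma cov_subset {U : AddSubgroup K} {E' B : Finset (OnePoint K)} (hEB : E' ⊆ B)
    (hcl : ∀ u ∈ U, ∀ x ∈ fin B, x + u ∈ fin B) {x y : K} (hx : x ∈ fin B) (hy : y ∈ fin B) :
    cov E' (cos2 U x y) ⊆ B := by
  intro p hp
  unfold cov cos2 at hp
  rw [Finset.mem_union, Finset.mem_image] at hp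
  rcases hp with hp | ⟨z, hz, rfl⟩
  · exact hEB hp
  · rw [Finset.mem_union, Finset.mem_image, Finset.mem_image] at hz
    rcases hz with ⟨u, hu, rfl⟩ | ⟨u, hu, rfl⟩
    · exact mem_fin.1 (hcl u (mem_elts.1 hu) x hx)
    · exact mem_fin.1 (hcl u (mem_elts.1 hu) y hy)

theorem torus_famU (hD : IsDesign t k 1 𝓑) (G : Subgroup (Equiv.Perm (OnePoint K)))
    (hG : ∀ g ∈ G, ∀ B ∈ 𝓑, B.image g ∈ 𝓑)
    (hSL : ∀ A : SpecialLinearGroup (Fin 2) K, slPerm A ∈ G) (U : AddSubgroup K)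
    {E' : Finset (OnePoint K)} (hE' : E' ⊆ {OnePoint.infty})
    (ht : t = E'.card + 2 * (elts U).card) {n₀ : ℕ}
    (hcard : ∀ B ∈ 𝓑, E' ⊆ B → (∀ u ∈ U, ∀ x ∈ fin B, x + u ∈ fin B) → (fin B).card = n₀) :
    AddTorus U (famU 𝓑 E' U) n₀ := by
  have htwo : ∀ x y : K, y - x ∉ U → (cov E' (cos2 U x y)).card = t := by
    intro x y hxy
    rw [card_cov hE', card_cos2 hxy, ht]
  refine ⟨?_, ?_, ?_, ?_⟩
  · rintro D ⟨B, hB, hEB, hcl, rfl⟩
    exact hcard B hB hEB hcl
  · rintro D ⟨B, hB, hEB, hcl, rfl⟩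
    exact hcl
  · intro x y hxy
    obtain ⟨B, hB, hS⟩ := block_exists hD (htwo x y hxy)
    have hEB : E' ⊆ B := fun p hp => hS (by unfold cov; exact Finset.mem_union_left _ hp)
    have hm : ∀ z ∈ cos2 U x y, z ∈ fin B := fun z hz => mem_fin.2 (hS (by
      unfold cov; exact Finset.mem_union_right _ (Finset.mem_image_of_mem _ hz)))
    exact ⟨fin B, ⟨B, hB, hEB, inv_cov hD G hG hSL hE' (cos2_closed U x y) (htwo x y hxy) hB hS,
      rfl⟩, hm _ (mem_cos2 U x y).1, hm _ (mem_cos2 U x y).2⟩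
  · rintro D ⟨B, hB, hEB, hcl, rfl⟩ D' ⟨B', hB', hEB', hcl', rfl⟩ x y hx hy hx' hy' hxy
    have : B = B' := block_unique hD hB hB' (S := cov E' (cos2 U x y)) (by rw [htwo x y hxy])
      (cov_subset hEB hcl hx hy) (cov_subset hEB' hcl' hx' hy')
    rw [this]

/-- the reflections -/
theorem refl_famU (hD : IsDesign t k 1 𝓑) (G : Subgroup (Equiv.Perm (OnePoint K)))
    (hG : ∀ g ∈ G, ∀ B ∈ 𝓑, B.image g ∈ 𝓑) {Pd : K → Prop} (hGc : Contains G Pd)
    (hP : Pd (-1)) (U : AddSubgroup K)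
    {E' : Finset (OnePoint K)} (hE' : E' ⊆ {OnePoint.infty})
    (ht : t = E'.card + 2 * (elts U).card) :
    ∀ D ∈ famU 𝓑 E' U, ∀ x ∈ D, ∀ y ∈ D, y - x ∉ U → ∀ z ∈ D, x + y - z ∈ D := by
  rintro D ⟨B, hB, hEB, hcl, rfl⟩ x hx y hy hxy z hz
  obtain ⟨g, hg, hgi, hgz⟩ := neg_mem G hGc hP (x + y)
  have hS := cov_subset hEB hcl hx hy
  have h1 := image_perm hD g (hG g hg) hB hB (cov E' (cos2 U x y))
    (by rw [card_cov hE', card_cos2 hxy, ht]) hS (by
    intro p hp
    refine hS ?_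
    unfold cov cos2 at hp ⊢
    rw [Finset.mem_union, Finset.mem_image] at hp ⊢
    rcases hp with hp | ⟨w, hw, rfl⟩
    · have e := Finset.mem_singleton.1 (hE' hp)
      rw [e, hgi, ← e]
      exact Or.inl hp
    · right
      rw [hgz]
      refine ⟨x + y - w, ?_, rfl⟩
      rw [Finset.mem_union, Finset.mem_image, Finset.mem_image] at hw ⊢
      rcases hw with ⟨u, hu, rfl⟩ | ⟨u, hu, rfl⟩
      · exact Or.inr ⟨-u, mem_elts.2 (U.neg_mem (mem_elts.1 hu)), by ring⟩
      · exact Or.inl ⟨-u, mem_elts.2 (U.neg_mem (mem_elts.1 hu)), by ring⟩) _ (mem_fin.1 hz)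
  rw [hgz] at h1
  exact mem_fin.2 h1

/-- a group of translations and `∞` -/
theorem unip_dvd {p e j : ℕ} (hp : p.Prime) (hq : Fintype.card K = p ^ e) (hj : j ≤ e)
    (hD : IsDesign t k 1 𝓑) (G : Subgroup (Equiv.Perm (OnePoint K)))
    (hG : ∀ g ∈ G, ∀ B ∈ 𝓑, B.image g ∈ 𝓑)
    (hSL : ∀ A : SpecialLinearGroup (Fin 2) K, slPerm A ∈ G) (ht : 1 ≤ t)
    (htq : t < Fintype.card K + 1) (hjt : p ^ j ∣ t - 1) : p ^ j ∣ k - 1 := by
  obtain ⟨U, hU⟩ := exists_sub hp hq j hj
  obtain ⟨m, hm⟩ := hjt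
  obtain ⟨A, hA, hAc⟩ := exists_closedU U m (by rw [hU, mul_comm, ← hm]; omega)
  have hc : (cov {OnePoint.infty} A).card = t := by
    rw [card_cov (Finset.Subset.refl _), Finset.card_singleton, hAc, hU, mul_comm, ← hm]
    omega
  obtain ⟨B, hB, hS⟩ := block_exists hD hc
  have h1 := inv_cov hD G hG hSL (Finset.Subset.refl _) hA hc hB hS
  have h2 := U_dvd U (fin B) h1
  have h3 := card_fin (B := B) (hS (by unfold cov; simp))
  rw [hD.1 B hB] at h3
  rw [hU] at h2
  rwa [← h3, Nat.add_sub_cancel]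

/-- two cosets and `∞`: `t = 2 p ^ j + 1` -/
theorem unip_one {p e j : ℕ} (hp : p.Prime) (hq : Fintype.card K = p ^ e) (hj : j ≤ e)
    (hD : IsDesign (2 * p ^ j + 1) k 1 𝓑) (G : Subgroup (Equiv.Perm (OnePoint K)))
    (hG : ∀ g ∈ G, ∀ B ∈ 𝓑, B.image g ∈ 𝓑)
    (hSL : ∀ A : SpecialLinearGroup (Fin 2) K, slPerm A ∈ G)
    (hk : 2 * p ^ j + 1 < k) (hkq : k < Fintype.card K + 1) :
    k - 1 - p ^ j ∣ Fintype.card K - p ^ j ∧
      ∀ (Pd : K → Prop), Contains G Pd → Pd (-1) →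
        ∃ m, k = p ^ m + 1 ∧ j < m ∧ (m - j) ∣ (e - j) := by
  obtain ⟨U, hU⟩ := exists_sub hp hq j hj
  have ht : 2 * p ^ j + 1 = ({OnePoint.infty} : Finset (OnePoint K)).card + 2 * (elts U).card := by
    rw [Finset.card_singleton, hU]; ring
  have hT := torus_famU hD G hG hSL U (E' := {OnePoint.infty}) (Finset.Subset.refl _) ht
    (n₀ := k - 1) (by
    intro B hB hEB _
    have h3 := card_fin (B := B) (Finset.singleton_subset_iff.1 hEB)
    rw [hD.1 B hB] at h3
    omega)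
  have hne : ∃ a : K, a ∉ U := by
    by_contra hcon
    push Not at hcon
    have h1 : elts U = univ := Finset.eq_univ_of_forall fun x => mem_elts.2 (hcon x)
    have h2 := congrArg Finset.card h1
    rw [hU, Finset.card_univ] at h2
    omega
  refine ⟨?_, fun Pd hGc hP => ?_⟩
  · have := addtorus_div hT
    rwa [hU] at this
  · obtain ⟨m, h1, h2, h3⟩ := addtorus_pow hT (by rw [hU]; omega)
      (refl_famU hD G hG hGc hP U (Finset.Subset.refl _) ht) hp hq hU hne
    exact ⟨m, by omega, h2, h3⟩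

/-- two cosets: `t = 2 p ^ j` -/
theorem unip_zero {p e j : ℕ} (hp : p.Prime) (hq : Fintype.card K = p ^ e) (hj : j ≤ e)
    (hj1 : 1 ≤ j)
    (hD : IsDesign (2 * p ^ j) k 1 𝓑) (G : Subgroup (Equiv.Perm (OnePoint K)))
    (hG : ∀ g ∈ G, ∀ B ∈ 𝓑, B.image g ∈ 𝓑)
    (hSL : ∀ A : SpecialLinearGroup (Fin 2) K, slPerm A ∈ G)
    (hk : 2 * p ^ j < k) (hkq : k < Fintype.card K + 1) :
    k % p ^ j ≤ 1 ∧ k - k % p ^ j - p ^ j ∣ Fintype.card K - p ^ j ∧
      ∀ (Pd : K → Prop), Contains G Pd → Pd (-1) → 2 * p ^ j < k - k % p ^ j →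
        ∃ m, k - k % p ^ j = p ^ m ∧ j < m ∧ (m - j) ∣ (e - j) := by
  obtain ⟨U, hU⟩ := exists_sub hp hq j hj
  have hr : 2 ≤ p ^ j := by
    calc 2 ≤ p := hp.two_le
      _ = p ^ 1 := (pow_one p).symm
      _ ≤ p ^ j := Nat.pow_le_pow_right hp.pos hj1
  have ht : 2 * p ^ j = (∅ : Finset (OnePoint K)).card + 2 * (elts U).card := by
    rw [Finset.card_empty, hU]; ring
  have hne : ∃ a : K, a ∉ U := by
    by_contra hcon
    push Not at hcon
    have h1 : elts U = univ := Finset.eq_univ_of_forall fun x => mem_elts.2 (hcon x)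
    have h2 := congrArg Finset.card h1
    rw [hU, Finset.card_univ] at h2
    omega
  have hcl : ∀ B ∈ 𝓑, (∀ u ∈ U, ∀ x ∈ fin B, x + u ∈ fin B) →
      (fin B).card = k - k % p ^ j ∧ k % p ^ j ≤ 1 := by
    intro B hB h
    have h1 := U_dvd U (fin B) h
    rw [hU] at h1
    obtain ⟨m, hm⟩ := h1
    rcases card_fin' B with h2 | ⟨h2, -⟩
    · rw [hD.1 B hB] at h2
      have h3 : k % p ^ j = 0 := by rw [← h2, hm, Nat.mul_mod_right]
      omega
    · rw [hD.1 B hB] at h2
      have h3 : k % p ^ j = 1 := by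
        rw [← h2, hm, Nat.mul_add_mod]
        exact Nat.mod_eq_of_lt (by omega)
      omega
  have hT := torus_famU hD G hG hSL U (E' := ∅) (Finset.empty_subset _) ht
    (n₀ := k - k % p ^ j) (fun B hB _ h => (hcl B hB h).1)
  obtain ⟨a, ha⟩ := hne
  obtain ⟨D, ⟨B, hB, -, hBc, -⟩, -, -⟩ := hT.ex 0 a (by rwa [sub_zero])
  refine ⟨(hcl B hB hBc).2, ?_, fun Pd hGc hP hbig => ?_⟩
  · have := addtorus_div hT
    rwa [hU] at this
  · exact addtorus_pow hT (by rw [hU]; omega)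
      (refl_famU hD G hG hGc hP U (Finset.empty_subset _) ht) hp hq hU ⟨a, ha⟩

end designs

end Pool.Agent.N86.S7
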